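import Pool.Agent.Lib.SkN.PolF

/-!
# Module AB: consequences of the families (about 150 lines)

`x = f^[K] ν`, `ν ∈ rad χ`, `rad χ` abelian, and `hK : K = 0 → f = 0 on rad χ`; `hF`: for every `ξ` there is a family `F` with `F(0) = ν`, `F c ∈ rad (χ + c ξ)` and `f^[K+1] (F c) = 0` for almost all `c`.
`rad χ'` is stable under `f` for every `χ'`: `χ'⁅f u, y⁆ = χ'⁅u,⁅u,y⁆⁆ = 0`.  So `f^[K] (F c) ∈ rad (χ + c ξ)` for almost all `c`.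

`lemma step`: for every `ξ` there are `x1 x2` with `⁅x,x1⁆ = 0`, `f x1 + ⁅x,x2⁆ = 0`, `∀ y, χ⁅x1,y⁆ + ξ⁅x,y⁆ = 0`: apply `fam_f` `K` times: `Fam (f^[K] ∘ F) x x1 x2`; `fam_pair` for it; `fam_f` once more
and `fam_zero` (infinitely many `c`: the complement of a finite set in an infinite field).

`hA`: given `u` with `χ⁅u, c⁆ = 0` for all `c` with `⁅x,c⁆ = 0`: there is `ξ : Dual k L` with `ξ ⁅x,y⁆ = χ⁅u,y⁆` for all `y` (`χ ∘ ad u` vanishes on `ker (ad x)`, so it factors through `ad x`: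
`LinearMap.exists_extend`/`range_dualMap_eq_dualAnnihilator_ker`).  `step`: `χ⁅x1,y⁆ + χ⁅u,y⁆ = 0`, so `x1 - u ∈ rad χ` (characteristic two: `x1 + u`), `⁅x, x1 - u⁆ = 0` (`rad χ` abelian, `x ∈ rad χ`), `⁅x,u⁆ = 0`.

`hB`: given `y` take `ξ = χ ∘ ad y` (`ξ w = χ⁅y,w⁆`).  Family `F` with coefficients `ν, ν1, ν2`: `fam_pair`: `χ⁅ν1,w⁆ + χ⁅y,⁅ν,w⁆⁆ = 0`, and `χ⁅y,⁅ν,w⁆⁆ = χ⁅⁅y,ν⁆,w⁆ + χ⁅ν,⁅y,w⁆⁆ = χ⁅⁅y,ν⁆,w⁆`
(Jacobi, `ν ∈ rad χ`), so `n1 = ν1 + ⁅y,ν⁆ = ν1 + ⁅ν,y⁆` (characteristic two) is in `rad χ`.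
Case `K ≥ 1`: by induction `Fam (f^[j] ∘ F) (f^[j] ν) ⁅f^[j] ν, y⁆ (…)` for `1 ≤ j ≤ K` (`⁅ν, ν1⁆ = ⁅ν,⁅ν,y⁆⁆ + ⁅ν,n1⁆ = ⁅f ν,y⁆`, then `⁅f^[j]ν, ⁅f^[j]ν, y⁆⁆ = ⁅f^[j+1] ν, y⁆`), so `x1 = ⁅x,y⁆`, and
`f ⁅x,y⁆ = -⁅x,x2⁆ = ⁅x,-x2⁆`.
Case `K = 0`: `x = ν`, `f ν1 + ⁅ν,ν2⁆ = 0`, `ν1 = ⁅ν,y⁆ + n1` (characteristic two), `f ν1 = f⁅ν,y⁆ + f n1 + ⁅⁅ν,y⁆,n1⁆`, `f n1 = 0` (`hK`), `⁅⁅ν,y⁆,n1⁆ = ⁅ν,⁅y,n1⁆⁆ - ⁅y,⁅ν,n1⁆⁆ = ⁅ν,⁅y,n1⁆⁆`.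
-/

set_option autoImplicit false
set_option linter.unusedSectionVars false

namespace Pool.Agent.SkN

open Module

open Pool.Agent.SkS (Rst Frz Nondeg Rep Irr UU)

variable {k L : Type} [Field k] [CharP k 2] [IsAlgClosed k] [LieRing L] [LieAlgebra k L]
  [FiniteDimensional k L]

private lemma ab_rad_f {f : L → L} (hf : Rst k f) {χ : Dual k L} {u : L} (hu : u ∈ rad χ) :
    f u ∈ rad χ := by
  intro y
  rw [hf.lie]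
  exact hu _

private lemma ab_rad_it {f : L → L} (hf : Rst k f) {χ : Dual k L} {u : L} (hu : u ∈ rad χ) (j : ℕ) :
    f^[j] u ∈ rad χ := by
  induction j with
  | zero => exact hu
  | succ j ih =>
    rw [Function.iterate_succ_apply']
    exact ab_rad_f hf ih

private lemma ab_fam_it {f : L → L} (hf : Rst k f) {F : k → L} {x0 x1 x2 : L} (h : Fam F x0 x1 x2)
    (j : ℕ) : ∃ a b : L, Fam (fun c => f^[j] (F c)) (f^[j] x0) a b := by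
  induction j with
  | zero => exact ⟨x1, x2, h⟩
  | succ j ih =>
    obtain ⟨a, b, hab⟩ := ih
    refine ⟨⁅f^[j] x0, a⁆, f a + ⁅f^[j] x0, b⁆, ?_⟩
    have h2 := fam_f hf hab
    simp only [Function.iterate_succ_apply']
    exact h2

private lemma ab_fam_it' {f : L → L} (hf : Rst k f) {F : k → L} {x0 x1 x2 y : L}
    (h : Fam F x0 x1 x2) (hy : ⁅x0, x1⁆ = ⁅f x0, y⁆) (j : ℕ) :
    ∃ b : L, Fam (fun c => f^[j + 1] (F c)) (f^[j + 1] x0) ⁅f^[j + 1] x0, y⁆ b := by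
  induction j with
  | zero =>
    refine ⟨f x1 + ⁅x0, x2⁆, ?_⟩
    have h2 := fam_f hf h
    rw [hy] at h2
    exact h2
  | succ j ih =>
    obtain ⟨b, hb⟩ := ih
    refine ⟨f ⁅f^[j + 1] x0, y⁆ + ⁅f^[j + 1] x0, b⁆, ?_⟩
    have h2 := fam_f hf hb
    rw [← hf.lie] at h2
    simp only [Function.iterate_succ_apply' f (j + 1)]
    exact h2

private lemma ab_factor (χ : Dual k L) (x u : L) (h : ∀ c : L, ⁅x, c⁆ = 0 → χ ⁅u, c⁆ = 0) :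
    ∃ ξ : Dual k L, ∀ y : L, ξ ⁅x, y⁆ = χ ⁅u, y⁆ := by
  have hm : (χ ∘ₗ (LieAlgebra.ad k L u : L →ₗ[k] L) : Dual k L) ∈
      LinearMap.range (LinearMap.dualMap (LieAlgebra.ad k L x : L →ₗ[k] L)) := by
    rw [LinearMap.range_dualMap_eq_dualAnnihilator_ker, Submodule.mem_dualAnnihilator]
    intro c hc
    rw [LinearMap.mem_ker] at hc
    exact h c hc
  obtain ⟨ξ, hξ⟩ := hm
  refine ⟨ξ, fun y => ?_⟩
  exact LinearMap.congr_fun hξ y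

theorem ab {f : L → L} (hf : Rst k f) {χ : Dual k L} (K : ℕ) (ν : L) (hν : ν ∈ rad χ)
    (hab : ∀ a ∈ rad χ, ∀ b ∈ rad χ, ⁅a, b⁆ = 0) (hK : K = 0 → ∀ a ∈ rad χ, f a = 0)
    (hF : ∀ ξ : Dual k L, ∃ (F : k → L) (x1 x2 : L), Fam F ν x1 x2 ∧
      {c : k | ¬ (F c ∈ rad (χ + c • ξ) ∧ f^[K + 1] (F c) = 0)}.Finite) :
    (∀ u : L, (∀ c : L, ⁅f^[K] ν, c⁆ = 0 → χ ⁅u, c⁆ = 0) → ⁅f^[K] ν, u⁆ = 0) ∧
      ∀ y : L, ∃ z : L, f ⁅f^[K] ν, y⁆ = ⁅f^[K] ν, z⁆ := by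
  have hinf : ∀ T : Set k, Tᶜ.Finite → T.Infinite := by
    intro T hT hT2
    exact Set.infinite_univ (α := k) (by rw [← Set.union_compl_self T]; exact hT2.union hT)
  have hx : f^[K] ν ∈ rad χ := ab_rad_it hf hν K
  refine ⟨?_, ?_⟩
  · intro u hu
    obtain ⟨ξ, hξ⟩ := ab_factor χ (f^[K] ν) u hu
    obtain ⟨F, n1, n2, hFam, hfin⟩ := hF ξ
    have hS : {c : k | F c ∈ rad (χ + c • ξ) ∧ f^[K + 1] (F c) = 0}.Infinite := hinf _ hfin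
    obtain ⟨x1, x2, hx12⟩ := ab_fam_it hf hFam K
    have h1 := fam_f hf hx12
    obtain ⟨-, h2, -⟩ := fam_zero h1 _ hS (by
      rintro c ⟨-, hc⟩
      rw [Function.iterate_succ_apply'] at hc
      exact hc)
    have h3 : x1 + u ∈ rad χ := by
      intro y
      have h4 := (fam_pair hx12 χ ξ _ hS (by
        rintro c ⟨hc, -⟩
        exact ab_rad_it hf hc K) y).2
      rw [hξ] at h4
      rw [add_lie, map_add]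
      exact h4
    have h5 := hab _ hx _ h3
    rw [lie_add, h2, zero_add] at h5
    exact h5
  · intro y
    obtain ⟨F, ν1, ν2, hFam, hfin⟩ := hF (χ ∘ₗ (LieAlgebra.ad k L y : L →ₗ[k] L))
    have hS : {c : k | F c ∈ rad (χ + c • (χ ∘ₗ (LieAlgebra.ad k L y : L →ₗ[k] L))) ∧
        f^[K + 1] (F c) = 0}.Infinite := hinf _ hfin
    have hn : ν1 + ⁅y, ν⁆ ∈ rad χ := by
      intro w
      have h4 := (fam_pair hFam χ _ _ hS (by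
        rintro c ⟨hc, -⟩
        exact hc) w).2
      have h5 : (χ ∘ₗ (LieAlgebra.ad k L y : L →ₗ[k] L)) ⁅ν, w⁆ = χ ⁅⁅y, ν⁆, w⁆ := by
        show χ ⁅y, ⁅ν, w⁆⁆ = _
        rw [leibniz_lie y ν w, map_add, hν, add_zero]
      rw [h5] at h4
      rw [add_lie, map_add]
      exact h4
    have hn0 : ⁅ν, ν1 + ⁅y, ν⁆⁆ = 0 := hab _ hν _ hn
    rcases K with _ | K
    · have h1 := fam_f hf hFam
      obtain ⟨-, -, h2⟩ := fam_zero h1 _ hS (by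
        rintro c ⟨-, hc⟩
        exact hc)
      have h3 : f (ν1 + ⁅y, ν⁆) = 0 := hK rfl _ hn
      have h4 : ν1 = ⁅ν, y⁆ + (ν1 + ⁅y, ν⁆) := by
        rw [← lie_skew y ν]
        abel
      have h5 : f ν1 = f ⁅ν, y⁆ + ⁅ν, ⁅y, ν1 + ⁅y, ν⁆⁆⁆ := by
        have h6 : f ν1 = f (⁅ν, y⁆ + (ν1 + ⁅y, ν⁆)) := congrArg f h4
        rw [h6, hf.add, h3, add_zero, lie_lie, hn0, lie_zero, sub_zero]
      refine ⟨-ν2 - ⁅y, ν1 + ⁅y, ν⁆⁆, ?_⟩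
      show f ⁅ν, y⁆ = ⁅ν, _⁆
      rw [lie_sub, lie_neg]
      rw [h5] at h2
      have h7 : f ⁅ν, y⁆ = (f ⁅ν, y⁆ + ⁅ν, ⁅y, ν1 + ⁅y, ν⁆⁆⁆ + ⁅ν, ν2⁆) - ⁅ν, ν2⁆ -
          ⁅ν, ⁅y, ν1 + ⁅y, ν⁆⁆⁆ := by abel
      rw [h7, h2, zero_sub]
    · have hy : ⁅ν, ν1⁆ = ⁅f ν, y⁆ := by
        rw [hf.lie]
        rw [lie_add] at hn0
        have h8 : ⁅ν, ⁅y, ν⁆⁆ = -⁅ν, ⁅ν, y⁆⁆ := by
          rw [← lie_skew ν y, lie_neg, neg_neg]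
        rw [h8, add_neg_eq_zero] at hn0
        exact hn0
      obtain ⟨b, hb⟩ := ab_fam_it' hf hFam hy K
      have h1 := fam_f hf hb
      obtain ⟨-, -, h2⟩ := fam_zero h1 _ hS (by
        rintro c ⟨-, hc⟩
        rw [Function.iterate_succ_apply'] at hc
        exact hc)
      refine ⟨-b, ?_⟩
      rw [lie_neg]
      exact eq_neg_of_add_eq_zero_left h2


end Pool.Agent.SkN
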