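import Pool.Agent.Lib.SkN.FamB

/-!
# Module ArtR: almost central families are almost scalar (about 200 lines)

`M = (Fin n → Fin 2) → k[X]`, `e0 = Pi.single 0 1` (`wd 0 = []`, `mkP (q • e0) i = q.eval (s i)`).

(1) The `k[X]`-linear map `F : M →ₗ[k[X]] (Fin n → M)` with `mkP (F g j) i = mkP g i * Y i (b j) - Y i (b j) * mkP g i` for all `i, j`: by `inP_word` (`Y i (b j) = wp b (Y i) [j]`) choose
`G ε j : M` with `mkP (G ε j) i = wp (wd ε ++ [j]) - wp ([j] ++ wd ε)` and `F g j = ∑ ε, g ε • G ε j`.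
(2) `ker F = k[X] e0`.  `e0 ∈ ker F` (`mkP_inj`).  Let `F g = 0`, subtract `g 0 • e0`, so `g 0 = 0`; claim `g = 0`.  Prove by strong induction on `d`: for all `h` with `h 0 = 0`, `F h = 0` and
`∑ ε, (h ε).natDegree ≤ d` (or fix `ε0` and induct on `(h ε0).natDegree`): `h = 0`.  At `i0` (`s i0 = 1`) `mkP h i0` commutes with all `Y i0 (b j)`, hence with all `Y i0 y`,
so it is a scalar `c` (`hcen`); `mkP h i0 = c • wp (wd 0)`, by `hD.ind i0` `(h ε).eval 1 = 0` for `ε ≠ 0`, and `h 0 = 0`.  So `h = (X - C 1) • h'`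
(`Polynomial.dvd_iff_isRoot`), `h' 0 = 0`, `(X - C 1) • F h' = 0` so `F h' = 0`.  Fix `ε0`, induction on `(h ε0).natDegree`: if `h ε0 ≠ 0` then
`(h' ε0).natDegree < (h ε0).natDegree`, so `h' ε0 = 0`, contradiction.  (Degree 0 and a root: `h ε0 = 0`.)
(3) Artin-Rees: `Ideal.exists_pow_inf_eq_pow_smul (Ideal.span {X}) (LinearMap.range F)` (`k[X]` Noetherian, `Fin n → M` finite): there is `c` with
`(X)^m • ⊤ ⊓ range F = (X)^(m-c) • ((X)^c • ⊤ ⊓ range F) ≤ (X)^(m-c) • range F` for `m ≥ c`.
(4) Let `z = mkP g` (`InP 0`) with all commutators `InP m`, `m ≥ c`.  By `inP_div` `F g j = X^m • g'_j`, so `F g ∈ (X)^m • ⊤`, so `F g = X^(m-c) • F h`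
(elements of `(span {X^(m-c)}) • range F` are of this form: `Submodule.ideal_span_singleton_smul`, `Submodule.mem_smul_pointwise_iff_exists`), `g - X^(m-c) • h ∈ ker F`, so `g = q • e0 + X^(m-c) • h`.
-/

set_option autoImplicit false
set_option linter.unusedSectionVars false

namespace Pool.Agent.SkN

open Module Polynomial

open Pool.Agent.SkS (Rst Frz Nondeg Rep Irr UU)

open Pool.Agent.SkF (Sys wp wd)

variable {k L : Type} [Field k] [CharP k 2] [LieRing L] [LieAlgebra k L] [FiniteDimensional k L]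
  {n : ℕ} {b : Basis (Fin n) k L} {ι : Type} {s : ι → k} {A : ι → Type} [∀ i, Ring (A i)]
  [∀ i, Algebra k (A i)] {Y : ∀ i, L →ₗ[k] A i} {f : L → L} {χ : Dual k L}

section aux

variable (b s Y)

private lemma mkP_add' (g h : (Fin n → Fin 2) → k[X]) (i : ι) :
    mkP b s Y (g + h) i = mkP b s Y g i + mkP b s Y h i := by
  unfold mkP
  rw [← Finset.sum_add_distrib]
  refine Finset.sum_congr rfl fun ε _ => ?_
  rw [Pi.add_apply, eval_add, add_smul]

private lemma mkP_smul' (q : k[X]) (g : (Fin n → Fin 2) → k[X]) (i : ι) :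
    mkP b s Y (q • g) i = q.eval (s i) • mkP b s Y g i := by
  unfold mkP
  rw [Finset.smul_sum]
  refine Finset.sum_congr rfl fun ε _ => ?_
  rw [Pi.smul_apply, smul_eq_mul, eval_mul, mul_smul]

private lemma mkP_zero' (i : ι) : mkP b s Y (0 : (Fin n → Fin 2) → k[X]) i = 0 := by
  unfold mkP
  refine Finset.sum_eq_zero fun ε _ => ?_
  rw [Pi.zero_apply, eval_zero, zero_smul]

private lemma mkP_sum' {β : Type} (T : Finset β) (g : β → (Fin n → Fin 2) → k[X]) (i : ι) :
    mkP b s Y (∑ t ∈ T, g t) i = ∑ t ∈ T, mkP b s Y (g t) i := by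
  classical
  induction T using Finset.induction_on with
  | empty => rw [Finset.sum_empty, Finset.sum_empty, mkP_zero']
  | insert a T ha ih => rw [Finset.sum_insert ha, Finset.sum_insert ha, mkP_add', ih]

private lemma wd_zero : wd (0 : Fin n → Fin 2) = [] := by
  unfold wd
  rw [List.filter_eq_nil_iff]
  intro a _
  simp

private lemma mkP_e0 (q : k[X]) (i : ι) :
    mkP b s Y (q • Pi.single (0 : Fin n → Fin 2) (1 : k[X])) i =
      algebraMap k (A i) (q.eval (s i)) := by
  rw [mkP_smul', Algebra.algebraMap_eq_smul_one]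
  congr 1
  unfold mkP
  rw [Finset.sum_eq_single (0 : Fin n → Fin 2)]
  · rw [Pi.single_eq_same, eval_one, one_smul, wd_zero, Pool.Agent.SkF.wp_nil]
  · intro ε _ hε
    rw [Pi.single_eq_of_ne hε, eval_zero, zero_smul]
  · intro h
    exact absurd (Finset.mem_univ _) h

end aux

/-- the coordinates of the commutators of the ordered monomials with the generators -/
private lemma exists_G (hD : FamD b s Y f χ) (ε : Fin n → Fin 2) (j : Fin n) :
    ∃ g : (Fin n → Fin 2) → k[X], ∀ i, mkP b s Y g i =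
      wp b (Y i) (wd ε) * Y i (b j) - Y i (b j) * wp b (Y i) (wd ε) := by
  have h1 := inP_mul hD (inP_word hD (wd ε)) (inP_Y hD (b j))
  have h2 := inP_mul hD (inP_Y hD (b j)) (inP_word hD (wd ε))
  have h3 := inP_add h1 (inP_smul (C (-1)) h2)
  obtain ⟨g, hg⟩ := h3
  refine ⟨g, fun i => ?_⟩
  have h4 := hg i
  simp only [add_zero, pow_zero, one_smul, eval_C, neg_smul] at h4
  rw [← h4, sub_eq_add_neg]

theorem art (hD : FamD b s Y f χ) (i0 : ι) (hi0 : s i0 = 1)
    (hcen : ∀ u : A i0, (∀ y : L, u * Y i0 y = Y i0 y * u) → ∃ c : k, u = algebraMap k (A i0) c) :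
    ∃ c : ℕ, ∀ m, c ≤ m → ∀ z : ∀ i, A i, InP b s Y 0 z →
      (∀ y : L, InP b s Y m (fun i => z i * Y i y - Y i y * z i)) →
      ∃ (q : k[X]) (z' : ∀ i, A i), InP b s Y 0 z' ∧
        ∀ i, z i = algebraMap k (A i) (q.eval (s i)) + s i ^ (m - c) • z' i := by
  classical
  choose G hG using fun ε j => exists_G (b := b) (s := s) (Y := Y) hD ε j
  -- the commutator map
  let F : ((Fin n → Fin 2) → k[X]) →ₗ[k[X]] (Fin n → (Fin n → Fin 2) → k[X]) :=
    LinearMap.pi (fun j => ∑ ε : Fin n → Fin 2,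
      (LinearMap.proj (R := k[X]) (φ := fun _ : Fin n → Fin 2 => k[X]) ε).smulRight (G ε j))
  have hFdef : ∀ g j, F g j = ∑ ε : Fin n → Fin 2, g ε • G ε j := by
    intro g j
    simp [F, LinearMap.sum_apply]
  have hF : ∀ g j i, mkP b s Y (F g j) i =
      mkP b s Y g i * Y i (b j) - Y i (b j) * mkP b s Y g i := by
    intro g j i
    rw [hFdef, mkP_sum']
    unfold mkP
    rw [Finset.sum_mul, Finset.mul_sum, ← Finset.sum_sub_distrib]
    refine Finset.sum_congr rfl fun ε _ => ?_
    have h1 := mkP_smul' b s Y (g ε) (G ε j) i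
    unfold mkP at h1
    have h2 := hG ε j i
    unfold mkP at h2
    rw [h1, h2, smul_sub, smul_mul_assoc, mul_smul_comm]
  -- the kernel
  have hker0 : ∀ q : k[X], F (q • Pi.single (0 : Fin n → Fin 2) (1 : k[X])) = 0 := by
    intro q
    funext j
    refine mkP_inj hD (fun i => ?_)
    rw [hF, mkP_e0, Pi.zero_apply, mkP_zero', Algebra.commutes, sub_self]
  have hstep : ∀ h : (Fin n → Fin 2) → k[X], F h = 0 → ∃ h' : (Fin n → Fin 2) → k[X],
      F h' = 0 ∧ ∀ ε, ε ≠ 0 → h ε = (X - C 1) * h' ε := by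
    intro h hh
    have h1 : ∀ y : L, mkP b s Y h i0 * Y i0 y = Y i0 y * mkP b s Y h i0 := by
      intro y
      have h2 : ∀ j, mkP b s Y h i0 * Y i0 (b j) = Y i0 (b j) * mkP b s Y h i0 := by
        intro j
        have h3 := hF h j i0
        rw [hh, Pi.zero_apply, mkP_zero'] at h3
        exact (sub_eq_zero.1 h3.symm)
      rw [← b.sum_repr y, map_sum, Finset.mul_sum, Finset.sum_mul]
      refine Finset.sum_congr rfl fun j _ => ?_
      rw [map_smul, mul_smul_comm, smul_mul_assoc, h2]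
    obtain ⟨c, hc⟩ := hcen _ h1
    have h4 : ∀ ε, ε ≠ 0 → (h ε).eval 1 = 0 := by
      intro ε hε
      have h5 : ∑ ε : Fin n → Fin 2, ((h ε).eval (s i0) - if ε = 0 then c else 0) •
          wp b (Y i0) (wd ε) = 0 := by
        have h6 : ∑ ε : Fin n → Fin 2, (if ε = 0 then c else 0) • wp b (Y i0) (wd ε) =
            algebraMap k (A i0) c := by
          rw [Finset.sum_eq_single (0 : Fin n → Fin 2)]
          · rw [if_pos rfl, wd_zero, Pool.Agent.SkF.wp_nil, Algebra.algebraMap_eq_smul_one]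
          · intro ε _ hε
            rw [if_neg hε, zero_smul]
          · intro h
            exact absurd (Finset.mem_univ _) h
        simp only [sub_smul, Finset.sum_sub_distrib]
        rw [h6, ← hc]
        exact sub_self _
      have h7 := (Fintype.linearIndependent_iff.1 (hD.ind i0)) _ h5 ε
      rw [if_neg hε, sub_zero, hi0] at h7
      exact h7
    have h8 : ∀ ε, ε ≠ 0 → ∃ r, h ε = (X - C 1) * r := fun ε hε =>
      (dvd_iff_isRoot.2 (h4 ε hε))
    choose! r hr using h8
    refine ⟨fun ε => if ε = 0 then 0 else r ε, ?_, ?_⟩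
    · have h9 : h = (h 0) • Pi.single (0 : Fin n → Fin 2) (1 : k[X]) +
          (X - C 1 : k[X]) • (fun ε => if ε = 0 then 0 else r ε) := by
        funext ε
        rw [Pi.add_apply, Pi.smul_apply, Pi.smul_apply]
        by_cases hε : ε = 0
        · subst hε
          rw [Pi.single_eq_same, if_pos rfl]
          simp
        · rw [Pi.single_eq_of_ne hε, if_neg hε, smul_zero, zero_add, smul_eq_mul]
          exact hr ε hε
      have h10 : (X - C 1 : k[X]) • F (fun ε => if ε = 0 then 0 else r ε) = 0 := by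
        rw [← map_smul]
        have h11 := hh
        rw [h9, map_add, hker0, zero_add] at h11
        exact h11
      rcases smul_eq_zero.1 h10 with h11 | h11
      · exact absurd h11 (X_sub_C_ne_zero 1)
      · exact h11
    · intro ε hε
      simp only [if_neg hε]
      exact hr ε hε
  have hker : ∀ d : ℕ, ∀ h : (Fin n → Fin 2) → k[X], F h = 0 → ∀ ε, ε ≠ 0 →
      (h ε).natDegree < d → h ε = 0 := by
    intro d
    induction d with
    | zero => intro h _ ε _ hd; exact absurd hd (Nat.not_lt_zero _)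
    | succ d ih =>
      intro h hh ε hε hd
      obtain ⟨h', hh', he⟩ := hstep h hh
      by_contra hne
      have h1 := he ε hε
      have h2 : h' ε ≠ 0 := by
        intro h0
        rw [h0, mul_zero] at h1
        exact hne h1
      have h3 : (h ε).natDegree = 1 + (h' ε).natDegree := by
        rw [h1, natDegree_mul (X_sub_C_ne_zero 1) h2, natDegree_X_sub_C]
      exact h2 (ih h' hh' ε hε (by omega))
  have hker' : ∀ g, F g = 0 → g = (g 0) • Pi.single (0 : Fin n → Fin 2) (1 : k[X]) := by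
    intro g hg
    funext ε
    rw [Pi.smul_apply]
    by_cases hε : ε = 0
    · subst hε
      rw [Pi.single_eq_same, smul_eq_mul, mul_one]
    · rw [Pi.single_eq_of_ne hε, smul_zero]
      exact hker _ g hg ε hε (Nat.lt_succ_self _)
  -- Artin-Rees
  obtain ⟨c, hc⟩ := Ideal.exists_pow_inf_eq_pow_smul (Ideal.span {(X : k[X])}) (LinearMap.range F)
  refine ⟨c, fun m hm z hz hcom => ?_⟩
  obtain ⟨g, hg⟩ := hz
  simp only [pow_zero, one_smul] at hg
  have hz' : z = fun i => mkP b s Y g i := funext hg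
  have h1 : ∀ j, ∃ g' : (Fin n → Fin 2) → k[X], F g j = fun ε => X ^ m * g' ε := by
    intro j
    have h2 := hcom (b j)
    have h3 : (fun i => z i * Y i (b j) - Y i (b j) * z i) = mkP b s Y (F g j) := by
      funext i
      rw [hF, hg i]
    rw [h3] at h2
    exact inP_div hD h2
  choose g' hg' using h1
  have h2 : F g ∈ (Ideal.span {(X : k[X])}) ^ m • (⊤ : Submodule k[X] (Fin n → (Fin n → Fin 2) → k[X])) := by
    have h3 : F g = (X ^ m : k[X]) • g' := by
      funext j
      rw [hg' j, Pi.smul_apply]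
      rfl
    rw [h3]
    refine Submodule.smul_mem_smul ?_ Submodule.mem_top
    exact Ideal.pow_mem_pow (Ideal.subset_span (Set.mem_singleton _)) m
  have h3 : F g ∈ (Ideal.span {(X : k[X])}) ^ (m - c) • LinearMap.range F := by
    have h4 : F g ∈ (Ideal.span {(X : k[X])}) ^ m •
        (⊤ : Submodule k[X] (Fin n → (Fin n → Fin 2) → k[X])) ⊓ LinearMap.range F :=
      ⟨h2, LinearMap.mem_range_self F g⟩
    rw [hc m hm] at h4
    exact Submodule.smul_mono le_rfl inf_le_right h4
  rw [Ideal.span_singleton_pow, Submodule.ideal_span_singleton_smul,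
    Submodule.mem_smul_pointwise_iff_exists] at h3
  obtain ⟨w, ⟨h, rfl⟩, hw⟩ := h3
  have h4 : F (g - (X ^ (m - c) : k[X]) • h) = 0 := by
    rw [map_sub, map_smul, hw, sub_self]
  have h5 := hker' _ h4
  refine ⟨(g - (X ^ (m - c) : k[X]) • h) 0, fun i => mkP b s Y h i, ⟨h, fun i => by simp⟩,
    fun i => ?_⟩
  have h6 : g = ((g - (X ^ (m - c) : k[X]) • h) 0) • Pi.single (0 : Fin n → Fin 2) (1 : k[X]) +
      (X ^ (m - c) : k[X]) • h := by
    rw [← h5, sub_add_cancel]
  rw [hg i]
  conv_lhs => rw [h6]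
  rw [mkP_add', mkP_e0, mkP_smul', eval_pow, eval_X]

end Pool.Agent.SkN
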