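import Pool.Agent.Lib.SkN.Defs

/-!
# Module Cof: `Good` is an open condition on lines (about 120 lines)

Let `n = finrank k L`, `b = finBasis k L`, `p` universal normal forms for `(χ, ξ)` (`SkF.red b f χ ξ`), `P = (PM p).det : RR k`.
(1) `Good f χ`: `ρ` gives `Y` with `Sys f χ 1 Y`, `Irr Y` (`SkF.sys_of_rep χ one_ne_zero`, see `exists_simple` in Lib/SkF/Conv.lean), `χ = χ + 0 • ξ`, `SkF.gen` and `SkF.nz`: `ev 1 0 P ≠ 0`.
(2) `ev 1 τ P` is a polynomial in `τ`: `ev 1 τ P = (P.eval 1 : k[X]).eval τ` up to commuting evaluations (`P : (k[X])[X]`, `ev a τ P = (P.map (evalRingHom τ)).eval a`, so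
`ev 1 τ P = (P.eval 1).eval τ`: `Polynomial.eval_map`, `eval₂_hom`/`Polynomial.hom_eval₂`).  It is not zero at `τ = 0`, so it vanishes only for finitely many `τ`
(`Polynomial.finite_setOfPred_isRoot` or `Polynomial.rootSet_finite`).
(3) Let `ev 1 τ P ≠ 0`.  Take a representation `ρ` of `u(L, χ + τ ξ)` which is irreducible: the algebra `UU f (χ + τ ξ)` is nontrivial and finite dimensional (`SkS.fin_UU`), generated by `uι`;
copy the private lemma `exists_simple_mod` of Lib/SkS/Bridge.lean.  `sys_of_rep` gives `Y : L → End V`, `Sys f (χ + τ ξ) 1 Y`, `Irr Y` on the same `V` (from `Rep` for `V`).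
CLAIM: the `e_α = wp b Y (wd α)` are linearly independent in `End k V`.  Let `∑ x_α e_α = 0`, fix `α0`.  The matrix `M = ev 1 τ (PM p _ _)` has determinant `≠ 0`
(`RingHom.map_det`), so there is a row vector `c` with `c M = ` the unit vector `(α,β) ↦ δ_{α,α0} δ_{β,0}` (`0` = the empty subset, `wd 0 = []`, `e_0 = 1`).  Then by `SkF.PM_spec`
`0 = ∑_{(ε,ε')} c_{(ε,ε')} e_ε (∑_α x_α e_α) e_ε' = ∑_{α,β} x_α (c M)_{(α,β)} e_β = x_{α0} • 1`, so `x_{α0} = 0` (`V` nontrivial).
So `2^n = card ≤ finrank (End k V) = (finrank V)^2` and `Good f (χ + τ ξ)`.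
-/

set_option autoImplicit false
set_option linter.unusedSectionVars false

namespace Pool.Agent.SkN

open Module

open Pool.Agent.SkS (Rst Frz Nondeg Rep Irr UU)

open Pool.Agent.SkF (Sys wp wd NF PM ev RR)

variable {k L : Type} [Field k] [CharP k 2] [LieRing L] [LieAlgebra k L] [FiniteDimensional k L]

omit [CharP k 2] [FiniteDimensional k L] in
/-- a simple module over a finite dimensional algebra generated by the image of a `Rep` gives an
irreducible representation -/
private lemma cof_simple_mod {U : Type} [Ring U] [Algebra k U] [FiniteDimensional k U]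
    [Nontrivial U] {f : L → L} {χ : Dual k L} (θ : L →ₗ[k] U) (hθ : Rep f χ θ)
    (htop : Algebra.adjoin k (Set.range θ) = ⊤) :
    ∃ (V : Type) (_ : AddCommGroup V) (_ : Module k V) (_ : FiniteDimensional k V)
      (Φ : U →ₐ[k] End k V), Rep f χ (Φ.toLinearMap ∘ₗ θ) ∧ Irr (Φ.toLinearMap ∘ₗ θ) := by
  obtain ⟨I, hI⟩ := Ideal.exists_maximal U
  have hfin : FiniteDimensional k (U ⧸ (I : Submodule U U)) :=
    Module.Finite.of_surjective ((Submodule.mkQ (I : Submodule U U)).restrictScalars k)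
      (Submodule.mkQ_surjective _)
  refine ⟨U ⧸ (I : Submodule U U), inferInstance, inferInstance, hfin,
    Algebra.lsmul k k (U ⧸ (I : Submodule U U)), ?_, ?_, ?_⟩
  · constructor
    · intro x y
      rw [LinearMap.comp_apply, LinearMap.comp_apply, LinearMap.comp_apply, hθ.lie]
      simp only [AlgHom.toLinearMap_apply]
      rw [map_sub, map_mul, map_mul]
    · intro x
      rw [LinearMap.comp_apply, LinearMap.comp_apply]
      simp only [AlgHom.toLinearMap_apply]
      rw [← map_mul, hθ.sq, map_add, AlgHom.commutes]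
  · exact Submodule.Quotient.nontrivial_iff.2 hI.ne_top
  · intro W hW
    have hall : ∀ u : U, ∀ w ∈ W, u • w ∈ W := by
      intro u
      have hu : u ∈ Algebra.adjoin k (Set.range θ) := by rw [htop]; trivial
      induction hu using Algebra.adjoin_induction with
      | mem x hx =>
        obtain ⟨y, rfl⟩ := hx
        exact fun w hw => hW y w hw
      | algebraMap r =>
        intro w hw
        rw [algebraMap_smul]
        exact W.smul_mem r hw
      | add x y _ _ hx hy =>
        intro w hw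
        rw [add_smul]
        exact W.add_mem (hx w hw) (hy w hw)
      | mul x y _ _ hx hy =>
        intro w hw
        rw [mul_smul]
        exact hx _ (hy w hw)
    let W' : Submodule U (U ⧸ (I : Submodule U U)) :=
      { carrier := W
        add_mem' := fun ha hb => W.add_mem ha hb
        zero_mem' := W.zero_mem
        smul_mem' := fun u w hw => hall u w hw }
    have hsim : IsSimpleModule U (U ⧸ (I : Submodule U U)) :=
      isSimpleModule_iff_isCoatom.2 (Ideal.isMaximal_def.1 hI)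
    rcases eq_bot_or_eq_top W' with h | h
    · left
      rw [Submodule.eq_bot_iff]
      intro w hw
      have hw' : w ∈ W' := hw
      rw [h] at hw'
      exact (Submodule.mem_bot U).1 hw'
    · right
      rw [Submodule.eq_top_iff']
      intro w
      have hw' : w ∈ W' := by rw [h]; trivial
      exact hw'


private lemma cof_wd_zero {n : ℕ} : wd (0 : Fin n → Fin 2) = [] := by
  unfold Pool.Agent.SkF.wd
  rw [List.filter_eq_nil_iff]
  intro i _
  simp

private lemma cof_ev (τ : k) (P : RR k) : ev 1 τ P = (P.eval 1).eval τ := by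
  unfold Pool.Agent.SkF.ev
  rw [RingHom.comp_apply, Polynomial.coe_evalRingHom, Polynomial.coe_mapRingHom, Polynomial.eval_map]
  have h1 : (1 : k) = Polynomial.evalRingHom τ (1 : Polynomial k) := (map_one _).symm
  rw [h1, Polynomial.eval₂_at_apply]
  rfl

/-- the ordered monomials are linearly independent where the determinant does not vanish -/
private lemma cof_li {n : ℕ} {b : Basis (Fin n) k L} {f : L → L} {χ₀ χ₁ : Dual k L}
    {p : List (Fin n) → (Fin n → Fin 2) → RR k} (hp : ∀ w, NF b f χ₀ χ₁ w (p w))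
    {A : Type} [Ring A] [Algebra k A] [Nontrivial A] {τ : k}
    {Y : L →ₗ[k] A} (hY : Sys f (χ₀ + τ • χ₁) 1 Y) (hdet : ev 1 τ (PM p).det ≠ 0) :
    LinearIndependent k (fun ε : Fin n → Fin 2 => wp b Y (wd ε)) := by
  classical
  rw [Fintype.linearIndependent_iff]
  intro x hx α0
  rw [RingHom.map_det] at hdet
  obtain ⟨M, hM⟩ : ∃ M : Matrix ((Fin n → Fin 2) × (Fin n → Fin 2))
      ((Fin n → Fin 2) × (Fin n → Fin 2)) k, M = (ev 1 τ).mapMatrix (PM p) := ⟨_, rfl⟩
  rw [← hM] at hdet
  obtain ⟨c, hc⟩ : ∃ c : (Fin n → Fin 2) × (Fin n → Fin 2) → k,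
      Matrix.vecMul c M = Pi.single (α0, 0) 1 := by
    refine ⟨Matrix.vecMul (Pi.single (α0, 0) 1) M⁻¹, ?_⟩
    rw [Matrix.vecMul_vecMul, Matrix.nonsing_inv_mul M (isUnit_iff_ne_zero.2 hdet), Matrix.vecMul_one]
  have h1 : ∀ r : (Fin n → Fin 2) × (Fin n → Fin 2),
      ∑ α, x α • (wp b Y (wd r.1) * wp b Y (wd α) * wp b Y (wd r.2)) = 0 := by
    intro r
    have h2 : wp b Y (wd r.1) * (∑ α, x α • wp b Y (wd α)) * wp b Y (wd r.2) = 0 := by
      rw [hx, mul_zero, zero_mul]
    rw [Finset.mul_sum, Finset.sum_mul] at h2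
    rw [← h2]
    exact Finset.sum_congr rfl fun α _ => by rw [mul_smul_comm, smul_mul_assoc]
  have h3 : ∑ r : (Fin n → Fin 2) × (Fin n → Fin 2), c r •
      ∑ α, x α • (wp b Y (wd r.1) * wp b Y (wd α) * wp b Y (wd r.2)) = 0 :=
    Finset.sum_eq_zero fun r _ => by rw [h1 r, smul_zero]
  have h4 : ∀ r : (Fin n → Fin 2) × (Fin n → Fin 2), c r •
      ∑ α, x α • (wp b Y (wd r.1) * wp b Y (wd α) * wp b Y (wd r.2)) =
      ∑ q : (Fin n → Fin 2) × (Fin n → Fin 2), (x q.1 * (c r * M r q)) • wp b Y (wd q.2) := by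
    intro r
    rw [Finset.smul_sum, Fintype.sum_prod_type]
    refine Finset.sum_congr rfl fun α _ => ?_
    rw [Pool.Agent.SkF.PM_spec hp hY r.1 r.2 α, Finset.smul_sum, Finset.smul_sum]
    refine Finset.sum_congr rfl fun β _ => ?_
    rw [smul_smul, smul_smul, hM]
    congr 1
    simp only [RingHom.mapMatrix_apply, Matrix.map_apply]
    ring
  rw [Finset.sum_congr rfl fun r _ => h4 r, Finset.sum_comm] at h3
  have h5 : ∀ q : (Fin n → Fin 2) × (Fin n → Fin 2),
      ∑ r, (x q.1 * (c r * M r q)) • wp b Y (wd q.2) =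
        (x q.1 * (Pi.single (α0, (0 : Fin n → Fin 2)) (1 : k) :
          (Fin n → Fin 2) × (Fin n → Fin 2) → k) q) • wp b Y (wd q.2) := by
    intro q
    rw [← Finset.sum_smul, ← Finset.mul_sum, ← hc]
    rfl
  rw [Finset.sum_congr rfl fun q _ => h5 q,
    Finset.sum_eq_single (α0, (0 : Fin n → Fin 2))] at h3
  · rw [Pi.single_eq_same, mul_one, cof_wd_zero, Pool.Agent.SkF.wp_nil] at h3
    rcases smul_eq_zero.1 h3 with h | h
    · exact h
    · exact absurd h one_ne_zero
  · intro q _ hq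
    rw [Pi.single_eq_of_ne hq, mul_zero, zero_smul]
  · intro h
    exact absurd (Finset.mem_univ _) h

theorem good_cof [IsAlgClosed k] {f : L → L} (hf : Frz k f) {χ : Dual k L} (hG : Good f χ)
    (ξ : Dual k L) : {c : k | ¬ Good f (χ + c • ξ)}.Finite := by
  let b := Module.finBasis k L
  obtain ⟨p, hp⟩ := Pool.Agent.SkF.red b f χ ξ
  have hP : ev 1 0 (PM p).det ≠ 0 := by
    obtain ⟨V, i1, i2, i3, ρ, hρ, hI, hd⟩ := hG
    have hρ' : Rep f (((1 : k)⁻¹) ^ 2 • χ) ρ := by
      rw [inv_one, one_pow, one_smul]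
      exact hρ
    obtain ⟨Y, hY, hYI⟩ := Pool.Agent.SkF.sys_of_rep χ one_ne_zero hρ' hI
    have hY' : Sys f (χ + (0 : k) • ξ) 1 Y := by
      rw [zero_smul, add_zero]
      exact hY
    obtain ⟨h2, h3⟩ := Pool.Agent.SkF.gen hp hY' hYI hd
    exact Pool.Agent.SkF.nz hp hY' h2 h3
  have hQ : ((PM p).det).eval 1 ≠ 0 := by
    intro h
    apply hP
    rw [cof_ev, h, Polynomial.eval_zero]
  refine (Polynomial.finite_setOfPred_isRoot hQ).subset ?_
  intro τ hτ
  by_contra hne
  apply hτ
  have hdet : ev 1 τ (PM p).det ≠ 0 := by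
    rw [cof_ev]
    exact hne
  obtain ⟨h1, h2⟩ := Pool.Agent.SkS.fin_UU hf (χ + τ • ξ)
  have hn : Nontrivial (UU f (χ + τ • ξ)) := by
    apply Module.nontrivial_of_finrank_pos (R := k)
    rw [h2]
    positivity
  obtain ⟨V, i1, i2, i3, Φ, hR, hI⟩ :=
    cof_simple_mod (Pool.Agent.SkS.uι f (χ + τ • ξ)) (Pool.Agent.SkS.rep_uι f (χ + τ • ξ))
      (Pool.Agent.SkS.adjoin_uι f (χ + τ • ξ))
  refine ⟨V, i1, i2, i3, _, hR, hI, ?_⟩
  have hV : Nontrivial V := hI.1
  have hR' : Rep f (((1 : k)⁻¹) ^ 2 • (χ + τ • ξ))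
      (Φ.toLinearMap ∘ₗ Pool.Agent.SkS.uι f (χ + τ • ξ)) := by
    rw [inv_one, one_pow, one_smul]
    exact hR
  obtain ⟨Y, hY, hYI⟩ := Pool.Agent.SkF.sys_of_rep (χ + τ • ξ) one_ne_zero hR' hI
  have h3 := (cof_li hp hY hdet).fintype_card_le_finrank
  rw [Fintype.card_fun, Fintype.card_fin, Fintype.card_fin, Module.finrank_linearMap] at h3
  rw [sq]
  exact h3

end Pool.Agent.SkN
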