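import Pool.Agent.Lib.SkN.Defs

/-!
# Module Frz: `Rst` implies `Frz` (about 60 lines)

In `U = UniversalEnvelopingAlgebra k L`, characteristic two, `ι⁅x,y⁆ = ι x * ι y - ι y * ι x` (`LieHom.map_lie`, `LieRing.of_associative_ring_bracket`).
`add`: `(ι x + ι y)^2 = ι x^2 + ι y^2 + (ι x ι y + ι y ι x)`, `ι (f (x+y)) = ι (f x) + ι (f y) + ι ⁅x,y⁆`, and `ι x ι y + ι y ι x = ι x ι y - ι y ι x` (`a + a = 0`).
`smul`: `hf.smul`.  `comm`: `ι x^2 ι y - ι y ι x^2 = ι x (ι x ι y - ι y ι x) + (ι x ι y - ι y ι x) ι x = ι x c + c ι x = ι x c - c ι x = ι⁅x,⁅x,y⁆⁆ = ι⁅f x, y⁆`, `c = ι⁅x,y⁆`,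
and `ι (f x) ι y - ι y ι (f x) = ι ⁅f x, y⁆`.
-/

set_option autoImplicit false
set_option linter.unusedSectionVars false

namespace Pool.Agent.SkN

open Module

open Pool.Agent.SkS (Rst Frz Nondeg Rep Irr UU)

variable {k L : Type} [Field k] [CharP k 2] [LieRing L] [LieAlgebra k L]

attribute [local instance 100] LieRing.ofAssociativeRing in
private theorem frz_lie (x y : L) : UniversalEnvelopingAlgebra.ι k ⁅x, y⁆ =
    UniversalEnvelopingAlgebra.ι k x * UniversalEnvelopingAlgebra.ι k y -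
      UniversalEnvelopingAlgebra.ι k y * UniversalEnvelopingAlgebra.ι k x := by
  rw [LieHom.map_lie, LieRing.of_associative_ring_bracket]

theorem frz_of_rst {f : L → L} (hf : Rst k f) : Frz k f := by
  have h2 : ∀ a : UniversalEnvelopingAlgebra k L, a + a = 0 := by
    intro a
    have h : (2 : k) = 0 := by
      have := CharP.cast_eq_zero k 2
      exact_mod_cast this
    rw [← two_smul k a, h, zero_smul]
  have hl : ∀ x y : L, UniversalEnvelopingAlgebra.ι k ⁅x, y⁆ =
      UniversalEnvelopingAlgebra.ι k x * UniversalEnvelopingAlgebra.ι k y -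
        UniversalEnvelopingAlgebra.ι k y * UniversalEnvelopingAlgebra.ι k x := frz_lie
  refine ⟨?_, ?_, ?_⟩
  · intro x y
    rw [hf.add, map_add, map_add, map_add, hl]
    generalize UniversalEnvelopingAlgebra.ι k x = X
    generalize UniversalEnvelopingAlgebra.ι k y = Y
    generalize UniversalEnvelopingAlgebra.ι k (f x) = P
    generalize UniversalEnvelopingAlgebra.ι k (f y) = Q
    have h3 : (X + Y) ^ 2 - (P + Q + (X * Y - Y * X)) =
        (X ^ 2 - P + (Y ^ 2 - Q)) + (Y * X + Y * X) := by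
      noncomm_ring
    rw [h3, h2, add_zero]
  · intro a x
    rw [hf.smul, map_smul, map_smul, smul_pow, ← smul_sub]
  · intro x y
    have h3 := hl (f x) y
    rw [hf.lie, hl, hl] at h3
    revert h3
    generalize UniversalEnvelopingAlgebra.ι k x = X
    generalize UniversalEnvelopingAlgebra.ι k y = Y
    generalize UniversalEnvelopingAlgebra.ι k (f x) = P
    intro h3
    show (X ^ 2 - P) * Y = Y * (X ^ 2 - P)
    have h4 : (X ^ 2 - P) * Y = Y * (X ^ 2 - P) + ((X * (X * Y - Y * X) -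
        (X * Y - Y * X) * X) - (P * Y - Y * P)) + (X * Y * X + X * Y * X) -
        (Y * X * X + Y * X * X) := by
      noncomm_ring
    rw [h4, h3, h2, h2, sub_self, add_zero, add_zero, sub_zero]

end Pool.Agent.SkN
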