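import Pool.Agent.Lib.SkN.Inv

/-!
# Module GQ: the quotient `C / E` inherits a good representation (about 120 lines)

`C` Lie subalgebra stable under `f`, `E ≤ C`, `⁅C,E⁆ ⊆ E`, `f E ⊆ E`, `χ(E) = 0`, `π : C → L'` surjective with kernel `E` (as produced by `quot`),
and `2 * finrank C ≥ finrank L + finrank E`, `finrank L' = finrank C - finrank E`, written `finrank L + finrank E = 2 * finrank C - …`: here the hypothesis is
`hdim : finrank L + finrank E ≤ … `: see the statement (`dim C = n - m`, `dim E = m`, `dim L' = n - 2m`).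

PROOF.  `E` is a Lie subalgebra (`⁅E,E⁆ ⊆ ⁅C,E⁆ ⊆ E`); by `exists_inv` the subspace `W = {v | ρ(E) v = 0}` is not `⊥`.  `C` preserves `W`: `ρ e (ρ c v) = ρ c (ρ e v) + ρ ⁅e,c⁆ v = 0`
(`hρ.lie`).  `SkS.exists_irr ρ C W` (Lib/SkS/Burn.lean) gives `W' ≤ W`, `W' ≠ ⊥`, `Irr (rs ρ C W' h')`.  The map `rs ρ C W' h' : C → End W'` kills `ker π`, so there is
`ρ' : L' →ₗ End W'` with `ρ' (π c) = rs ρ C W' h' c` (as in Lib/SkS/RedRep.lean, e.g. via `LinearMap.quotKerEquivOfSurjective` or `(π.toLinearMap).exists_rightInverse_of_surjective`).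
`Rep f' χ' ρ'`: from `rep_rs` (Lib/SkS/BC.lean) and the surjectivity of `π`.  `Irr ρ'`: a subspace stable under `ρ'` is stable under `rs ρ C W' h'`.
Dimension: `SkS.gen_irr ρ hρ hI C.toSubmodule W' …` (Lib/SkS/BC.lean): `finrank V ≤ 2^(n - dim C) * finrank W' = 2^m * finrank W'`.  So `2^n ≤ (dim V)^2 ≤ 2^(2m) (dim W')^2` and
`2^(n - 2m) ≤ (dim W')^2`, `finrank L' = n - 2m`.
-/

set_option autoImplicit false
set_option linter.unusedSectionVars false

namespace Pool.Agent.SkN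

open Module

open Pool.Agent.SkS (Rst Frz Nondeg Rep Irr UU rs fs)

variable {k L : Type} [Field k] [CharP k 2] [LieRing L] [LieAlgebra k L] [FiniteDimensional k L]

theorem good_quot [IsAlgClosed k] {f : L → L} (hf : Rst k f) {χ : Dual k L} (hG : Good f χ)
    (C : LieSubalgebra k L) (hC : ∀ c ∈ C, f c ∈ C) (E : Submodule k L) (hEC : ∀ e ∈ E, e ∈ C)
    (hE : ∀ c ∈ C, ∀ e ∈ E, ⁅c, e⁆ ∈ E) (hfE : ∀ e ∈ E, f e ∈ E) (hχ : ∀ e ∈ E, χ e = 0)
    (hdim : finrank k C + finrank k E = finrank k L)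
    {L' : Type} [LieRing L'] [LieAlgebra k L'] {f' : L' → L'} {χ' : Dual k L'}
    (π : C →ₗ⁅k⁆ L') (hs : Function.Surjective π) (hk : ∀ c : C, π c = 0 ↔ (c : L) ∈ E)
    (hf' : ∀ c : C, f' (π c) = π ⟨f c, hC c c.2⟩) (hχ' : ∀ c : C, χ' (π c) = χ c)
    (hdim' : finrank k L' + finrank k E = finrank k C) : Good f' χ' := by
  obtain ⟨V, i1, i2, i3, ρ, hρ, hI, hd⟩ := hG
  let EE : LieSubalgebra k L := { E with lie_mem' := fun {x y} hx hy => hE x (hEC x hx) y hy }
  obtain ⟨v, hv0, hv⟩ := exists_inv hf hρ hI hd EE (fun e he => hfE e he) (fun e he => hχ e he)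
  let W0 : Submodule k V :=
    { carrier := {w | ∀ e ∈ E, ρ e w = 0}
      add_mem' := fun {a b} ha hb m hm => by rw [map_add, ha m hm, hb m hm, add_zero]
      zero_mem' := fun m _ => map_zero _
      smul_mem' := fun c a ha m hm => by rw [map_smul, ha m hm, smul_zero] }
  have hW0 : W0 ≠ ⊥ := by
    intro h
    have h1 : v ∈ W0 := fun e he => hv e he
    rw [h, Submodule.mem_bot] at h1
    exact hv0 h1
  have hst : ∀ x ∈ C, ∀ w ∈ W0, ρ x w ∈ W0 := by
    intro x hx w hw m hm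
    have h := LinearMap.congr_fun (hρ.lie x m) w
    rw [LinearMap.sub_apply, Module.End.mul_apply, Module.End.mul_apply, hw m hm, map_zero,
      hw _ (hE x hx m hm), zero_sub, eq_comm, neg_eq_zero] at h
    exact h
  obtain ⟨W, h', hle, hWne, hirr⟩ := Pool.Agent.SkS.exists_irr ρ C W0 hW0 hst
  have hker : LinearMap.ker (π : C →ₗ[k] L') ≤ LinearMap.ker (rs ρ C W h') := by
    intro x hx
    rw [LinearMap.mem_ker] at hx ⊢
    have hxK : (x : L) ∈ E := (hk x).mp hx
    ext w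
    rw [Pool.Agent.SkS.rs_apply]
    exact hle w.2 _ hxK
  let e := LinearMap.quotKerEquivOfSurjective (π : C →ₗ[k] L') hs
  let ρ' : L' →ₗ[k] End k W :=
    ((LinearMap.ker (π : C →ₗ[k] L')).liftQ (rs ρ C W h') hker).comp e.symm.toLinearMap
  have hρ' : ∀ x : C, ρ' (π x) = rs ρ C W h' x := by
    intro x
    have h1 : e (Submodule.Quotient.mk x) = π x := rfl
    have h2 : e.symm (π x) = Submodule.Quotient.mk x := by
      rw [← h1, LinearEquiv.symm_apply_apply]
    show ((LinearMap.ker (π : C →ₗ[k] L')).liftQ (rs ρ C W h') hker) (e.symm (π x)) = _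
    rw [h2, Submodule.liftQ_apply]
  refine ⟨W, inferInstance, inferInstance, inferInstance, ρ', ⟨?_, ?_⟩, ⟨hirr.1, ?_⟩, ?_⟩
  · intro p q
    obtain ⟨x, rfl⟩ := hs p
    obtain ⟨y, rfl⟩ := hs q
    rw [← LieHom.map_lie, hρ', hρ', hρ']
    ext w
    rw [Pool.Agent.SkS.rs_apply]
    have h := LinearMap.congr_fun (hρ.lie (x : L) (y : L)) (w : V)
    exact h
  · intro p
    obtain ⟨x, rfl⟩ := hs p
    rw [hf', hρ', hρ', hχ']
    ext w
    have h := LinearMap.congr_fun (hρ.sq (x : L)) (w : V)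
    exact h
  · intro U hU
    refine hirr.2 U ?_
    intro x w hw
    have h := hU (π x) w hw
    rw [hρ'] at h
    exact h
  · have h1 := Pool.Agent.SkS.gen_irr ρ hρ hI C.toSubmodule W hWne h'
    have h2 : finrank k L - finrank k C.toSubmodule = finrank k E := by
      have h3 : finrank k C.toSubmodule = finrank k C := rfl
      rw [h3]
      omega
    rw [h2] at h1
    have h4 : finrank k L = finrank k L' + 2 * finrank k E := by omega
    have h5 : 2 ^ finrank k L ≤ (2 ^ finrank k E * finrank k W) ^ 2 :=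
      hd.trans (Nat.pow_le_pow_left h1 2)
    have h6 : 2 ^ finrank k L' * 2 ^ (2 * finrank k E) ≤ finrank k W ^ 2 * 2 ^ (2 * finrank k E) := by
      calc 2 ^ finrank k L' * 2 ^ (2 * finrank k E) = 2 ^ finrank k L := by rw [h4, pow_add]
        _ ≤ (2 ^ finrank k E * finrank k W) ^ 2 := h5
        _ = finrank k W ^ 2 * 2 ^ (2 * finrank k E) := by
          rw [mul_pow, ← pow_mul, mul_comm (finrank k E) 2, mul_comm]
    exact Nat.le_of_mul_le_mul_right h6 (by positivity)

end Pool.Agent.SkN
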