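import Pool.Agent.Lib.SkN.Quot
import Pool.Agent.Lib.SkN.GQ
import Pool.Agent.Lib.SkN.Frz
import Pool.Agent.Lib.SkS.G12

/-!
# Module Contra: the contradiction by reduction to `C / E` (about 180 lines)

`x ≠ 0`, `x ∈ rad χ`, `f x = 0`, `C = {c : ⁅x,c⁆ = 0}`, `E = range (ad x) = {⁅x,y⁆}`, `m = dim E`, `dim C = n - m` (rank-nullity for `ad x`).
`C` is a Lie subalgebra (Jacobi), `f c ∈ C`: `⁅x, f c⁆ = -⁅f c, x⁆ = -⁅c,⁅c,x⁆⁆ = 0`.  `E ⊆ C`: `⁅x,⁅x,y⁆⁆ = ⁅f x,y⁆ = 0`.  `⁅c,⁅x,y⁆⁆ = ⁅x,⁅c,y⁆⁆` for `c ∈ C`.  `f E ⊆ E`: `hB`.  `χ(E) = 0`: `x ∈ rad χ`.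
`quot` gives `L', f', χ', π` with `finrank L' + m = n - m`.  `good_quot`: `Good f' χ'`.
`m ≥ 1`: otherwise `⁅x, L⁆ = 0` and for the representation `ρ` of `hG` `ρ x` commutes with all `ρ y`, a scalar (`SkS.schur`), and `SkS.bc_scalar ρ hρ hI (k x)` gives `(dim V)^2 ≤ 2^(n-1)`,
contradiction with `2^n ≤ (dim V)^2`.  So `finrank L' < n`, and `IH`: `Nondeg χ'`.
`P = {u : ∀ c ∈ C, χ⁅u,c⁆ = 0}` (subspace).  `P ⊆ C` by `hA`.  `P ⊆ E`: for `u ∈ P`, `π u` satisfies `χ'⁅π u, π c⁆ = χ⁅u,c⁆ = 0` for all `c ∈ C`, so `π u = 0`, `u ∈ E`.  So `dim P ≤ m`.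
But the map `L → Dual k C`, `u ↦ χ⁅u,·⁆` has kernel `P` and its range is in `{φ : φ(x) = 0}` (`x ∈ C`, `χ⁅u,x⁆ = 0`), of dimension `dim C - 1` (`x ≠ 0`), so `n - dim P ≤ n - m - 1`, `dim P ≥ m + 1`. Contradiction.
-/

set_option autoImplicit false
set_option linter.unusedSectionVars false

namespace Pool.Agent.SkN

open Module

open Pool.Agent.SkS (Rst Frz Nondeg Rep Irr UU)

variable {k L : Type} [Field k] [CharP k 2] [IsAlgClosed k] [LieRing L] [LieAlgebra k L]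
  [FiniteDimensional k L]

/-- the centralizer of `x` -/
private def CC (x : L) : LieSubalgebra k L where
  carrier := {c | ⁅x, c⁆ = 0}
  add_mem' := by
    intro a b ha hb
    show ⁅x, a + b⁆ = 0
    rw [lie_add, show ⁅x, a⁆ = 0 from ha, show ⁅x, b⁆ = 0 from hb, add_zero]
  zero_mem' := by
    show ⁅x, (0 : L)⁆ = 0
    exact lie_zero x
  smul_mem' := by
    intro c a ha
    show ⁅x, c • a⁆ = 0
    rw [lie_smul, show ⁅x, a⁆ = 0 from ha, smul_zero]
  lie_mem' := by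
    intro a b ha hb
    show ⁅x, ⁅a, b⁆⁆ = 0
    rw [leibniz_lie, show ⁅x, a⁆ = 0 from ha, show ⁅x, b⁆ = 0 from hb, zero_lie, lie_zero, add_zero]

omit [CharP k 2] [IsAlgClosed k] [FiniteDimensional k L] in
private lemma mem_CC {x c : L} : c ∈ CC (k := k) x ↔ ⁅x, c⁆ = 0 := Iff.rfl

/-- the range of `ad x` -/
private def EE (x : L) : Submodule k L := LinearMap.range (LieAlgebra.ad k L x : L →ₗ[k] L)

omit [CharP k 2] [IsAlgClosed k] [FiniteDimensional k L] in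
private lemma mem_EE {x e : L} : e ∈ EE (k := k) x ↔ ∃ y : L, ⁅x, y⁆ = e := by
  unfold EE
  rw [LinearMap.mem_range]
  rfl

omit [CharP k 2] [IsAlgClosed k] in
private lemma dim_CE (x : L) :
    finrank k (CC (k := k) x) + finrank k (EE (k := k) x) = finrank k L := by
  have h := LinearMap.finrank_range_add_finrank_ker (LieAlgebra.ad k L x : L →ₗ[k] L)
  have h1 : LinearMap.ker (LieAlgebra.ad k L x : L →ₗ[k] L) = (CC (k := k) x).toSubmodule := by
    ext c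
    rw [LinearMap.mem_ker]
    rfl
  rw [h1] at h
  rw [add_comm]
  exact h

omit [CharP k 2] [IsAlgClosed k] in
/-- a nonzero element of `C` and `P ⊆ E` contradict the dimensions -/
private lemma dim_contra (χ : Dual k L) (C : LieSubalgebra k L) (E : Submodule k L) (x : L)
    (hx : x ∈ C) (hx0 : x ≠ 0) (hxr : ∀ y : L, χ ⁅y, x⁆ = 0)
    (hP : ∀ u : L, (∀ c ∈ C, χ ⁅u, c⁆ = 0) → u ∈ E)
    (hd : finrank k C + finrank k E = finrank k L) : False := by
  let Φ : L →ₗ[k] Dual k C := LinearMap.mk₂ k (fun u (c : C) => χ ⁅u, (c : L)⁆)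
    (by intro a b c; rw [add_lie, map_add])
    (by intro r a c; rw [smul_lie, map_smul])
    (by intro a b c; show χ ⁅a, (b : L) + (c : L)⁆ = _; rw [lie_add, map_add])
    (by intro r a c; show χ ⁅a, r • (c : L)⁆ = _; rw [lie_smul, map_smul])
  have hΦ : ∀ u (c : C), Φ u c = χ ⁅u, (c : L)⁆ := fun u c => rfl
  have hker : LinearMap.ker Φ ≤ E := by
    intro u hu
    rw [LinearMap.mem_ker] at hu
    apply hP u
    intro c hc
    have := hΦ u ⟨c, hc⟩
    rw [hu] at this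
    exact this.symm
  let x' : C := ⟨x, hx⟩
  have hx'0 : x' ≠ 0 := by
    intro h
    apply hx0
    exact congrArg (fun c : C => (c : L)) h
  let ev : Dual k C →ₗ[k] k := Dual.eval k C x'
  have hran : LinearMap.range Φ ≤ LinearMap.ker ev := by
    rintro _ ⟨u, rfl⟩
    rw [LinearMap.mem_ker]
    show Φ u x' = 0
    rw [hΦ]
    exact hxr u
  have h1 := LinearMap.finrank_range_add_finrank_ker Φ
  have h2 := LinearMap.finrank_range_add_finrank_ker ev
  have h3 : 0 < finrank k (LinearMap.range ev) := by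
    rw [Module.finrank_pos_iff, Submodule.nontrivial_iff_ne_bot, Ne, LinearMap.range_eq_bot]
    intro h0
    obtain ⟨φ, hφ⟩ : ∃ φ : Dual k C, φ x' ≠ 0 := by
      by_contra hcon
      push Not at hcon
      exact hx'0 ((Module.forall_dual_apply_eq_zero_iff k x').1 hcon)
    exact hφ (congrArg (fun g : Dual k C →ₗ[k] k => g φ) h0)
  have h4 : finrank k (Dual k C) = finrank k C := Subspace.dual_finrank_eq
  have h5 := Submodule.finrank_mono hker
  have h6 := Submodule.finrank_mono hran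
  omega

theorem contra {f : L → L} (hf : Rst k f) {χ : Dual k L} (hG : Good f χ) (x : L) (hx0 : x ≠ 0)
    (hxr : x ∈ rad χ) (hfx : f x = 0)
    (hA : ∀ u : L, (∀ c : L, ⁅x, c⁆ = 0 → χ ⁅u, c⁆ = 0) → ⁅x, u⁆ = 0)
    (hB : ∀ y : L, ∃ z : L, f ⁅x, y⁆ = ⁅x, z⁆)
    (IH : ∀ (L' : Type) [LieRing L'] [LieAlgebra k L'] [FiniteDimensional k L'] (f' : L' → L')
      (χ' : Dual k L'), finrank k L' < finrank k L → Rst k f' → Good f' χ' → Nondeg χ') : False := by
  have hC : ∀ c ∈ CC (k := k) x, f c ∈ CC (k := k) x := by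
    intro c hc
    rw [mem_CC] at hc ⊢
    have h1 : ⁅c, x⁆ = 0 := by rw [← lie_skew, hc, neg_zero]
    rw [← lie_skew, hf.lie, h1, lie_zero, neg_zero]
  have hEC : ∀ e ∈ EE (k := k) x, e ∈ CC (k := k) x := by
    intro e he
    obtain ⟨y, rfl⟩ := mem_EE.1 he
    rw [mem_CC, ← hf.lie, hfx, zero_lie]
  have hE : ∀ c ∈ CC (k := k) x, ∀ e ∈ EE (k := k) x, ⁅c, e⁆ ∈ EE (k := k) x := by
    intro c hc e he
    obtain ⟨y, rfl⟩ := mem_EE.1 he
    rw [mem_CC] at hc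
    have h1 : ⁅c, x⁆ = 0 := by rw [← lie_skew, hc, neg_zero]
    rw [leibniz_lie, h1, zero_lie, zero_add]
    exact mem_EE.2 ⟨_, rfl⟩
  have hfE : ∀ e ∈ EE (k := k) x, f e ∈ EE (k := k) x := by
    intro e he
    obtain ⟨y, rfl⟩ := mem_EE.1 he
    obtain ⟨z, hz⟩ := hB y
    exact mem_EE.2 ⟨z, hz.symm⟩
  have hχ : ∀ e ∈ EE (k := k) x, χ e = 0 := by
    intro e he
    obtain ⟨y, rfl⟩ := mem_EE.1 he
    exact mem_rad.1 hxr y
  have hdim := dim_CE (k := k) x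
  obtain ⟨L', i1, i2, f', χ', π, i3, hR', hs, hk, hf', hχ', hdim'⟩ :=
    quot hf χ (CC x) hC (EE x) hEC hE hfE hχ
  have hG' : Good f' χ' :=
    good_quot hf hG (CC x) hC (EE x) hEC hE hfE hχ hdim π hs hk hf' hχ' hdim'
  have hE0 : 0 < finrank k (EE (k := k) x) := by
    rw [Module.finrank_pos_iff, Submodule.nontrivial_iff_ne_bot]
    intro h0
    obtain ⟨V, j1, j2, j3, ρ, hρ, hI, hd⟩ := hG
    apply hx0
    refine Pool.Agent.SkS.center_zero ρ hρ hI hd x ?_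
    intro y
    have : ⁅x, y⁆ ∈ EE (k := k) x := mem_EE.2 ⟨y, rfl⟩
    rw [h0, Submodule.mem_bot] at this
    exact this
  have hN : Nondeg χ' := IH L' f' χ' (by omega) hR' hG'
  refine dim_contra χ (CC x) (EE x) x (mem_CC.2 (lie_self x)) hx0 ?_ ?_ hdim
  · intro y
    rw [← lie_skew, map_neg, mem_rad.1 hxr y, neg_zero]
  · intro u hu
    have huC : u ∈ CC (k := k) x := mem_CC.2 (hA u (fun c hc => hu c (mem_CC.2 hc)))
    have h1 : π ⟨u, huC⟩ = 0 := by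
      apply hN
      intro q
      obtain ⟨c, rfl⟩ := hs q
      rw [← LieHom.map_lie, hχ']
      exact hu c c.2
    exact (hk ⟨u, huC⟩).1 h1

end Pool.Agent.SkN
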