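import Pool.Agent.Lib.SkF.Main

/-!
# Definitions: the converse for all restricted Lie algebras in characteristic two

To prove: if `u(L, χ)` is simple (`p = 2`) then `Z_L(χ) = 0`.  For Frobenius `L` this is `SkF.nondeg_of_simple`.  The new part is that `u(L, χ)` is
never simple if `L` is not Frobenius.  Paper: team-store MP_5b6908_al_paper99.md.

`Good f χ`: `u(L, χ)` has an irreducible module of dimension `2^(n/2)` (which means that `u(L,χ)` is simple).
`rad χ`: the stabilizer `Z_L(χ)`.
`PolMap`, `Fam`: polynomial maps `k → L` and their coefficients of order `0, 1, 2`.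
`mkP`, `InP`: families of elements of algebras `A i` (with maps `Y i : L → A i` satisfying `Sys f χ (s i) (Y i)`) whose coordinates with respect to the
ordered monomials `wp b (Y i) (wd ε)` are polynomials in `s i`; `InP j z`: `z` is divisible by `s^j`.
-/

set_option autoImplicit false

namespace Pool.Agent.SkN

open Module Polynomial

open Pool.Agent.SkS (Rst Frz Nondeg Rep Irr UU)

open Pool.Agent.SkF (Sys wp wd)

noncomputable section

variable {k L : Type} [Field k] [LieRing L] [LieAlgebra k L]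

/-- the stabilizer `Z_L(χ)` -/
def rad (χ : Dual k L) : Submodule k L where
  carrier := {x | ∀ y : L, χ ⁅x, y⁆ = 0}
  add_mem' := by
    intro a b ha hb y
    rw [add_lie, map_add, ha y, hb y, add_zero]
  zero_mem' := by
    intro y
    rw [zero_lie, map_zero]
  smul_mem' := by
    intro c a ha y
    rw [smul_lie, map_smul, ha y, smul_zero]

lemma mem_rad {χ : Dual k L} {x : L} : x ∈ rad χ ↔ ∀ y : L, χ ⁅x, y⁆ = 0 := Iff.rfl

/-- there is an irreducible module of dimension at least `2^(n/2)` -/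
def Good (f : L → L) (χ : Dual k L) : Prop :=
  ∃ (V : Type) (_ : AddCommGroup V) (_ : Module k V) (_ : FiniteDimensional k V)
    (ρ : L →ₗ[k] End k V), Rep f χ ρ ∧ Irr ρ ∧ 2 ^ finrank k L ≤ finrank k V ^ 2

/-- polynomial maps `k → L` -/
def PolMap (F : k → L) : Prop :=
  ∃ (N : ℕ) (v : ℕ → L), ∀ c : k, F c = ∑ j ∈ Finset.range N, c ^ j • v j

/-- polynomial maps with coefficients `x0, x1, x2` of order `0, 1, 2` -/
def Fam (F : k → L) (x0 x1 x2 : L) : Prop :=
  ∃ G : k → L, PolMap G ∧ ∀ c : k, F c = x0 + c • x1 + c ^ 2 • x2 + c ^ 3 • G c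

section fam

variable {n : ℕ} (b : Basis (Fin n) k L) {ι : Type} (s : ι → k) {A : ι → Type} [∀ i, Ring (A i)]
  [∀ i, Algebra k (A i)] (Y : ∀ i, L →ₗ[k] A i)

/-- the element with polynomial coordinates `g` -/
def mkP (g : (Fin n → Fin 2) → k[X]) (i : ι) : A i :=
  ∑ ε, (g ε).eval (s i) • wp b (Y i) (wd ε)

/-- the element `z` has polynomial coordinates divisible by `s^j` -/
def InP (j : ℕ) (z : ∀ i, A i) : Prop :=
  ∃ g : (Fin n → Fin 2) → k[X], ∀ i, z i = (s i) ^ j • mkP b s Y g i

/-- the situation: relations, and the ordered monomials are linearly independent -/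
structure FamD (f : L → L) (χ : Dual k L) : Prop where
  ne : ∀ i, s i ≠ 0
  inf : (Set.range s).Infinite
  sys : ∀ i, Sys f χ (s i) (Y i)
  ind : ∀ i, LinearIndependent k (fun ε : Fin n → Fin 2 => wp b (Y i) (wd ε))

end fam

/-- the canonical map to `u(L, a^{-2} χ)`, rescaled: `Y(x) = a x + a^{-1} χ(x)` -/
def YU (f : L → L) (χ : Dual k L) (a : k) : L →ₗ[k] UU f ((a⁻¹) ^ 2 • χ) :=
  a • Pool.Agent.SkS.uι f ((a⁻¹) ^ 2 • χ) +
    (LinearMap.toSpanSingleton k (UU f ((a⁻¹) ^ 2 • χ)) 1) ∘ₗ (a⁻¹ • χ : Dual k L)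

end

end Pool.Agent.SkN
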