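import Pool.Agent.Lib.SkN.Defs

/-!
# Module Symp: symplectic bases in characteristic two (about 100 lines)

Strong induction on `finrank k M`, or (as in Lib/SkS/Sp.lean) for subspaces `P` of `M` on which `ω` is nondegenerate: there are `u, v : Fin m → M` with values in `P` and
`∑_j (ω (u j) y • v j + ω (v j) y • u j) = y` for all `y ∈ P`.  `P = 0`: `m = 0`.  Otherwise choose `e ∈ P`, `e ≠ 0`, `e' ∈ P` with `ω e e' = 1`,
`P' = {a ∈ P : ω a e = 0, ω a e' = 0}`; `y ∈ P` is `y = y' + ω e y • e' + ω e' y • e` with `y' ∈ P'` (characteristic two, `ω e' e = 1`), `ω u y = ω u y'` for `u ∈ P'`.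
Append `e, e'` to the families for `P'` (`Fin.cons`).
-/

set_option autoImplicit false
set_option linter.unusedSectionVars false

namespace Pool.Agent.SkN

open Module

variable {k M : Type} [Field k] [CharP k 2] [AddCommGroup M] [Module k M] [FiniteDimensional k M]

private lemma symp_aux (ω : M →ₗ[k] M →ₗ[k] k) (halt : ∀ a : M, ω a a = 0) :
    ∀ (n : ℕ) (P : Submodule k M), finrank k P = n →
      (∀ a ∈ P, (∀ b ∈ P, ω a b = 0) → a = 0) →
      ∃ (m : ℕ) (u v : Fin m → M), (∀ j, u j ∈ P) ∧ (∀ j, v j ∈ P) ∧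
        ∀ y ∈ P, ∑ j, (ω (u j) y • v j + ω (v j) y • u j) = y := by
  have htwo : ∀ c : k, c + c = 0 := by
    intro c
    have h : ((2 : ℕ) : k) = 0 := CharP.cast_eq_zero k 2
    have h2 : (2 : k) = 0 := by exact_mod_cast h
    rw [← two_mul, h2, zero_mul]
  have hsymm : ∀ a b : M, ω a b = ω b a := by
    intro a b
    have h := halt (a + b)
    simp only [map_add, LinearMap.add_apply, halt, zero_add, add_zero] at h
    have h1 : ω a b = - ω b a := by
      rw [add_comm] at h
      exact eq_neg_of_add_eq_zero_left h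
    rw [h1]
    exact neg_eq_of_add_eq_zero_left (htwo _)
  intro n
  induction n using Nat.strong_induction_on with
  | _ n ih =>
  intro P hn hP
  by_cases hbot : P = ⊥
  · refine ⟨0, Fin.elim0, Fin.elim0, fun j => j.elim0, fun j => j.elim0, ?_⟩
    intro y hy
    rw [hbot, Submodule.mem_bot] at hy
    simp [hy]
  · obtain ⟨e, he, he0⟩ := Submodule.exists_mem_ne_zero_of_ne_bot hbot
    obtain ⟨e', he', hee'⟩ : ∃ e' ∈ P, ω e e' = 1 := by
      obtain ⟨b, hb, hb0⟩ : ∃ b ∈ P, ω e b ≠ 0 := by
        by_contra hcon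
        push Not at hcon
        exact he0 (hP e he hcon)
      refine ⟨(ω e b)⁻¹ • b, P.smul_mem _ hb, ?_⟩
      rw [map_smul, smul_eq_mul, inv_mul_cancel₀ hb0]
    have he'e : ω e' e = 1 := by rw [hsymm, hee']
    let P' : Submodule k M :=
      { carrier := {a | a ∈ P ∧ ω a e = 0 ∧ ω a e' = 0}
        add_mem' := by
          rintro a b ⟨ha, ha1, ha2⟩ ⟨hb, hb1, hb2⟩
          refine ⟨P.add_mem ha hb, ?_, ?_⟩
          · rw [map_add, LinearMap.add_apply, ha1, hb1, add_zero]
          · rw [map_add, LinearMap.add_apply, ha2, hb2, add_zero]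
        zero_mem' := ⟨P.zero_mem, by simp, by simp⟩
        smul_mem' := by
          rintro c a ⟨ha, ha1, ha2⟩
          refine ⟨P.smul_mem c ha, ?_, ?_⟩
          · rw [map_smul, LinearMap.smul_apply, ha1, smul_zero]
          · rw [map_smul, LinearMap.smul_apply, ha2, smul_zero] }
    have hP'mem : ∀ a, a ∈ P' ↔ a ∈ P ∧ ω a e = 0 ∧ ω a e' = 0 := fun a => Iff.rfl
    have hP'P : P' < P := by
      refine lt_of_le_of_ne (fun a ha => ((hP'mem a).mp ha).1) ?_
      intro heq
      have h1 : e ∈ P' := by rw [heq]; exact he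
      have h2 := ((hP'mem e).mp h1).2.2
      rw [hee'] at h2
      exact one_ne_zero h2
    -- decomposition
    have hdec : ∀ a ∈ P, a + (ω e a • e' + ω e' a • e) ∈ P' := by
      intro a ha
      rw [hP'mem]
      refine ⟨P.add_mem ha (P.add_mem (P.smul_mem _ he') (P.smul_mem _ he)), ?_, ?_⟩
      · simp only [map_add, map_smul, LinearMap.add_apply, LinearMap.smul_apply, halt, he'e,
          smul_eq_mul, mul_zero, mul_one, add_zero]
        rw [hsymm a e]
        exact htwo _
      · simp only [map_add, map_smul, LinearMap.add_apply, LinearMap.smul_apply, halt, hee',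
          smul_eq_mul, mul_zero, mul_one, zero_add]
        rw [hsymm a e']
        exact htwo _
    have hlt : finrank k P' < n := by
      rw [← hn]
      exact Submodule.finrank_lt_finrank_of_lt hP'P
    obtain ⟨m, u, v, hu, hv, huv⟩ := ih _ hlt P' rfl (by
      intro a ha hab
      have ha' := (hP'mem a).mp ha
      apply hP a ha'.1
      intro b hb
      have h1 := hab _ (hdec b hb)
      rw [map_add, map_add, map_smul, map_smul, ha'.2.1, ha'.2.2, smul_zero, smul_zero, add_zero,
        add_zero] at h1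
      exact h1)
    refine ⟨m + 1, Fin.cons e u, Fin.cons e' v, ?_, ?_, ?_⟩
    · intro j
      refine Fin.cases ?_ (fun j => ?_) j
      · exact he
      · rw [Fin.cons_succ]; exact ((hP'mem _).mp (hu j)).1
    · intro j
      refine Fin.cases ?_ (fun j => ?_) j
      · exact he'
      · rw [Fin.cons_succ]; exact ((hP'mem _).mp (hv j)).1
    · intro y hy
      rw [Fin.sum_univ_succ]
      simp only [Fin.cons_zero, Fin.cons_succ]
      have hy' := huv _ (hdec y hy)
      have hsum : ∑ j, (ω (u j) y • v j + ω (v j) y • u j) = y + (ω e y • e' + ω e' y • e) := by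
        rw [← hy']
        refine Finset.sum_congr rfl fun j _ => ?_
        have hu' := (hP'mem _).mp (hu j)
        have hv' := (hP'mem _).mp (hv j)
        simp only [map_add, map_smul, hu'.2.1, hu'.2.2, hv'.2.1, hv'.2.2, smul_zero, add_zero]
      rw [hsum]
      have hz : ∀ z : M, z + z = 0 := by
        intro z
        have : z + z = ((1 : k) + 1) • z := by rw [add_smul, one_smul]
        rw [this, htwo, zero_smul]
      rw [add_comm y, ← add_assoc, hz, zero_add]

theorem symp (ω : M →ₗ[k] M →ₗ[k] k) (halt : ∀ a : M, ω a a = 0)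
    (hnd : ∀ a : M, (∀ b : M, ω a b = 0) → a = 0) :
    ∃ (m : ℕ) (u v : Fin m → M), ∀ y : M, ∑ j, (ω (u j) y • v j + ω (v j) y • u j) = y := by
  obtain ⟨m, u, v, _, _, h⟩ := symp_aux ω halt _ (⊤ : Submodule k M) rfl
    (fun a _ h => hnd a fun b => h b Submodule.mem_top)
  exact ⟨m, u, v, fun y => h y Submodule.mem_top⟩

end Pool.Agent.SkN
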