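import Pool.Agent.Lib.SkN.FamB
import Pool.Agent.Lib.SkN.Symp

/-!
# Module ElA: the element `a` (about 150 lines)

`t` toral, `χ⁅t, L⁆ = 0`, `⁅t, rad χ⁆ = 0`.  Let `M = {y : ⁅t,y⁆ = y}` (a subspace).  `⁅t, ⁅t, y⁆⁆ = ⁅f t, y⁆ = ⁅t, y⁆` (`hf.lie`), so `y = (y - ⁅t,y⁆) + ⁅t,y⁆` with `⁅t, y - ⁅t,y⁆⁆ = 0`, `⁅t,y⁆ ∈ M`.
For `x ∈ M`, `⁅t, y⁆ = 0`: `⁅t, ⁅x,y⁆⁆ = ⁅⁅t,x⁆,y⁆ + ⁅x,⁅t,y⁆⁆ = ⁅x,y⁆`, so `χ⁅x,y⁆ = χ⁅t,⁅x,y⁆⁆ = 0`.
The form `ω x y = χ⁅x,y⁆` on `M` is alternating and nondegenerate: if `x ∈ M`, `χ⁅x,M⁆ = 0` then `χ⁅x,L⁆ = 0`, `x ∈ rad χ`, `x = ⁅t,x⁆ = 0`.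
`symp` (module Symp) gives `u, v : Fin m → M` with `∑_j (χ⁅u j, y⁆ • v j + χ⁅v j, y⁆ • u j) = y` for `y ∈ M`.  Put `a i = ∑_j Y i (u j) * Y i (v j)`.

`InP 0 a`: `inP_Y`, `inP_mul`, `inP_add`.
`hcomm`: `Y i t * Y i x + Y i x * Y i t = s i • Y i ⁅t,x⁆ + χ⁅t,x⁆ = s i • Y i x` for `x ∈ M`; so `Y t * (Y u * Y v) = (Y u * Y t + s Y u) * Y v = Y u * (Y v * Y t + s Y v) + s Y u Y v = Y u * Y v * Y t`
(characteristic two).
The last property: for `y ∈ L`: `(s i)⁻¹ • (Y t Y y - Y y Y t) = Y ⁅t,y⁆` (`χ⁅t,y⁆ = 0`, `s i ≠ 0`).  `a Y(y) - Y(y) a = ∑_j (Y u (Y v Y y + Y y Y v) + (Y u Y y + Y y Y u) Y v)`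
`= ∑_j (s Y u Y⁅v,y⁆ + χ⁅v,y⁆ Y u + s Y⁅u,y⁆ Y v + χ⁅u,y⁆ Y v) = Y(∑_j (χ⁅v j,y⁆ u j + χ⁅u j,y⁆ v j)) + s (…)`, and with `y = y0 + y1`, `y1 = ⁅t,y⁆ ∈ M`, `⁅t,y0⁆ = 0`: `χ⁅u j, y⁆ = χ⁅u j, y1⁆`, so the
sum is `Y(y1) = Y ⁅t,y⁆`.  The difference is `s • ∑_j (Y u Y⁅v,y⁆ + Y⁅u,y⁆ Y v)`, of `InP 1` (`inP_s`).
-/

set_option autoImplicit false
set_option linter.unusedSectionVars false

namespace Pool.Agent.SkN

open Module Polynomial

open Pool.Agent.SkS (Rst Frz Nondeg Rep Irr UU)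

open Pool.Agent.SkF (Sys wp wd)

variable {k L : Type} [Field k] [CharP k 2] [LieRing L] [LieAlgebra k L] [FiniteDimensional k L]
  {n : ℕ} {b : Basis (Fin n) k L} {ι : Type} {s : ι → k} {A : ι → Type} [∀ i, Ring (A i)]
  [∀ i, Algebra k (A i)] {Y : ∀ i, L →ₗ[k] A i} {f : L → L} {χ : Dual k L}

/-- the eigenspace of `t` -/
private def elM (t : L) : Submodule k L where
  carrier := {y | ⁅t, y⁆ = y}
  add_mem' := by
    intro x y hx hy
    have hx' : ⁅t, x⁆ = x := hx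
    have hy' : ⁅t, y⁆ = y := hy
    change ⁅t, x + y⁆ = x + y
    rw [lie_add, hx', hy']
  zero_mem' := lie_zero t
  smul_mem' := by
    intro c x hx
    have hx' : ⁅t, x⁆ = x := hx
    change ⁅t, c • x⁆ = c • x
    rw [lie_smul, hx']

private def elω (χ : Dual k L) (t : L) : elM (k := k) t →ₗ[k] elM (k := k) t →ₗ[k] k :=
  LinearMap.mk₂ k (fun x y => χ ⁅(x : L), (y : L)⁆)
    (fun x x' y => by simp) (fun c x y => by simp) (fun x y y' => by simp) (fun c x y => by simp)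

private lemma el_two {B : Type} [AddCommGroup B] [Module k B] (z : B) : z + z = 0 := by
  have h : (2 : k) = 0 := CharTwo.two_eq_zero
  rw [← two_smul k z, h, zero_smul]

private lemma el_sub (k : Type) [Field k] [CharP k 2] {B : Type} [AddCommGroup B] [Module k B]
    (z w : B) : z - w = z + w := by
  rw [sub_eq_add_neg]
  congr 1
  exact neg_eq_of_add_eq_zero_left (el_two (k := k) w)

private lemma el_inP_sum {α : Type} (S : Finset α) (e : ℕ) (z : α → ∀ i, A i)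
    (h : ∀ a ∈ S, InP b s Y e (z a)) : InP b s Y e (fun i => ∑ a ∈ S, z a i) := by
  classical
  induction S using Finset.induction_on with
  | empty =>
    simp only [Finset.sum_empty]
    exact inP_zero e
  | insert a S ha ih =>
    have h1 : (fun i => ∑ a ∈ insert a S, z a i) = fun i => z a i + ∑ a ∈ S, z a i := by
      funext i
      rw [Finset.sum_insert ha]
    rw [h1]
    exact inP_add (h a (Finset.mem_insert_self a S))
      (ih fun c hc => h c (Finset.mem_insert_of_mem hc))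

theorem exists_a (hf : Rst k f) (hD : FamD b s Y f χ) (t : L) (ht : f t = t)
    (h1 : ∀ y : L, χ ⁅t, y⁆ = 0) (h2 : ∀ z ∈ rad χ, ⁅t, z⁆ = 0) :
    ∃ a : ∀ i, A i, InP b s Y 0 a ∧ (∀ i, Y i t * a i = a i * Y i t) ∧
      ∀ y : L, InP b s Y 1 (fun i => (s i)⁻¹ • (Y i t * Y i y - Y i y * Y i t) -
        (a i * Y i y - Y i y * a i)) := by
  have tt : ∀ y : L, ⁅t, ⁅t, y⁆⁆ = ⁅t, y⁆ := by
    intro y
    rw [← hf.lie, ht]
  have hM1 : ∀ y : L, ⁅t, y⁆ ∈ elM (k := k) t := tt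
  have hor : ∀ x y : L, ⁅t, x⁆ = x → ⁅t, y⁆ = 0 → χ ⁅x, y⁆ = 0 := by
    intro x y hx hy
    have h3 : ⁅t, ⁅x, y⁆⁆ = ⁅x, y⁆ := by
      rw [leibniz_lie, hx, hy, lie_zero, add_zero]
    rw [← h3]
    exact h1 _
  have hor' : ∀ x y : L, ⁅t, x⁆ = x → χ ⁅x, y⁆ = χ ⁅x, ⁅t, y⁆⁆ := by
    intro x y hx
    have h3 : χ ⁅x, y - ⁅t, y⁆⁆ = 0 := hor x _ hx (by rw [lie_sub, tt, sub_self])
    rw [lie_sub, map_sub, sub_eq_zero] at h3
    exact h3
  obtain ⟨m, u, v, huv⟩ := symp (elω χ t) (by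
      intro a
      change χ ⁅(a : L), (a : L)⁆ = 0
      rw [lie_self, map_zero]) (by
      intro a ha
      have hat : ⁅t, (a : L)⁆ = a := a.2
      have h3 : (a : L) ∈ rad χ := by
        intro y
        rw [hor' _ y hat]
        exact ha ⟨⁅t, y⁆, hM1 y⟩
      have h4 := h2 _ h3
      rw [hat] at h4
      exact Subtype.ext h4)
  have hu : ∀ j, ⁅t, (u j : L)⁆ = u j := fun j => (u j).2
  have hv : ∀ j, ⁅t, (v j : L)⁆ = v j := fun j => (v j).2
  have hsum : ∀ y : L, ∑ j, (χ ⁅(u j : L), y⁆ • (v j : L) + χ ⁅(v j : L), y⁆ • (u j : L)) = ⁅t, y⁆ := by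
    intro y
    have h3 := congrArg (Submodule.subtype (elM (k := k) t)) (huv ⟨⁅t, y⁆, hM1 y⟩)
    rw [map_sum] at h3
    have h4 : (Submodule.subtype (elM (k := k) t)) ⟨⁅t, y⁆, hM1 y⟩ = ⁅t, y⁆ := rfl
    rw [h4] at h3
    rw [← h3]
    refine Finset.sum_congr rfl fun j _ => ?_
    rw [hor' _ y (hu j), hor' _ y (hv j)]
    rfl
  have hcomm : ∀ i (x : L), ⁅t, x⁆ = x → Y i t * Y i x = Y i x * Y i t + s i • Y i x := by
    intro i x hx
    have h3 := (hD.sys i).com t x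
    rw [h1, map_zero, add_zero, hx] at h3
    rw [← h3, add_comm (Y i t * Y i x), ← add_assoc, el_two (k := k), zero_add]
  refine ⟨fun i => ∑ j, Y i (u j) * Y i (v j), ?_, ?_, ?_⟩
  · exact el_inP_sum Finset.univ 0 (fun j i => Y i (u j) * Y i (v j))
      fun j _ => inP_mul hD (inP_Y hD (u j : L)) (inP_Y hD (v j : L))
  · intro i
    rw [Finset.mul_sum, Finset.sum_mul]
    refine Finset.sum_congr rfl fun j _ => ?_
    rw [← mul_assoc, hcomm i _ (hu j), add_mul, mul_assoc, hcomm i _ (hv j), mul_add,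
      smul_mul_assoc, mul_smul_comm, add_assoc, el_two (k := k), add_zero, mul_assoc]
  · intro y
    have hR : InP b s Y 0 (fun i => ∑ j, (Y i (u j) * Y i ⁅(v j : L), y⁆ +
        Y i ⁅(u j : L), y⁆ * Y i (v j))) :=
      el_inP_sum Finset.univ 0 (fun j i => Y i (u j) * Y i ⁅(v j : L), y⁆ +
        Y i ⁅(u j : L), y⁆ * Y i (v j)) fun j _ =>
        inP_add (inP_mul hD (inP_Y hD (u j : L)) (inP_Y hD _))
          (inP_mul hD (inP_Y hD _) (inP_Y hD (v j : L)))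
    have hR1 := inP_s (e := 1) hR
    have e1 : (fun i => (s i)⁻¹ • (Y i t * Y i y - Y i y * Y i t) -
        ((∑ j, Y i (u j) * Y i (v j)) * Y i y - Y i y * ∑ j, Y i (u j) * Y i (v j))) =
        fun i => s i ^ 1 • ∑ j, (Y i (u j) * Y i ⁅(v j : L), y⁆ +
          Y i ⁅(u j : L), y⁆ * Y i (v j)) := by
      funext i
      have h3 : (s i)⁻¹ • (Y i t * Y i y - Y i y * Y i t) = Y i ⁅t, y⁆ := by
        rw [el_sub k, (hD.sys i).com t y, h1, map_zero, add_zero, smul_smul,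
          inv_mul_cancel₀ (hD.ne i), one_smul]
      have h4 : (∑ j, Y i (u j) * Y i (v j)) * Y i y - Y i y * ∑ j, Y i (u j) * Y i (v j) =
          s i • ∑ j, (Y i (u j) * Y i ⁅(v j : L), y⁆ + Y i ⁅(u j : L), y⁆ * Y i (v j)) +
            Y i ⁅t, y⁆ := by
        rw [el_sub k, Finset.mul_sum, Finset.sum_mul, ← Finset.sum_add_distrib, ← hsum y, map_sum,
          Finset.smul_sum, ← Finset.sum_add_distrib]
        refine Finset.sum_congr rfl fun j _ => ?_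
        have h5 := (hD.sys i).com (v j : L) y
        have h6 := (hD.sys i).com (u j : L) y
        have h7 : Y i (u j) * Y i (v j) * Y i y + Y i y * (Y i (u j) * Y i (v j)) =
            Y i (u j) * (Y i (v j) * Y i y + Y i y * Y i (v j)) +
              (Y i (u j) * Y i y + Y i y * Y i (u j)) * Y i (v j) := by
          have h8 : Y i (u j) * (Y i (v j) * Y i y + Y i y * Y i (v j)) +
              (Y i (u j) * Y i y + Y i y * Y i (u j)) * Y i (v j) =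
              Y i (u j) * Y i (v j) * Y i y + Y i y * (Y i (u j) * Y i (v j)) +
                (Y i (u j) * Y i y * Y i (v j) + Y i (u j) * Y i y * Y i (v j)) := by
            noncomm_ring
          rw [h8, el_two (k := k), add_zero]
        rw [h7, h5, h6, map_add, map_smul, map_smul, Algebra.algebraMap_eq_smul_one,
          Algebra.algebraMap_eq_smul_one, mul_add, add_mul, mul_smul_comm, mul_smul_comm,
          smul_mul_assoc, smul_mul_assoc, one_mul, mul_one, smul_add]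
        abel
      rw [h3, h4, el_sub k, pow_one]
      have h9 : ∀ a c : A i, a + (c + a) = c := by
        intro a c
        rw [add_comm c a, ← add_assoc, el_two (k := k), zero_add]
      exact h9 _ _
    rw [e1]
    exact hR1

end Pool.Agent.SkN
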