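import Pool.Agent.Lib.SkN.DerIn
import Pool.Agent.Lib.SkN.ElA

/-!
# Module Delta: the element `Y(t) - s a^(2^j)` is central to high order (about 120 lines)

Take `a` from `exists_a`.  Put `D z i = (s i)⁻¹ • (Y i t * z i - z i * Y i t)` (a derivation of `A i`, linear in `z i`) and `Δ_j z = D z - (a^(2^j) z - z a^(2^j))`.
`D (D z) = D z`: `Y t * Y t = s • Y (f t) + χ (f t) = s • Y t + χ(t)` (`hD.sys`, `f t = t`), so `⁅Y t, ⁅Y t, z⁆⁆ = ⁅Y t * Y t, z⁆ = s ⁅Y t, z⁆` (characteristic two: `-2 Y t z Y t = 0`).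
`D a = 0`, so `D` commutes with `z ↦ a^(2^j) z - z a^(2^j)`; and the square of `z ↦ c z - z c` is `z ↦ c^2 z - z c^2` (characteristic two).  Hence
`Δ_j (Δ_j z) = D z - 0 - … = Δ_{j+1} z` (cross term twice, `= 0`).
CLAIM: `InP i z → InP (i + 2^j) (Δ_j z)`.  `j = 0`: `der_in` with `e = 1` and the property of `a`.  `j → j+1`: `Δ_{j+1} z = Δ_j (Δ_j z)`, `i + 2^j + 2^j = i + 2^(j+1)`.
Conclusion with `z = Y y`: `(Y t - s a^(2^j)) Y y - Y y (Y t - s a^(2^j)) = s Δ_j (Y y)` is of `InP (2^j + 1)` (`inP_s`).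
`InP 0 (a^(2^j))`: `inP_mul`, `inP_scalar`.
-/

set_option autoImplicit false
set_option linter.unusedSectionVars false

namespace Pool.Agent.SkN

open Module Polynomial

open Pool.Agent.SkS (Rst Frz Nondeg Rep Irr UU)

open Pool.Agent.SkF (Sys wp wd)

variable {k L : Type} [Field k] [CharP k 2] [LieRing L] [LieAlgebra k L] [FiniteDimensional k L]
  {n : ℕ} {b : Basis (Fin n) k L} {ι : Type} {s : ι → k} {A : ι → Type} [∀ i, Ring (A i)]
  [∀ i, Algebra k (A i)] {Y : ∀ i, L →ₗ[k] A i} {f : L → L} {χ : Dual k L}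

private lemma inP_congr {j j' : ℕ} {z z' : ∀ i, A i} (h : InP b s Y j z) (hj : j = j')
    (e : ∀ i, z' i = z i) : InP b s Y j' z' := by
  subst hj
  have : z' = z := funext e
  rw [this]
  exact h

private lemma op_sq {B : Type} [Ring B] [Algebra k B] (h2 : ∀ x : B, x + x = 0) (T c z : B)
    (r m : k) (hr : r ≠ 0) (hT : T * T = r • T + algebraMap k B m) (hc : T * c = c * T) :
    r⁻¹ • (T * (r⁻¹ • (T * z - z * T) - (c * z - z * c)) -
        (r⁻¹ • (T * z - z * T) - (c * z - z * c)) * T) -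
      (c * (r⁻¹ • (T * z - z * T) - (c * z - z * c)) -
        (r⁻¹ • (T * z - z * T) - (c * z - z * c)) * c) =
    r⁻¹ • (T * z - z * T) - (c * c * z - z * (c * c)) := by
  have e1 : r⁻¹ • (T * (r⁻¹ • (T * z - z * T)) - (r⁻¹ • (T * z - z * T)) * T) =
      r⁻¹ • (T * z - z * T) := by
    congr 1
    rw [mul_smul_comm, smul_mul_assoc, ← smul_sub]
    have h3 : T * (T * z - z * T) - (T * z - z * T) * T = r • (T * z - z * T) := by
      have h4 : T * (T * z - z * T) - (T * z - z * T) * T =
          (T * T) * z - z * (T * T) + (z * (T * T) + z * (T * T)) -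
            (T * z * T + T * z * T) := by noncomm_ring
      rw [h4, h2, h2, add_zero, sub_zero, hT, add_mul, mul_add, smul_mul_assoc,
        mul_smul_comm, smul_sub, Algebra.commutes m z]
      abel
    rw [h3, smul_smul, inv_mul_cancel₀ hr, one_smul]
  have e2 : r⁻¹ • (T * (c * z - z * c) - (c * z - z * c) * T) =
      c * (r⁻¹ • (T * z - z * T)) - (r⁻¹ • (T * z - z * T)) * c := by
    rw [mul_smul_comm, smul_mul_assoc, ← smul_sub]
    congr 1
    have h3 : T * (c * z - z * c) - (c * z - z * c) * T =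
        (T * c) * z - T * z * c - c * z * T + z * (c * T) := by noncomm_ring
    have h4 : c * (T * z - z * T) - (T * z - z * T) * c =
        (c * T) * z - T * z * c - c * z * T + z * (T * c) := by noncomm_ring
    rw [h3, h4, hc]
  have e3 : c * (c * z - z * c) - (c * z - z * c) * c = - (c * c * z - z * (c * c)) := by
    have h3 : c * (c * z - z * c) - (c * z - z * c) * c = - (c * c * z - z * (c * c)) +
        (c * c * z + c * c * z) - (c * z * c + c * z * c) := by noncomm_ring
    rw [h3, h2, h2, add_zero, sub_zero]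
  obtain ⟨D, hD⟩ : ∃ D, D = r⁻¹ • (T * z - z * T) := ⟨_, rfl⟩
  obtain ⟨K, hK⟩ : ∃ K, K = c * z - z * c := ⟨_, rfl⟩
  rw [← hD] at e1 e2 ⊢
  rw [← hK] at e2 e3 ⊢
  have e4 : T * (D - K) - (D - K) * T = (T * D - D * T) - (T * K - K * T) := by noncomm_ring
  have e5 : c * (D - K) - (D - K) * c = (c * D - D * c) - (c * K - K * c) := by noncomm_ring
  rw [e4, e5, smul_sub, e1, e2, e3]
  have e6 := h2 (c * D - D * c)
  have e7 : D - (c * D - D * c) - (c * D - D * c - -(c * c * z - z * (c * c))) =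
      D - (c * c * z - z * (c * c)) - ((c * D - D * c) + (c * D - D * c)) := by abel
  rw [e7, e6, sub_zero]

theorem approx (hf : Rst k f) (hD : FamD b s Y f χ) (t : L) (ht : f t = t)
    (h1 : ∀ y : L, χ ⁅t, y⁆ = 0) (h2 : ∀ z ∈ rad χ, ⁅t, z⁆ = 0) (j : ℕ) :
    ∃ c : ∀ i, A i, InP b s Y 0 c ∧ ∀ y : L, InP b s Y (2 ^ j + 1)
      (fun i => (Y i t - s i • c i) * Y i y - Y i y * (Y i t - s i • c i)) := by
  obtain ⟨a, ha0, hcomm, ha1⟩ := exists_a hf hD t ht h1 h2
  have htwo : ∀ i (x : A i), x + x = 0 := by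
    intro i x
    have h3 : (2 : k) = 0 := CharTwo.two_eq_zero
    have h4 : x + x = (2 : k) • x := by rw [two_smul]
    rw [h4, h3, zero_smul]
  have hpow : ∀ j, InP b s Y 0 (fun i => a i ^ (2 ^ j)) := by
    intro j
    induction j with
    | zero => exact inP_congr ha0 rfl fun i => by rw [pow_zero, pow_one]
    | succ j ih =>
      exact inP_congr (inP_mul hD ih ih) rfl fun i => by rw [← pow_add, pow_succ, mul_two]
  have hcj : ∀ j i, Y i t * a i ^ (2 ^ j) = a i ^ (2 ^ j) * Y i t := fun j i =>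
    ((show Commute (Y i t) (a i) from hcomm i).pow_right (2 ^ j))
  have main : ∀ (j e : ℕ) (z : ∀ i, A i), InP b s Y e z → InP b s Y (e + 2 ^ j)
      (fun i => (s i)⁻¹ • (Y i t * z i - z i * Y i t) -
        (a i ^ (2 ^ j) * z i - z i * a i ^ (2 ^ j))) := by
    intro j
    induction j with
    | zero =>
      intro e z hz
      have h3 := der_in hD (fun i => (s i)⁻¹ • (LinearMap.mulLeft k (Y i t) -
          LinearMap.mulRight k (Y i t)) - (LinearMap.mulLeft k (a i) -
          LinearMap.mulRight k (a i))) (by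
        intro i u v
        simp only [LinearMap.sub_apply, LinearMap.smul_apply, LinearMap.mulLeft_apply,
          LinearMap.mulRight_apply]
        have e1 : (s i)⁻¹ • (Y i t * (u * v) - u * v * Y i t) =
            ((s i)⁻¹ • (Y i t * u - u * Y i t)) * v + u * ((s i)⁻¹ • (Y i t * v - v * Y i t)) := by
          rw [smul_mul_assoc, mul_smul_comm, ← smul_add]
          congr 1
          noncomm_ring
        rw [e1]
        noncomm_ring) 1 (fun y => inP_congr (ha1 y) rfl fun i => by
          simp only [LinearMap.sub_apply, LinearMap.smul_apply, LinearMap.mulLeft_apply,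
            LinearMap.mulRight_apply]) hz
      refine inP_congr h3 (by rw [pow_zero]) fun i => ?_
      simp only [LinearMap.sub_apply, LinearMap.smul_apply, LinearMap.mulLeft_apply,
        LinearMap.mulRight_apply, pow_zero, pow_one]
    | succ j ih =>
      intro e z hz
      have h3 := ih _ _ (ih e z hz)
      refine inP_congr h3 (by rw [pow_succ]; omega) fun i => ?_
      have h4 := (hD.sys i).sq t
      rw [ht] at h4
      have h5 := op_sq (htwo i) (Y i t) (a i ^ (2 ^ j)) (z i) (s i) (χ t) (hD.ne i) h4 (hcj j i)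
      have h6 : a i ^ 2 ^ (j + 1) = a i ^ 2 ^ j * a i ^ 2 ^ j := by
        rw [← pow_add, pow_succ, mul_two]
      rw [h6]
      exact h5.symm
  refine ⟨fun i => a i ^ (2 ^ j), hpow j, fun y => ?_⟩
  have h3 := inP_s (e := 1) (main j 0 (fun i => Y i y) (inP_Y hD y))
  refine inP_congr h3 (by omega) fun i => ?_
  simp only [pow_one]
  rw [smul_sub, smul_smul, mul_inv_cancel₀ (hD.ne i), one_smul, sub_mul, mul_sub,
    smul_mul_assoc, mul_smul_comm, smul_sub]
  abel

end Pool.Agent.SkN
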