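import Pool.Agent.Lib.SkN.FamB

/-!
# Module DerIn: derivations of the ring of families (about 70 lines)

`T i` is a derivation of `A i` for every `i` and `T (Y x)` is divisible by `s^e` for every `x ∈ L`.  Then `T` maps `InP j` to `InP (j + e)`.

PROOF.  `T i 1 = 0`.  For every word `w`: `InP e (fun i => T i (wp b (Y i) w))` by induction on `w`: `wp (j :: w) = Y (b j) * wp w` (`wp_cons`),
`T (Y (b j) * wp w) = T (Y (b j)) * wp w + Y (b j) * T (wp w)` (`inP_mul`, `inP_word`, `inP_Y`, `inP_add`).  `z i = (s i)^j • ∑ ε (g ε).eval (s i) • wp b (Y i) (wd ε)`,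
`T i` is linear; finite sums by `inP_add` (induction on the finset, `inP_zero`), `inP_smul`, `inP_s`.
-/

set_option autoImplicit false
set_option linter.unusedSectionVars false

namespace Pool.Agent.SkN

open Module Polynomial

open Pool.Agent.SkF (Sys wp wd)

variable {k L : Type} [Field k] [CharP k 2] [LieRing L] [LieAlgebra k L] {n : ℕ}
  {b : Basis (Fin n) k L} {ι : Type} {s : ι → k} {A : ι → Type} [∀ i, Ring (A i)]
  [∀ i, Algebra k (A i)] {Y : ∀ i, L →ₗ[k] A i} {f : L → L} {χ : Dual k L}

private lemma di_word (hD : FamD b s Y f χ) (T : ∀ i, A i →ₗ[k] A i)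
    (hT : ∀ i (u v : A i), T i (u * v) = T i u * v + u * T i v) (e : ℕ)
    (hY : ∀ x : L, InP b s Y e (fun i => T i (Y i x))) (w : List (Fin n)) :
    InP b s Y e (fun i => T i (wp b (Y i) w)) := by
  induction w with
  | nil =>
    have h1 : (fun i => T i (wp b (Y i) [])) = fun i => (0 : A i) := by
      funext i
      rw [Pool.Agent.SkF.wp_nil]
      have h2 := hT i 1 1
      rw [mul_one, mul_one, one_mul] at h2
      exact left_eq_add.1 h2
    rw [h1]
    exact inP_zero e
  | cons j w ih =>
    have h1 : (fun i => T i (wp b (Y i) (j :: w))) =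
        fun i => T i (Y i (b j)) * wp b (Y i) w + Y i (b j) * T i (wp b (Y i) w) := by
      funext i
      rw [Pool.Agent.SkF.wp_cons, hT]
    rw [h1]
    have h2 := inP_mul hD (hY (b j)) (inP_word hD w)
    have h3 := inP_mul hD (inP_Y hD (b j)) ih
    rw [Nat.add_zero] at h2
    rw [Nat.zero_add] at h3
    exact inP_add h2 h3

private lemma di_sum {α : Type} (S : Finset α) (e : ℕ) (z : α → ∀ i, A i)
    (h : ∀ a ∈ S, InP b s Y e (z a)) : InP b s Y e (fun i => ∑ a ∈ S, z a i) := by
  classical
  induction S using Finset.induction_on with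
  | empty =>
    simp only [Finset.sum_empty]
    exact inP_zero e
  | insert a S ha ih =>
    have h1 : (fun i => ∑ a ∈ insert a S, z a i) = fun i => z a i + ∑ a ∈ S, z a i := by
      funext i
      rw [Finset.sum_insert ha]
    rw [h1]
    exact inP_add (h a (Finset.mem_insert_self a S))
      (ih fun c hc => h c (Finset.mem_insert_of_mem hc))

theorem der_in (hD : FamD b s Y f χ) (T : ∀ i, A i →ₗ[k] A i)
    (hT : ∀ i (u v : A i), T i (u * v) = T i u * v + u * T i v) (e : ℕ)
    (hY : ∀ x : L, InP b s Y e (fun i => T i (Y i x))) {j : ℕ} {z : ∀ i, A i}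
    (hz : InP b s Y j z) : InP b s Y (j + e) (fun i => T i (z i)) := by
  obtain ⟨g, hg⟩ := hz
  have h1 : (fun i => T i (z i)) =
      fun i => s i ^ j • ∑ ε, (g ε).eval (s i) • T i (wp b (Y i) (wd ε)) := by
    funext i
    rw [hg i, map_smul, mkP, map_sum]
    congr 1
    refine Finset.sum_congr rfl fun ε _ => ?_
    rw [map_smul]
  rw [h1]
  have h2 : InP b s Y e (fun i => ∑ ε, (g ε).eval (s i) • T i (wp b (Y i) (wd ε))) :=
    di_sum Finset.univ e (fun ε i => (g ε).eval (s i) • T i (wp b (Y i) (wd ε)))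
      fun ε _ => inP_smul (g ε) (di_word hD T hT e hY (wd ε))
  have h3 := inP_s (e := j) h2
  rwa [Nat.add_comm e j] at h3

end Pool.Agent.SkN
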