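import Pool.Agent.Lib.SkN.Defs

/-!
# Module ExF: families in the stabilizers (about 200 lines)

Let `r = finrank (rad χ)`, and `r ≤ finrank (rad (χ + c ξ))` for all but finitely many `c` (`hS`).  Let `v ∈ rad χ`.
`W` a complement of `rad χ` in `L`, `w : Fin m → L` a basis of `W`, `m = n - r`.  Over `k[X]` put `M i j = C (χ⁅w i, w j⁆) + X * C (ξ⁅w i, w j⁆)`, `D = det M`,
`a j = X * C (ξ ⁅v, w j⁆)` and `y = a ᵥ* M.adjugate`, so `y ᵥ* M = D • a` (`Matrix.adjugate_mul`).
`D(0) ≠ 0`: if `∑ x_i χ⁅w i, w j⁆ = 0` for all `j` then `x = ∑ x_i w_i ∈ W` satisfies `χ⁅x, W⁆ = 0` and `χ⁅x, rad χ⁆ = 0` (`lie_skew`), so `x ∈ rad χ ∩ W = 0`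
(`Matrix.exists_vecMul_eq_zero_iff`).
`F c = D(0)⁻¹ • (D(c) • v - ∑_i y_i(c) • w_i)`; it is a polynomial map with `F 0 = v` as `a(0) = 0` and so `y(0) = 0`; write it as `v + c x1 + c^2 x2 + c^3 G c`
(every polynomial map `∑_{j<N} c^j v_j` is of this form, with `x0 = F 0`).
`(χ + c ξ)⁅F c, w j⁆ = D(0)⁻¹ (D(c) c ξ⁅v,w j⁆ + D(c) χ⁅v, w j⁆ - (y ᵥ* M)_j(c)) = 0` (`χ⁅v, w j⁆ = 0`).
Let `D(c) ≠ 0` (all but finitely many `c`) and `r ≤ finrank (rad (χ + c ξ))`.  `W ∩ rad (χ + c ξ) = 0` (as for `D(0) ≠ 0`), so by dimensions `W ⊔ rad (χ + c ξ) = ⊤`.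
For `u = w + z`: `(χ + c ξ)⁅F c, u⁆ = 0 + (χ + c ξ)⁅F c, z⁆ = 0`.  So `F c ∈ rad (χ + c ξ)`.
-/

set_option autoImplicit false
set_option linter.unusedSectionVars false

namespace Pool.Agent.SkN

open Module

open Pool.Agent.SkS (Rst Frz Nondeg Rep Irr UU)

variable {k L : Type} [Field k] [LieRing L] [LieAlgebra k L] [FiniteDimensional k L]

private lemma sum_ext' {R : Type} [AddCommMonoid R] (N N' : ℕ) (h : N ≤ N') (g : ℕ → R)
    (hg : ∀ j, N ≤ j → g j = 0) : ∑ j ∈ Finset.range N', g j = ∑ j ∈ Finset.range N, g j := by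
  symm
  refine Finset.sum_subset (Finset.range_subset_range.2 h) fun j _ hj => ?_
  exact hg j (not_lt.1 fun h' => hj (Finset.mem_range.2 h'))

/-- a polynomial map with a long enough range and coefficients zero beyond -/
private lemma pol_norm {F : k → L} (h : PolMap F) :
    ∃ (N : ℕ) (v : ℕ → L), (∀ j, N ≤ j → v j = 0) ∧
      ∀ N', N ≤ N' → ∀ c : k, F c = ∑ j ∈ Finset.range N', c ^ j • v j := by
  obtain ⟨N, v, hv⟩ := h
  refine ⟨N, fun j => if j < N then v j else 0, fun j hj => if_neg (not_lt.2 hj), ?_⟩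
  intro N' hN' c
  rw [hv c, sum_ext' N N' hN']
  · refine Finset.sum_congr rfl fun j hj => ?_
    simp only [if_pos (Finset.mem_range.1 hj)]
  · intro j hj
    simp only [if_neg (not_lt.2 hj), smul_zero]

private lemma pol_add {F G : k → L} (hF : PolMap F) (hG : PolMap G) :
    PolMap (fun c => F c + G c) := by
  obtain ⟨N, v, _, hv⟩ := pol_norm hF
  obtain ⟨N', v', _, hv'⟩ := pol_norm hG
  refine ⟨max N N', fun j => v j + v' j, fun c => ?_⟩
  simp only []
  rw [hv _ (le_max_left N N') c, hv' _ (le_max_right N N') c, ← Finset.sum_add_distrib]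
  refine Finset.sum_congr rfl fun j _ => ?_
  rw [smul_add]

private lemma pol_smul {F : k → L} (a : k) (hF : PolMap F) : PolMap (fun c => a • F c) := by
  obtain ⟨N, v, hv⟩ := hF
  refine ⟨N, fun j => a • v j, fun c => ?_⟩
  simp only []
  rw [hv c, Finset.smul_sum]
  refine Finset.sum_congr rfl fun j _ => ?_
  rw [smul_comm]

private lemma pol_zero : PolMap (fun _ : k => (0 : L)) := ⟨0, fun _ => 0, fun c => by simp⟩

private lemma pol_sum {ι : Type} (s : Finset ι) (F : ι → k → L) (h : ∀ i ∈ s, PolMap (F i)) :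
    PolMap (fun c => ∑ i ∈ s, F i c) := by
  classical
  induction s using Finset.induction_on with
  | empty =>
    simp only [Finset.sum_empty]
    exact pol_zero
  | insert a s ha ih =>
    simp only [Finset.sum_insert ha]
    exact pol_add (h a (Finset.mem_insert_self a s))
      (ih fun i hi => h i (Finset.mem_insert_of_mem hi))

private lemma pol_eval (P : Polynomial k) (x : L) : PolMap (fun c => P.eval c • x) := by
  refine ⟨P.natDegree + 1, fun j => P.coeff j • x, fun c => ?_⟩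
  simp only []
  rw [Polynomial.eval_eq_sum_range, Finset.sum_smul]
  refine Finset.sum_congr rfl fun j _ => ?_
  rw [smul_smul, mul_comm]

private lemma fam_of_pol {F : k → L} (h : PolMap F) : ∃ x1 x2 : L, Fam F (F 0) x1 x2 := by
  obtain ⟨N, v, hv0, hv⟩ := pol_norm h
  refine ⟨v 1, v 2, fun c => ∑ j ∈ Finset.range N, c ^ j • v (j + 3),
    ⟨N, fun j => v (j + 3), fun c => rfl⟩, fun c => ?_⟩
  have h0 : F 0 = v 0 := by
    rw [hv (N + 3) (by omega) 0, Finset.sum_range_succ']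
    rw [pow_zero, one_smul, Finset.sum_eq_zero, zero_add]
    intro j _
    rw [pow_succ, mul_zero, zero_smul]
  rw [h0, hv (N + 3) (by omega) c, Finset.sum_range_succ', Finset.sum_range_succ',
    Finset.sum_range_succ', Finset.smul_sum]
  have h1 : ∀ j ∈ Finset.range N, c ^ (j + 1 + 1 + 1) • v (j + 1 + 1 + 1) =
      c ^ 3 • (c ^ j • v (j + 3)) := by
    intro j _
    rw [smul_smul, ← pow_add, add_comm 3 j]
  rw [Finset.sum_congr rfl h1]
  simp only [zero_add, pow_zero, one_smul, pow_one]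
  abel

private lemma lie_comm_zero (φ : Dual k L) {x y : L} (h : φ ⁅x, y⁆ = 0) : φ ⁅y, x⁆ = 0 := by
  rw [← lie_skew, map_neg, h, neg_zero]

theorem exists_fam (χ ξ : Dual k L)
    (hS : {c : k | ¬ finrank k (rad χ) ≤ finrank k (rad (χ + c • ξ))}.Finite) (v : L)
    (hv : v ∈ rad χ) : ∃ (F : k → L) (x1 x2 : L), Fam F v x1 x2 ∧
      {c : k | ¬ F c ∈ rad (χ + c • ξ)}.Finite := by
  classical
  obtain ⟨W, hW⟩ := (rad χ).exists_isCompl
  let w := Module.finBasis k W
  let M : Matrix (Fin (finrank k W)) (Fin (finrank k W)) (Polynomial k) := fun i j =>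
    Polynomial.C (χ ⁅(w i : L), (w j : L)⁆) +
      Polynomial.X * Polynomial.C (ξ ⁅(w i : L), (w j : L)⁆)
  let a : Fin (finrank k W) → Polynomial k := fun j =>
    Polynomial.X * Polynomial.C (ξ ⁅v, (w j : L)⁆)
  let y : Fin (finrank k W) → Polynomial k := Matrix.vecMul a M.adjugate
  have hyM : Matrix.vecMul y M = M.det • a := by
    change Matrix.vecMul (Matrix.vecMul a M.adjugate) M = M.det • a
    rw [Matrix.vecMul_vecMul, Matrix.adjugate_mul, Matrix.vecMul_smul, Matrix.vecMul_one]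
  -- evaluation
  have hMc : ∀ c i j, (M i j).eval c = (χ + c • ξ) ⁅(w i : L), (w j : L)⁆ := by
    intro c i j
    change Polynomial.eval c (Polynomial.C (χ ⁅(w i : L), (w j : L)⁆) +
      Polynomial.X * Polynomial.C (ξ ⁅(w i : L), (w j : L)⁆)) = _
    rw [Polynomial.eval_add, Polynomial.eval_mul, Polynomial.eval_C, Polynomial.eval_C,
      Polynomial.eval_X]
    rfl
  have hdet : ∀ c, M.det.eval c =
      Matrix.det (fun i j => (χ + c • ξ) ⁅(w i : L), (w j : L)⁆) := by
    intro c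
    have h1 := RingHom.map_det (Polynomial.evalRingHom c) M
    rw [Polynomial.coe_evalRingHom] at h1
    rw [h1]
    congr 1
    ext i j
    simpa using hMc c i j
  have hWsum : ∀ z : L, z ∈ W → ∃ x : Fin (finrank k W) → k, z = ∑ i, x i • (w i : L) := by
    intro z hz
    refine ⟨fun i => w.repr ⟨z, hz⟩ i, ?_⟩
    have h1 := w.sum_repr ⟨z, hz⟩
    have h2 := congrArg (fun u : W => (u : L)) h1
    simp only [AddSubmonoidClass.coe_finsetSum, SetLike.val_smul] at h2
    exact h2.symm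
  have hlie : ∀ (φ : Dual k L) (x : Fin (finrank k W) → k) (u : L),
      φ ⁅∑ i, x i • (w i : L), u⁆ = ∑ i, x i * φ ⁅(w i : L), u⁆ := by
    intro φ x u
    rw [sum_lie, map_sum]
    refine Finset.sum_congr rfl fun i _ => ?_
    rw [smul_lie, map_smul, smul_eq_mul]
  have hWtest : ∀ (φ : Dual k L) (x : L), (∀ j, φ ⁅x, (w j : L)⁆ = 0) → ∀ u ∈ W,
      φ ⁅x, u⁆ = 0 := by
    intro φ x hx u hu
    obtain ⟨e, he⟩ := hWsum u hu
    apply lie_comm_zero
    rw [he, hlie]
    refine Finset.sum_eq_zero fun i _ => ?_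
    rw [lie_comm_zero φ (hx i), mul_zero]
  -- nondegeneracy on W
  have hWrad : ∀ c, M.det.eval c ≠ 0 → ∀ z ∈ W, z ∈ rad (χ + c • ξ) → z = 0 := by
    intro c hc z hzW hz
    obtain ⟨x, hx⟩ := hWsum z hzW
    rw [hdet] at hc
    have h1 : Matrix.vecMul x (fun i j => (χ + c • ξ) ⁅(w i : L), (w j : L)⁆) = 0 := by
      funext j
      rw [Pi.zero_apply, ← hz (w j : L), hx, hlie]
      rfl
    have h2 := Matrix.eq_zero_of_vecMul_eq_zero hc h1
    rw [hx, h2]
    simp
  have hD0 : M.det.eval 0 ≠ 0 := by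
    rw [hdet]
    intro h0
    obtain ⟨x, hx0, hx⟩ := Matrix.exists_vecMul_eq_zero_iff.2 h0
    apply hx0
    have hz : (∑ i, x i • (w i : L)) ∈ rad χ := by
      intro u
      have h1 : ∀ j, χ ⁅∑ i, x i • (w i : L), (w j : L)⁆ = 0 := by
        intro j
        have h2 := congrFun hx j
        rw [Pi.zero_apply] at h2
        rw [hlie, ← h2]
        change _ = ∑ i, x i * (χ + (0 : k) • ξ) ⁅(w i : L), (w j : L)⁆
        simp
      have hu : u ∈ rad χ ⊔ W := by
        rw [hW.sup_eq_top]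
        exact Submodule.mem_top
      obtain ⟨u1, hu1, u2, hu2, rfl⟩ := Submodule.mem_sup.1 hu
      rw [lie_add, map_add, hWtest χ _ h1 u2 hu2, lie_comm_zero χ (hu1 _), add_zero]
    have hzW : (∑ i, x i • (w i : L)) ∈ W :=
      W.sum_mem fun i _ => W.smul_mem _ (w i).2
    have hz0 : (∑ i, x i • (w i : L)) = 0 := by
      have h3 := hW.inf_eq_bot
      have h4 : (∑ i, x i • (w i : L)) ∈ rad χ ⊓ W := ⟨hz, hzW⟩
      rw [h3] at h4
      exact (Submodule.mem_bot k).1 h4
    have h5 : (∑ i, x i • w i) = 0 := by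
      apply Subtype.ext
      simpa using hz0
    funext i
    exact Fintype.linearIndependent_iff.1 w.linearIndependent x h5 i
  let F : k → L := fun c => (M.det.eval 0)⁻¹ •
    (M.det.eval c • v + ∑ i, (-(y i)).eval c • (w i : L))
  have hpol : PolMap F :=
    pol_smul _ (pol_add (pol_eval _ v) (pol_sum _ _ fun i _ => pol_eval _ _))
  have hF0 : F 0 = v := by
    have hy0 : ∀ i, (-(y i)).eval 0 = 0 := by
      intro i
      rw [Polynomial.eval_neg, neg_eq_zero]
      change Polynomial.eval 0 (∑ j, a j * M.adjugate j i) = 0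
      rw [Polynomial.eval_finsetSum]
      refine Finset.sum_eq_zero fun j _ => ?_
      simp [a]
    change (M.det.eval 0)⁻¹ • (M.det.eval 0 • v + ∑ i, (-(y i)).eval 0 • (w i : L)) = v
    simp only [hy0, zero_smul, Finset.sum_const_zero, add_zero]
    rw [smul_smul, inv_mul_cancel₀ hD0, one_smul]
  obtain ⟨x1, x2, hfam⟩ := fam_of_pol hpol
  rw [hF0] at hfam
  refine ⟨F, x1, x2, hfam, ?_⟩
  have hDne : M.det ≠ 0 := by
    intro h
    rw [h, Polynomial.eval_zero] at hD0
    exact hD0 rfl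
  refine ((Polynomial.finite_setOfPred_isRoot hDne).union hS).subset ?_
  intro c hc
  by_contra hcon
  rw [Set.mem_union, not_or] at hcon
  obtain ⟨hc1, hc2⟩ := hcon
  have hc1' : M.det.eval c ≠ 0 := hc1
  have hc2' : finrank k (rad χ) ≤ finrank k (rad (χ + c • ξ)) := by
    by_contra h
    exact hc2 h
  apply hc
  -- the pairing with w j
  have hj : ∀ j, (χ + c • ξ) ⁅F c, (w j : L)⁆ = 0 := by
    intro j
    have h1 := congrFun hyM j
    have h2 := congrArg (Polynomial.eval c) h1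
    have h3 : Polynomial.eval c (Matrix.vecMul y M j) =
        ∑ i, (y i).eval c * (χ + c • ξ) ⁅(w i : L), (w j : L)⁆ := by
      change Polynomial.eval c (∑ i, y i * M i j) = _
      rw [Polynomial.eval_finsetSum]
      refine Finset.sum_congr rfl fun i _ => ?_
      rw [Polynomial.eval_mul, hMc]
    have h4 : Polynomial.eval c ((M.det • a) j) = M.det.eval c * (c * ξ ⁅v, (w j : L)⁆) := by
      change Polynomial.eval c (M.det * (Polynomial.X * Polynomial.C (ξ ⁅v, (w j : L)⁆))) = _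
      rw [Polynomial.eval_mul, Polynomial.eval_mul, Polynomial.eval_X, Polynomial.eval_C]
    rw [h3, h4] at h2
    change (χ + c • ξ) ⁅(M.det.eval 0)⁻¹ •
      (M.det.eval c • v + ∑ i, (-(y i)).eval c • (w i : L)), (w j : L)⁆ = 0
    rw [smul_lie, map_smul, add_lie, map_add, hlie, smul_lie, map_smul]
    have h5 : (χ + c • ξ) ⁅v, (w j : L)⁆ = c * ξ ⁅v, (w j : L)⁆ := by
      rw [LinearMap.add_apply, hv (w j : L), zero_add, LinearMap.smul_apply, smul_eq_mul]
    have h6 : ∑ i, (-(y i)).eval c * (χ + c • ξ) ⁅(w i : L), (w j : L)⁆ =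
        - ∑ i, (y i).eval c * (χ + c • ξ) ⁅(w i : L), (w j : L)⁆ := by
      rw [← Finset.sum_neg_distrib]
      refine Finset.sum_congr rfl fun i _ => ?_
      rw [Polynomial.eval_neg, neg_mul]
    rw [h5, h6, h2, smul_eq_mul, smul_eq_mul, add_neg_cancel, mul_zero]
  have hinf : W ⊓ rad (χ + c • ξ) = ⊥ := by
    rw [eq_bot_iff]
    rintro z ⟨hz1, hz2⟩
    exact (Submodule.mem_bot k).2 (hWrad c hc1' z hz1 hz2)
  have hsup : W ⊔ rad (χ + c • ξ) = ⊤ := by
    apply Submodule.eq_top_of_finrank_eq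
    have h1 := Submodule.finrank_sup_add_finrank_inf_eq W (rad (χ + c • ξ))
    rw [hinf, finrank_bot, add_zero] at h1
    have h2 := Submodule.finrank_add_eq_of_isCompl hW
    have h3 := Submodule.finrank_le (W ⊔ rad (χ + c • ξ))
    omega
  intro u
  have hu : u ∈ W ⊔ rad (χ + c • ξ) := by
    rw [hsup]
    exact Submodule.mem_top
  obtain ⟨u1, hu1, u2, hu2, rfl⟩ := Submodule.mem_sup.1 hu
  rw [lie_add, map_add, hWtest _ _ hj u1 hu1, lie_comm_zero _ (hu2 _), add_zero]

end Pool.Agent.SkN
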