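import Pool.Agent.Lib.SkN.Defs

/-!
# Module FamB: the ring of polynomial families (about 200 lines)

`hD : FamD b s Y f χ`.  `mkP b s Y g i = ∑ ε, (g ε).eval (s i) • wp b (Y i) (wd ε)`.

`inP_word`: normal forms: `SkF.red b f χ 0` gives `p` with `NF b f χ 0 w (p w)`; `Sys f χ (s i) (Y i)` is `Sys f (χ + 0 • 0) (s i) (Y i)`, so
`wp b (Y i) w = ∑ ε, ev (s i) 0 (p w ε) • wp b (Y i) (wd ε)` and `ev a 0 P = (P.map (Polynomial.evalRingHom 0)).eval a` is a polynomial in `a` (definition of `ev`).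
`inP_mul`: `wp w * wp w' = wp (w ++ w')` (`wp_append`), expand both sums, collect the polynomials
`∑_{ε,ε'} g ε * h ε' * P_{wd ε ++ wd ε'} β`.
`inP_Y`: `Y i x = ∑_j b.repr x j • wp b (Y i) [j]`.   `inP_succ`: `s^(j+e) g = s^j (s^e g)`, i.e. multiply the polynomials by `X^e`.
`mkP_inj`: if `mkP g i = mkP h i` for all `i` then by `hD.ind` `(g ε).eval (s i) = (h ε).eval (s i)` for all `i`, infinitely many values (`hD.inf`), so `g ε = h ε`
(`Polynomial.eq_of_infinite_eval_eq`).
`inP_div`: `z` of `InP 0` with coordinates `g` and also `InP j` with coordinates `h`: `g = X^j * h`.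
-/

set_option autoImplicit false
set_option linter.unusedSectionVars false

namespace Pool.Agent.SkN

open Module Polynomial

open Pool.Agent.SkS (Rst Frz Nondeg Rep Irr UU)

open Pool.Agent.SkF (Sys wp wd)

variable {k L : Type} [Field k] [CharP k 2] [LieRing L] [LieAlgebra k L] {n : ℕ}
  {b : Basis (Fin n) k L} {ι : Type} {s : ι → k} {A : ι → Type} [∀ i, Ring (A i)]
  [∀ i, Algebra k (A i)] {Y : ∀ i, L →ₗ[k] A i} {f : L → L} {χ : Dual k L}

private lemma fb_mul (g : (Fin n → Fin 2) → k[X]) (q : k[X]) (i : ι) :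
    mkP b s Y (fun ε => q * g ε) i = q.eval (s i) • mkP b s Y g i := by
  unfold mkP
  rw [Finset.smul_sum]
  refine Finset.sum_congr rfl fun ε _ => ?_
  rw [Polynomial.eval_mul, smul_smul]

private lemma fb_add (g h : (Fin n → Fin 2) → k[X]) (i : ι) :
    mkP b s Y (fun ε => g ε + h ε) i = mkP b s Y g i + mkP b s Y h i := by
  unfold mkP
  rw [← Finset.sum_add_distrib]
  refine Finset.sum_congr rfl fun ε _ => ?_
  rw [Polynomial.eval_add, add_smul]

theorem inP_word (hD : FamD b s Y f χ) (w : List (Fin n)) :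
    InP b s Y 0 (fun i => wp b (Y i) w) := by
  obtain ⟨p, hp⟩ := Pool.Agent.SkF.red b f χ (0 : Dual k L)
  refine ⟨fun ε => (p w ε).map (Polynomial.evalRingHom 0), fun i => ?_⟩
  have h1 : Sys f (χ + (0 : k) • (0 : Dual k L)) (s i) (Y i) := by
    rw [smul_zero, add_zero]
    exact hD.sys i
  have h2 := hp w (A i) (s i) 0 (Y i) h1
  rw [pow_zero, one_smul]
  exact h2

theorem inP_add {j : ℕ} {z z' : ∀ i, A i} (h : InP b s Y j z) (h' : InP b s Y j z') :
    InP b s Y j (fun i => z i + z' i) := by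
  obtain ⟨g, hg⟩ := h
  obtain ⟨g', hg'⟩ := h'
  refine ⟨fun ε => g ε + g' ε, fun i => ?_⟩
  rw [fb_add, smul_add, ← hg i, ← hg' i]

theorem inP_smul {j : ℕ} {z : ∀ i, A i} (q : k[X]) (h : InP b s Y j z) :
    InP b s Y j (fun i => q.eval (s i) • z i) := by
  obtain ⟨g, hg⟩ := h
  refine ⟨fun ε => q * g ε, fun i => ?_⟩
  show q.eval (s i) • z i = _
  rw [fb_mul, hg i, smul_comm]

theorem inP_zero (j : ℕ) : InP b s Y j (fun _ => 0) := by
  refine ⟨fun _ => 0, fun i => ?_⟩
  unfold mkP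
  simp

theorem inP_scalar (hD : FamD b s Y f χ) (q : k[X]) :
    InP b s Y 0 (fun i => algebraMap k (A i) (q.eval (s i))) := by
  have h := inP_smul q (inP_word hD [])
  have e : (fun i => algebraMap k (A i) (q.eval (s i))) =
      fun i => q.eval (s i) • wp b (Y i) [] := by
    funext i
    rw [Pool.Agent.SkF.wp_nil, Algebra.algebraMap_eq_smul_one]
  rw [e]
  exact h

private lemma fb_sum {j : ℕ} {T : Type} (S : Finset T) (z : T → ∀ i, A i)
    (h : ∀ t ∈ S, InP b s Y j (z t)) : InP b s Y j (fun i => ∑ t ∈ S, z t i) := by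
  classical
  induction S using Finset.induction_on with
  | empty =>
    simp only [Finset.sum_empty]
    exact inP_zero j
  | insert a S ha ih =>
    have e : (fun i => ∑ t ∈ insert a S, z t i) = fun i => z a i + ∑ t ∈ S, z t i := by
      funext i
      rw [Finset.sum_insert ha]
    rw [e]
    exact inP_add (h a (Finset.mem_insert_self _ _))
      (ih fun t ht => h t (Finset.mem_insert_of_mem ht))

theorem inP_Y (hD : FamD b s Y f χ) (x : L) : InP b s Y 0 (fun i => Y i x) := by
  have e : (fun i => Y i x) =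
      fun i => ∑ j : Fin n, (Polynomial.C (b.repr x j)).eval (s i) • wp b (Y i) [j] := by
    funext i
    conv_lhs => rw [← b.sum_repr x]
    rw [map_sum]
    refine Finset.sum_congr rfl fun j _ => ?_
    rw [map_smul, Polynomial.eval_C]
    congr 1
    simp [wp]
  rw [e]
  exact fb_sum Finset.univ _ fun j _ => inP_smul _ (inP_word hD [j])

private lemma fb_s {j e : ℕ} {z : ∀ i, A i} (h : InP b s Y j z) :
    InP b s Y (j + e) (fun i => s i ^ e • z i) := by
  obtain ⟨g, hg⟩ := h
  refine ⟨g, fun i => ?_⟩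
  show s i ^ e • z i = _
  rw [hg i, smul_smul, ← pow_add, add_comm e j]

private lemma fb_mul0 (hD : FamD b s Y f χ) (g h : (Fin n → Fin 2) → k[X]) :
    InP b s Y 0 (fun i => mkP b s Y g i * mkP b s Y h i) := by
  have e : (fun i => mkP b s Y g i * mkP b s Y h i) = fun i =>
      ∑ x : (Fin n → Fin 2) × (Fin n → Fin 2),
        (g x.1 * h x.2).eval (s i) • wp b (Y i) (wd x.1 ++ wd x.2) := by
    funext i
    unfold mkP
    rw [Finset.sum_mul_sum, Fintype.sum_prod_type]
    refine Finset.sum_congr rfl fun ε _ => Finset.sum_congr rfl fun ε' _ => ?_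
    rw [Pool.Agent.SkF.wp_append, Polynomial.eval_mul, smul_mul_smul_comm]
  rw [e]
  exact fb_sum Finset.univ _ fun x _ => inP_smul _ (inP_word hD _)

theorem inP_mul (hD : FamD b s Y f χ) {j j' : ℕ} {z z' : ∀ i, A i} (h : InP b s Y j z)
    (h' : InP b s Y j' z') : InP b s Y (j + j') (fun i => z i * z' i) := by
  obtain ⟨g, hg⟩ := h
  obtain ⟨g', hg'⟩ := h'
  have h1 := fb_s (e := j + j') (fb_mul0 hD g g')
  rw [zero_add] at h1
  have e : (fun i => z i * z' i) =
      fun i => s i ^ (j + j') • (mkP b s Y g i * mkP b s Y g' i) := by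
    funext i
    rw [hg i, hg' i, smul_mul_smul_comm, ← pow_add]
  rw [e]
  exact h1

theorem inP_succ {j e : ℕ} {z : ∀ i, A i} (h : InP b s Y (j + e) z) : InP b s Y j z := by
  obtain ⟨g, hg⟩ := h
  refine ⟨fun ε => X ^ e * g ε, fun i => ?_⟩
  rw [fb_mul, hg i, Polynomial.eval_pow, Polynomial.eval_X, smul_smul, ← pow_add]

theorem inP_s {j e : ℕ} {z : ∀ i, A i} (h : InP b s Y j z) :
    InP b s Y (j + e) (fun i => s i ^ e • z i) := by
  exact fb_s h

theorem mkP_inj (hD : FamD b s Y f χ) {g h : (Fin n → Fin 2) → k[X]}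
    (e : ∀ i, mkP b s Y g i = mkP b s Y h i) : g = h := by
  funext ε
  refine Polynomial.eq_of_infinite_eval_eq _ _ (hD.inf.mono ?_)
  rintro _ ⟨i, rfl⟩
  have h1 := Fintype.linearIndependent_iff.mp (hD.ind i)
    (fun ε => (g ε).eval (s i) - (h ε).eval (s i)) (by
      have h2 := e i
      unfold mkP at h2
      simp only [sub_smul]
      rw [Finset.sum_sub_distrib, h2, sub_self]) ε
  exact sub_eq_zero.mp h1

theorem inP_div (hD : FamD b s Y f χ) {j : ℕ} {g : (Fin n → Fin 2) → k[X]}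
    (h : InP b s Y j (mkP b s Y g)) : ∃ g' : (Fin n → Fin 2) → k[X], g = fun ε => X ^ j * g' ε := by
  obtain ⟨g', hg'⟩ := h
  refine ⟨g', mkP_inj hD fun i => ?_⟩
  rw [fb_mul, hg' i, Polynomial.eval_pow, Polynomial.eval_X]

end Pool.Agent.SkN
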