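import Pool.Agent.Lib.SkN.Defs

/-!
# Module FamU: the family `u(L, a^{-2} χ)`, `a ≠ 0` (about 130 lines)

`YU f χ a x = a • uι x + (a⁻¹ * χ x) • 1`.  `Sys f χ a (YU f χ a)`: as in `SkF.sys_of_rep` (Lib/SkF/Conv.lean, the same computation in the algebra `UU f (a^{-2} χ)` instead of `End k V`; `rep_uι` in
Lib/SkS/Basic.lean).
`ind`: `Algebra.adjoin k (range (YU f χ a)) = ⊤` (it contains `uι x = a⁻¹ • (YU x - scalar)`, `adjoin_uι`); `SkF.span_of_nf` (with `SkF.red b f χ 0` and `χ = χ + 0 • 0`): the `2^n` elements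
`wp b (YU f χ a) (wd ε)` span; `SkS.fin_UU`: `finrank = 2^n` (`n = finrank k L`, from the basis: `Module.finrank_eq_card_basis b`), so they are linearly independent
(`linearIndependent_of_top_le_span_of_card_eq_finrank`).  `inf`: an algebraically closed field is infinite; `{a | a ≠ 0}` is infinite.
`cen_UU`: `Good f χ` gives `V, ρ`; the algebra map `Φ : UU f ((1:k)⁻¹^2 • χ) → End k V` with `Φ (uι x) = ρ x` (`RingQuot.liftAlgHom`, `Rep` for `(1⁻¹)^2 • χ = χ`) is surjective (`SkS.burnside`) and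
`finrank (UU ..) = 2^n ≤ (finrank V)^2 = finrank (End k V)`, so it is injective; if `u` commutes with all `YU y` then `Φ u` commutes with all `ρ y`, so `Φ u` is a scalar (`SkS.schur`), and `u` is a scalar.
-/

set_option autoImplicit false
set_option linter.unusedSectionVars false

namespace Pool.Agent.SkN

open Module Polynomial

open Pool.Agent.SkS (Rst Frz Nondeg Rep Irr UU uι)

open Pool.Agent.SkF (Sys wp wd)

variable {k L : Type} [Field k] [CharP k 2] [IsAlgClosed k] [LieRing L] [LieAlgebra k L]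
  [FiniteDimensional k L] {n : ℕ}

attribute [local instance 100] LieRing.ofAssociativeRing

omit [CharP k 2] [IsAlgClosed k] [FiniteDimensional k L] in
private lemma FamU_lift {B : Type} [Ring B] [Algebra k B] {f : L → L} {χ : Dual k L}
    {ρ : L →ₗ[k] B} (hρ : Rep f χ ρ) : ∃ Φ : UU f χ →ₐ[k] B, ∀ x, Φ (uι f χ x) = ρ x := by
  let θ : L →ₗ⁅k⁆ B :=
    { ρ with
      map_lie' := by
        intro x y
        rw [LieRing.of_associative_ring_bracket]
        exact hρ.lie x y }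
  have hθ : ∀ x, θ x = ρ x := fun _ => rfl
  refine ⟨RingQuot.liftAlgHom k ⟨UniversalEnvelopingAlgebra.lift k θ, ?_⟩, ?_⟩
  · rintro a b ⟨x, rfl, rfl⟩
    rw [map_sub, map_pow, UniversalEnvelopingAlgebra.lift_ι_apply,
      UniversalEnvelopingAlgebra.lift_ι_apply, AlgHom.commutes, sub_eq_iff_eq_add', sq, hθ, hθ]
    exact hρ.sq x
  · intro x
    change RingQuot.liftAlgHom k _ (RingQuot.mkAlgHom k _ (UniversalEnvelopingAlgebra.ι k x)) = ρ x
    rw [RingQuot.liftAlgHom_mkAlgHom_apply, UniversalEnvelopingAlgebra.lift_ι_apply, hθ]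

omit [CharP k 2] [IsAlgClosed k] [FiniteDimensional k L] in
private lemma YU_apply (f : L → L) (χ : Dual k L) (a : k) (x : L) :
    YU f χ a x = a • uι f ((a⁻¹) ^ 2 • χ) x + (a⁻¹ * χ x) • (1 : UU f ((a⁻¹) ^ 2 • χ)) := by
  simp [YU, LinearMap.toSpanSingleton_apply]

omit [IsAlgClosed k] [FiniteDimensional k L] in
private lemma FamU_two {A : Type} [AddCommGroup A] [Module k A] (z : A) : z + z = 0 := by
  have h : (2 : k) = 0 := CharTwo.two_eq_zero
  rw [← two_smul k z, h, zero_smul]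

omit [IsAlgClosed k] [FiniteDimensional k L] in
private lemma FamU_sys (f : L → L) (χ : Dual k L) {a : k} (ha : a ≠ 0) :
    Sys f χ a (YU f χ a) := by
  have hk : ∀ c : k, c + c = 0 := fun c => CharTwo.add_self_eq_zero c
  have hρ := Pool.Agent.SkS.rep_uι f ((a⁻¹) ^ 2 • χ)
  refine ⟨fun x => ?_, fun x y => ?_⟩
  · have h1 : YU f χ a x * YU f χ a x =
        (a * a) • (uι f ((a⁻¹) ^ 2 • χ) x * uι f ((a⁻¹) ^ 2 • χ) x) +
        ((a * (a⁻¹ * χ x)) • uι f ((a⁻¹) ^ 2 • χ) x + (a * (a⁻¹ * χ x)) • uι f ((a⁻¹) ^ 2 • χ) x) +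
        ((a⁻¹ * χ x) * (a⁻¹ * χ x)) • (1 : UU f ((a⁻¹) ^ 2 • χ)) := by
      rw [YU_apply]
      simp only [add_mul, mul_add, smul_mul_assoc, mul_smul_comm, mul_one, one_mul]
      module
    have h2 : a • YU f χ a (f x) + algebraMap k (UU f ((a⁻¹) ^ 2 • χ)) (χ (f x)) =
        (a * a) • uι f ((a⁻¹) ^ 2 • χ) (f x) := by
      rw [YU_apply, smul_add, smul_smul, smul_smul, Algebra.algebraMap_eq_smul_one, add_assoc,
        ← add_smul, ← mul_assoc, mul_inv_cancel₀ ha, one_mul, hk, zero_smul, add_zero]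
    rw [h1, h2, FamU_two (k := k), add_zero, hρ.sq x, smul_add, Algebra.algebraMap_eq_smul_one,
      smul_smul, add_assoc, ← add_smul]
    have h3 : a * a * ((((a⁻¹) ^ 2 • χ) x) ^ 2) + a⁻¹ * χ x * (a⁻¹ * χ x) = 0 := by
      rw [LinearMap.smul_apply, smul_eq_mul]
      have h4 : a * a * ((a⁻¹ ^ 2 * χ x) ^ 2) = a⁻¹ * χ x * (a⁻¹ * χ x) := by
        field_simp
      rw [h4, hk]
    rw [h3, zero_smul, add_zero]
  · have h1 : YU f χ a x * YU f χ a y + YU f χ a y * YU f χ a x =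
        (a * a) • (uι f ((a⁻¹) ^ 2 • χ) x * uι f ((a⁻¹) ^ 2 • χ) y +
          uι f ((a⁻¹) ^ 2 • χ) y * uι f ((a⁻¹) ^ 2 • χ) x) +
        ((a * (a⁻¹ * χ y)) • uι f ((a⁻¹) ^ 2 • χ) x + (a * (a⁻¹ * χ y)) • uι f ((a⁻¹) ^ 2 • χ) x) +
        ((a * (a⁻¹ * χ x)) • uι f ((a⁻¹) ^ 2 • χ) y + (a * (a⁻¹ * χ x)) • uι f ((a⁻¹) ^ 2 • χ) y) +
        (((a⁻¹ * χ x) * (a⁻¹ * χ y)) • (1 : UU f ((a⁻¹) ^ 2 • χ)) +
          ((a⁻¹ * χ x) * (a⁻¹ * χ y)) • (1 : UU f ((a⁻¹) ^ 2 • χ))) := by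
      rw [YU_apply, YU_apply]
      simp only [add_mul, mul_add, smul_mul_assoc, mul_smul_comm, mul_one, one_mul]
      module
    have h2 : a • YU f χ a ⁅x, y⁆ + algebraMap k (UU f ((a⁻¹) ^ 2 • χ)) (χ ⁅x, y⁆) =
        (a * a) • uι f ((a⁻¹) ^ 2 • χ) ⁅x, y⁆ := by
      rw [YU_apply, smul_add, smul_smul, smul_smul, Algebra.algebraMap_eq_smul_one, add_assoc,
        ← add_smul, ← mul_assoc, mul_inv_cancel₀ ha, one_mul, hk, zero_smul, add_zero]
    have h3 : uι f ((a⁻¹) ^ 2 • χ) x * uι f ((a⁻¹) ^ 2 • χ) y +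
        uι f ((a⁻¹) ^ 2 • χ) y * uι f ((a⁻¹) ^ 2 • χ) x = uι f ((a⁻¹) ^ 2 • χ) ⁅x, y⁆ := by
      rw [hρ.lie x y, sub_eq_add_neg]
      congr 1
      exact eq_neg_of_add_eq_zero_left (FamU_two (k := k) _)
    rw [h1, h2, FamU_two (k := k), FamU_two (k := k), FamU_two (k := k), add_zero, add_zero,
      add_zero, h3]

omit [IsAlgClosed k] [FiniteDimensional k L] in
private lemma FamU_adjoin (f : L → L) (χ : Dual k L) {a : k} (ha : a ≠ 0) :
    Algebra.adjoin k (Set.range (YU f χ a)) = ⊤ := by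
  rw [eq_top_iff, ← Pool.Agent.SkS.adjoin_uι f ((a⁻¹) ^ 2 • χ), Algebra.adjoin_le_iff]
  rintro _ ⟨x, rfl⟩
  have h1 : uι f ((a⁻¹) ^ 2 • χ) x =
      a⁻¹ • (YU f χ a x - (a⁻¹ * χ x) • (1 : UU f ((a⁻¹) ^ 2 • χ))) := by
    rw [YU_apply, add_sub_cancel_right, smul_smul, inv_mul_cancel₀ ha, one_smul]
  rw [h1]
  have h2 : YU f χ a x ∈ Algebra.adjoin k (Set.range (YU f χ a)) :=
    Algebra.subset_adjoin ⟨x, rfl⟩
  exact Subalgebra.smul_mem _ (Subalgebra.sub_mem _ h2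
    (Subalgebra.smul_mem _ (Subalgebra.one_mem _) _)) _

theorem famD_UU {f : L → L} (hf : Frz k f) (χ : Dual k L) (b : Basis (Fin n) k L) :
    FamD b (fun a : {a : k // a ≠ 0} => (a : k)) (fun a : {a : k // a ≠ 0} => YU f χ (a : k)) f χ := by
  constructor
  · exact fun i => i.2
  · rw [Subtype.range_coe_subtype]
    have h1 : ({0}ᶜ : Set k).Infinite := (Set.finite_singleton (0 : k)).infinite_compl
    refine h1.mono ?_
    intro a ha
    exact ha
  · exact fun i => FamU_sys f χ i.2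
  · intro i
    obtain ⟨p, hp⟩ := Pool.Agent.SkF.red b f χ 0
    obtain ⟨h1, h2⟩ := Pool.Agent.SkS.fin_UU hf (((i : k)⁻¹) ^ 2 • χ)
    have hsys : Sys f (χ + (0 : k) • (0 : Dual k L)) (i : k) (YU f χ (i : k)) := by
      rw [zero_smul, add_zero]
      exact FamU_sys f χ i.2
    have hspan := Pool.Agent.SkF.span_of_nf hp hsys (FamU_adjoin f χ i.2)
    refine linearIndependent_of_top_le_span_of_card_eq_finrank hspan.ge ?_
    rw [h2, Fintype.card_fun, Fintype.card_fin, Fintype.card_fin, Module.finrank_eq_card_basis b,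
      Fintype.card_fin]

theorem cen_UU {f : L → L} (hf : Frz k f) {χ : Dual k L} (hG : Good f χ)
    (u : UU f (((1 : k)⁻¹) ^ 2 • χ)) (hu : ∀ y : L, u * YU f χ 1 y = YU f χ 1 y * u) :
    ∃ c : k, u = algebraMap k (UU f (((1 : k)⁻¹) ^ 2 • χ)) c := by
  obtain ⟨V, i1, i2, i3, ρ, hρ, hI, hd⟩ := hG
  have hρ' : Rep f (((1 : k)⁻¹) ^ 2 • χ) ρ := by
    rw [inv_one, one_pow, one_smul]
    exact hρ
  obtain ⟨Φ, hΦ⟩ := FamU_lift hρ'
  obtain ⟨h1, h2⟩ := Pool.Agent.SkS.fin_UU hf (((1 : k)⁻¹) ^ 2 • χ)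
  have hsurj : Function.Surjective Φ := by
    rw [← AlgHom.range_eq_top, eq_top_iff, ← Pool.Agent.SkS.burnside ρ hI, Algebra.adjoin_le_iff]
    rintro _ ⟨x, rfl⟩
    exact ⟨uι f _ x, hΦ x⟩
  have hsurj' : Function.Surjective Φ.toLinearMap := hsurj
  have h5 : finrank k (End k V) ≤ finrank k (UU f (((1 : k)⁻¹) ^ 2 • χ)) :=
    LinearMap.finrank_le_finrank_of_surjective hsurj'
  have h6 : finrank k (UU f (((1 : k)⁻¹) ^ 2 • χ)) = finrank k (End k V) := by
    refine le_antisymm ?_ h5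
    rw [h2, finrank_linearMap, ← sq]
    exact hd
  have hinj : Function.Injective Φ.toLinearMap :=
    (LinearMap.injective_iff_surjective_of_finrank_eq_finrank h6).2 hsurj'
  have hcomm : ∀ x, Φ u * ρ x = ρ x * Φ u := by
    intro x
    have h7 := hu x
    rw [YU_apply, one_smul, mul_add, add_mul, mul_smul_comm, smul_mul_assoc, mul_one, one_mul,
      add_left_inj] at h7
    have h8 := congrArg Φ h7
    rw [map_mul, map_mul, hΦ] at h8
    exact h8
  obtain ⟨c, hc⟩ := Pool.Agent.SkS.schur ρ hI (Φ u) hcomm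
  refine ⟨c, hinj ?_⟩
  rw [AlgHom.toLinearMap_apply, AlgHom.toLinearMap_apply, hc, AlgHom.commutes]

end Pool.Agent.SkN
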