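import Pool.Agent.Lib.SkN.Defs

/-!
# Module FrobG: the Frobenius case (about 30 lines)

Copy the proof of `SkF.nondeg_of_simple` (Lib/SkF/Main.lean); the simplicity of `u(L, χ₀)` is used there only through `exists_simple`, whose conclusion follows from `Good f χ`
(`SkF.sys_of_rep χ one_ne_zero`, as in the proof of `exists_simple`, Lib/SkF/Conv.lean).
-/

set_option autoImplicit false
set_option linter.unusedSectionVars false

namespace Pool.Agent.SkN

open Module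

open Pool.Agent.SkS (Rst Frz Nondeg Rep Irr UU)

open Pool.Agent.SkF

variable {k L : Type} [Field k] [CharP k 2] [IsAlgClosed k] [LieRing L] [LieAlgebra k L]
  [FiniteDimensional k L]

theorem nondeg_frob {f : L → L} (hf : Frz k f) (χ₁ : Dual k L) (h₁ : Nondeg χ₁) (χ₀ : Dual k L)
    (hG : Good f χ₀) : Nondeg χ₀ := by
  intro z hB
  by_contra hz
  let b := Module.finBasis k L
  obtain ⟨p, hp⟩ := red b f χ₀ χ₁
  have hS := good_infinite χ₀ χ₁ h₁
  have h1 : ∀ τ ∈ {τ : k | Nondeg (χ₀ + τ • χ₁)}, ∀ a : k, ev a τ (PM p).det ≠ 0 := by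
    intro τ hτ a
    obtain ⟨V, i1, i2, i3, Y, hY, hI, hd⟩ := exists_all hf (χ₀ + τ • χ₁) hτ a
    obtain ⟨h2, h3⟩ := gen hp hY hI hd
    exact nz hp hY h2 h3
  have h2 : ev 0 0 (PM p).det = 0 := by
    apply zz hp z hz hB _ hS
    intro τ hτ
    obtain ⟨V, i1, i2, i3, Y, hY, hI, hd⟩ := exists_all hf (χ₀ + τ • χ₁) hτ 0
    obtain ⟨h2, h3⟩ := gen hp hY hI hd
    exact ⟨V, i1, i2, Y, hY, h2⟩
  have h3 := const_of_ne (PM p).det _ hS h1
  obtain ⟨V, i1, i2, i3, ρ, hρ, hI', hd⟩ := hG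
  have hρ' : Rep f (((1 : k)⁻¹) ^ 2 • χ₀) ρ := by
    rw [inv_one, one_pow, one_smul]
    exact hρ
  obtain ⟨Y, hY, hI⟩ := sys_of_rep χ₀ one_ne_zero hρ' hI'
  have hY' : Sys f (χ₀ + (0 : k) • χ₁) 1 Y := by rw [zero_smul, add_zero]; exact hY
  obtain ⟨h4, h5⟩ := gen hp hY' hI hd
  exact nz hp hY' h4 h5 (h3.trans h2)

end Pool.Agent.SkN
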