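import Pool.Agent.Lib.SkN.Defs
import Pool.Agent.Lib.SkS.Burn

/-!
# Module Inv: nonzero invariants of a restricted subalgebra (about 200 lines)

`ρ` is an irreducible representation with `2^n ≤ (dim V)^2`, `E` a restricted subalgebra with `χ(E) = 0`, `m = dim E`.  Then there is `v ≠ 0` with `ρ(E) v = 0`.

PROOF.  Let `f_E = fs f E hfE : E → E`; `Frz k f_E` (from `frz_of_rst`, module Frz, and `Rst k f_E`, which is clear), so by `SkS.fin_UU` (Lib/SkS/Bridge.lean)
the algebra `u = UU f_E 0` has `finrank k u = 2^m` (`m = finrank k E`).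
(1) Augmentation: `RingQuot.liftAlgHom` of the lift of `0 : E → k` gives `ε : u →ₐ[k] k` with `ε (uι e) = 0`.  The kernel `K` of `ε` (a two-sided ideal,
as a `k`-subspace) has dimension `2^m - 1`.
(2) The map `Φ : u →ₐ[k] End k V` with `Φ (uι e) = ρ e` (`RingQuot.liftAlgHom` of `UniversalEnvelopingAlgebra.lift k`; relations: `ρ e * ρ e = ρ (f e) + χ(e)^2`,
`χ e = 0`).
(3) Let `T0 = K.map Φ` (a subspace of `End k V`), `finrank T0 ≤ 2^m - 1`; `t * ρ e ∈ T0` for `t ∈ T0`, and `ρ e ∈ T0`; also for `t ∈ Φ(u)`: `t * ρ e ∈ T0`.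
(4) Let `D` be a complement of `E` in `L` with basis `y_1, …, y_s`, `s = n - m`, and `x_1, …, x_m` a basis of `E`.  By `SkS.span_E` (Lib/SkS/Span.lean) for the
spanning family `Fin.append y x` and `SkS.burnside` (adjoin = ⊤) the products `E y δ * E x ε` span `End k V` (`E_add` in Lib/SkS/Cnt.lean is the factorisation of `E (Fin.append ..)`: private, copy it;
`span_append` there is private too, copy it).
(5) Let `T = ∑_δ (E y δ) * T0` (the span of the `E y δ * t`, `t ∈ T0`): `finrank T ≤ 2^s (2^m - 1) < 2^n`.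
(6) Suppose `ρ(E)` has no common kernel vector.  The set `J = {a : End k V | a ∈ T …}`: every product `a * ρ e` with `a ∈ End k V`, `e ∈ E` is in `T`
(by (4): `a` is a combination of `E y δ * E x ε`, `E x ε ∈ Φ(u)`, (3)).  The left ideal `I0` generated by `ρ(E)`, i.e. the span of the `a * ρ e`, is contained in `T`.
If the common kernel of `ρ(E)` is `0` then the span of the `a * ρ e` is all of `End k V`: let `x_1..x_m` be the basis of `E`; the map `V → (Fin m → V)`,
`v ↦ (ρ(x_i) v)_i` is injective, so it has a linear left inverse `(w_i) ↦ ∑ a_i w_i`, i.e. `1 = ∑ a_i * ρ (x_i)` (`LinearMap.exists_leftInverse_of_injective`), and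
`a = ∑ (a * a_i) * ρ(x_i)`.  So `End k V ≤ T`, `(dim V)^2 ≤ 2^s (2^m - 1) < 2^n`, contradiction.
-/

set_option autoImplicit false
set_option linter.unusedSectionVars false

namespace Pool.Agent.SkN

open Module

open Pool.Agent.SkS (Rst Frz Nondeg Rep Irr UU rs fs uι)

variable {k L : Type} [Field k] [CharP k 2] [LieRing L] [LieAlgebra k L] [FiniteDimensional k L]

private lemma E_map {A B : Type} [Ring A] [Ring B] (φ : A →+* B) {n : ℕ} (x : Fin n → A)
    (ε : Fin n → Fin 2) : φ (Pool.Agent.SkS.E x ε) = Pool.Agent.SkS.E (fun i => φ (x i)) ε := by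
  unfold Pool.Agent.SkS.E
  rw [map_list_prod, List.map_ofFn]
  congr 2
  funext i
  simp

private lemma E_nul {F : Type} [Field F] {n : ℕ} (ε : Fin n → Fin 2) (hε : ε ≠ 0) :
    Pool.Agent.SkS.E (fun _ : Fin n => (0 : F)) ε = 0 := by
  unfold Pool.Agent.SkS.E
  apply List.prod_eq_zero
  rw [List.mem_ofFn]
  obtain ⟨i, hi⟩ := Function.ne_iff.1 hε
  refine ⟨i, ?_⟩
  have h1 : (ε i : ℕ) ≠ 0 := by
    intro h
    apply hi
    ext
    simpa using h
  exact zero_pow h1

private lemma E_zero {A : Type} [Ring A] {n : ℕ} (x : Fin n → A) :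
    Pool.Agent.SkS.E x (0 : Fin n → Fin 2) = 1 := by
  unfold Pool.Agent.SkS.E
  apply List.prod_eq_one
  intro a ha
  rw [List.mem_ofFn] at ha
  obtain ⟨i, rfl⟩ := ha
  simp

private lemma E_add {A : Type} [Ring A] {d s : ℕ} (x : Fin (d + s) → A) (ε : Fin (d + s) → Fin 2) :
    Pool.Agent.SkS.E x ε =
      Pool.Agent.SkS.E (fun i => x (Fin.castAdd s i)) (fun i => ε (Fin.castAdd s i)) *
      Pool.Agent.SkS.E (fun i => x (Fin.natAdd d i)) (fun i => ε (Fin.natAdd d i)) := by
  unfold Pool.Agent.SkS.E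
  rw [List.ofFn_add, List.prod_append]
  rfl

private lemma E_mem {A : Type} [Ring A] [Algebra k A] {n : ℕ} (x : Fin n → A) (ε : Fin n → Fin 2)
    (S : Subalgebra k A) (hx : ∀ i, x i ∈ S) : Pool.Agent.SkS.E x ε ∈ S := by
  unfold Pool.Agent.SkS.E
  apply Subalgebra.list_prod_mem
  intro a ha
  rw [List.mem_ofFn] at ha
  obtain ⟨i, rfl⟩ := ha
  exact S.pow_mem (hx i) _

private lemma span_append {d s : ℕ} (D C : Submodule k L) (hDC : IsCompl D C)
    (x : Basis (Fin d) k D) (y : Basis (Fin s) k C) :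
    Submodule.span k (Set.range (Fin.append (fun i => (x i : L)) (fun j => (y j : L)))) = ⊤ := by
  rw [eq_top_iff, ← hDC.sup_eq_top]
  apply sup_le
  · intro v hv
    have h1 := x.mem_span ⟨v, hv⟩
    have h2 := Submodule.mem_map_of_mem (f := D.subtype) h1
    rw [Submodule.map_span] at h2
    refine Submodule.span_mono ?_ h2
    rintro _ ⟨_, ⟨i, rfl⟩, rfl⟩
    exact ⟨Fin.castAdd s i, by simp⟩
  · intro v hv
    have h1 := y.mem_span ⟨v, hv⟩
    have h2 := Submodule.mem_map_of_mem (f := C.subtype) h1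
    rw [Submodule.map_span] at h2
    refine Submodule.span_mono ?_ h2
    rintro _ ⟨_, ⟨i, rfl⟩, rfl⟩
    exact ⟨Fin.natAdd d i, by simp⟩

/-- the family with values in `A × k`, second component zero -/
private def aug {A : Type} [Ring A] [Algebra k A] (ρ : L →ₗ[k] A) (K : LieSubalgebra k L) :
    K →ₗ[k] A × k := LinearMap.prod (ρ ∘ₗ K.toSubmodule.subtype) 0

private lemma aug_rep {A : Type} [Ring A] [Algebra k A] {f : L → L} {χ : Dual k L}
    {ρ : L →ₗ[k] A} (hρ : Rep f χ ρ) (K : LieSubalgebra k L) (hfK : ∀ e ∈ K, f e ∈ K)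
    (hχ : ∀ e ∈ K, χ e = 0) : Rep (fs f K hfK) (0 : Dual k K) (aug ρ K) := by
  constructor
  · intro x y
    refine Prod.ext ?_ ?_
    · exact hρ.lie x y
    · simp [aug]
  · intro x
    refine Prod.ext ?_ ?_
    · have := hρ.sq (x : L)
      rw [hχ x x.2, zero_pow two_ne_zero, map_zero, add_zero] at this
      have h2 : (algebraMap k (A × k) ((0 : Dual k K) x ^ 2)).1 = 0 := by simp
      rw [Prod.fst_add, h2, add_zero]
      exact this
    · simp [aug]

private lemma aug_mem {A : Type} [Ring A] [Algebra k A] {f : L → L} {χ : Dual k L}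
    {ρ : L →ₗ[k] A} (hρ : Rep f χ ρ) (K : LieSubalgebra k L) (hfK : ∀ e ∈ K, f e ∈ K)
    (hχ : ∀ e ∈ K, χ e = 0) {m : ℕ} (x : Basis (Fin m) k K) (s : A × k)
    (hs : s ∈ Algebra.adjoin k (Set.range (aug ρ K))) (hs2 : s.2 = 0) :
    s.1 ∈ Submodule.span k (Set.range (fun ε : {ε : Fin m → Fin 2 // ε ≠ 0} =>
      Pool.Agent.SkS.E (fun i => ρ (x i : L)) ε.1)) := by
  have h1 := Pool.Agent.SkS.span_E (aug ρ K) (aug_rep hρ K hfK hχ) x x.span_eq
  have h2 := h1 hs
  rw [Submodule.mem_span_range_iff_exists_fun] at h2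
  obtain ⟨c, hc⟩ := h2
  have hfst : ∀ ε, (Pool.Agent.SkS.E (fun i => aug ρ K (x i)) ε).1
      = Pool.Agent.SkS.E (fun i => ρ (x i : L)) ε := by
    intro ε
    exact E_map (RingHom.fst A k) _ ε
  have hsnd : ∀ ε, (Pool.Agent.SkS.E (fun i => aug ρ K (x i)) ε).2
      = Pool.Agent.SkS.E (fun _ : Fin m => (0 : k)) ε := by
    intro ε
    exact E_map (RingHom.snd A k) _ ε
  have hc0 : c 0 = 0 := by
    have h3 := congrArg Prod.snd hc
    rw [Prod.snd_sum, hs2, Finset.sum_eq_single 0] at h3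
    · rw [Prod.smul_snd, hsnd, E_zero, smul_eq_mul, mul_one] at h3
      exact h3
    · intro ε _ hε
      rw [Prod.smul_snd, hsnd, E_nul ε hε, smul_zero]
    · intro h
      exact absurd (Finset.mem_univ _) h
  have h4 := congrArg Prod.fst hc
  rw [Prod.fst_sum] at h4
  rw [← h4]
  refine Submodule.sum_mem _ fun ε _ => ?_
  rw [Prod.smul_fst, hfst]
  by_cases hε : ε = 0
  · rw [hε, hc0, zero_smul]
    exact Submodule.zero_mem _
  · exact Submodule.smul_mem _ _ (Submodule.subset_span ⟨⟨ε, hε⟩, rfl⟩)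

theorem exists_inv [IsAlgClosed k] {f : L → L} (hf : Rst k f) {χ : Dual k L} {V : Type}
    [AddCommGroup V] [Module k V] [FiniteDimensional k V] {ρ : L →ₗ[k] End k V}
    (hρ : Rep f χ ρ) (hI : Irr ρ) (hd : 2 ^ finrank k L ≤ finrank k V ^ 2)
    (E : LieSubalgebra k L) (hfE : ∀ e ∈ E, f e ∈ E) (hχ : ∀ e ∈ E, χ e = 0) :
    ∃ v : V, v ≠ 0 ∧ ∀ e ∈ E, ρ e v = 0 := by
  by_contra hcon
  push Not at hcon
  have hburn := Pool.Agent.SkS.burnside ρ hI
  obtain ⟨C, hC⟩ := Submodule.exists_isCompl E.toSubmodule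
  let x : Basis (Fin (finrank k E)) k E := Module.finBasis k E
  let y := Module.finBasis k C
  set m := finrank k E with hm
  set s := finrank k C with hs
  set T0 : Submodule k (End k V) := Submodule.span k
    (Set.range (fun ε : {ε : Fin m → Fin 2 // ε ≠ 0} =>
      Pool.Agent.SkS.E (fun i => ρ (x i : L)) ε.1)) with hT0
  have hT0r : finrank k T0 ≤ 2 ^ m - 1 := by
    have h1 := finrank_range_le_card (R := k) (fun ε : {ε : Fin m → Fin 2 // ε ≠ 0} =>
      Pool.Agent.SkS.E (fun i => ρ (x i : L)) ε.1)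
    rw [Set.finrank] at h1
    refine h1.trans (le_of_eq ?_)
    rw [Fintype.card_subtype_compl, Fintype.card_fun, Fintype.card_fin, Fintype.card_fin,
      Fintype.card_subtype_eq]
  have hT0m : ∀ (ε : Fin m → Fin 2) (e : L), e ∈ E →
      Pool.Agent.SkS.E (fun i => ρ (x i : L)) ε * ρ e ∈ T0 := by
    intro ε e he
    have h1 : Pool.Agent.SkS.E (fun i => aug ρ E (x i)) ε * aug ρ E ⟨e, he⟩
        ∈ Algebra.adjoin k (Set.range (aug ρ E)) :=
      Subalgebra.mul_mem _ (E_mem _ ε _ fun i => Algebra.subset_adjoin ⟨x i, rfl⟩)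
        (Algebra.subset_adjoin ⟨⟨e, he⟩, rfl⟩)
    have h2 := aug_mem hρ E hfE hχ x _ h1 (by simp [aug])
    have h3 : (Pool.Agent.SkS.E (fun i => aug ρ E (x i)) ε).1
        = Pool.Agent.SkS.E (fun i => ρ (x i : L)) ε :=
      E_map (RingHom.fst (End k V) k) _ ε
    rw [Prod.fst_mul, h3] at h2
    exact h2
  let Φ : ((Fin s → Fin 2) → T0) →ₗ[k] End k V :=
    ∑ δ : Fin s → Fin 2,
      (LinearMap.mulLeft k (Pool.Agent.SkS.E (fun j => ρ (y j : L)) δ)) ∘ₗ
        (T0.subtype ∘ₗ (LinearMap.proj δ))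
  have hΦ : ∀ (δ : Fin s → Fin 2) (t : End k V), t ∈ T0 →
      Pool.Agent.SkS.E (fun j => ρ (y j : L)) δ * t ∈ LinearMap.range Φ := by
    intro δ t ht
    refine ⟨Pi.single δ ⟨t, ht⟩, ?_⟩
    simp only [Φ, LinearMap.coe_sum, Finset.sum_apply, LinearMap.comp_apply, LinearMap.proj_apply]
    rw [Finset.sum_eq_single δ]
    · simp
    · intro b _ hb
      rw [Pi.single_eq_of_ne hb]
      simp
    · intro h
      exact absurd (Finset.mem_univ _) h
  have hall : ∀ (a : End k V) (e : L), e ∈ E → a * ρ e ∈ LinearMap.range Φ := by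
    intro a e he
    have hspan := span_append C E.toSubmodule hC.symm y x
    have h1 := Pool.Agent.SkS.span_E ρ hρ _ hspan
    have h2 : a ∈ Algebra.adjoin k (Set.range ρ) := by rw [hburn]; trivial
    have h3 := h1 h2
    have h4 : Submodule.span k (Set.range (Pool.Agent.SkS.E (fun i =>
        ρ ((Fin.append (fun i => (y i : L)) (fun j => ((x j : E) : L))) i)))) ≤
        (LinearMap.range Φ).comap (LinearMap.mulRight k (ρ e)) := by
      rw [Submodule.span_le]
      rintro _ ⟨ε, rfl⟩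
      rw [SetLike.mem_coe, Submodule.mem_comap, LinearMap.mulRight_apply, E_add, mul_assoc]
      simp only [Fin.append_left, Fin.append_right]
      exact hΦ _ _ (hT0m _ e he)
    exact h4 h3
  have hinj : Function.Injective (LinearMap.pi (fun i : Fin m => ρ (x i : L)) :
      V →ₗ[k] (Fin m → V)) := by
    rw [← LinearMap.ker_eq_bot, LinearMap.ker_eq_bot']
    intro v hv
    by_contra hne
    obtain ⟨e, he, hev⟩ := hcon v hne
    apply hev
    have h1 := x.mem_span ⟨e, he⟩
    have h2 := Submodule.mem_map_of_mem (f := E.toSubmodule.subtype) h1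
    rw [Submodule.map_span] at h2
    have h3 : Submodule.span k (E.toSubmodule.subtype '' Set.range x) ≤
        LinearMap.ker ((LinearMap.applyₗ v) ∘ₗ ρ) := by
      rw [Submodule.span_le]
      rintro _ ⟨_, ⟨i, rfl⟩, rfl⟩
      have h4 := congrFun hv i
      simpa using h4
    exact h3 h2
  obtain ⟨g, hg⟩ := LinearMap.exists_leftInverse_of_injective _
    (LinearMap.ker_eq_bot.2 hinj)
  have htop : (⊤ : Submodule k (End k V)) ≤ LinearMap.range Φ := by
    intro a _
    have h1 : a = ∑ i, (a * (g ∘ₗ LinearMap.single k (fun _ : Fin m => V) i)) * ρ (x i : L) := by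
      ext v
      rw [LinearMap.sum_apply]
      simp only [Module.End.mul_apply, LinearMap.comp_apply]
      rw [← map_sum, ← map_sum]
      congr 1
      have h2 : ∑ i, (LinearMap.single k (fun _ : Fin m => V) i) (ρ (x i : L) v)
          = LinearMap.pi (fun i : Fin m => ρ (x i : L)) v := by
        funext j
        rw [Finset.sum_apply]
        simp [Pi.single_apply]
      rw [h2]
      exact (LinearMap.congr_fun hg v).symm
    rw [h1]
    exact Submodule.sum_mem _ fun i _ => hall _ _ (x i).2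
  have h1 : finrank k (End k V) ≤ finrank k (LinearMap.range Φ) := by
    rw [← finrank_top k (End k V)]
    exact Submodule.finrank_mono htop
  have h2 : finrank k (LinearMap.range Φ) ≤ finrank k ((Fin s → Fin 2) → T0) :=
    LinearMap.finrank_range_le Φ
  have h3 : finrank k ((Fin s → Fin 2) → T0) = 2 ^ s * finrank k T0 := by
    rw [Module.finrank_pi_fintype]
    simp
  have h4 : m + s = finrank k L := Submodule.finrank_add_eq_of_isCompl hC
  rw [finrank_linearMap, ← sq] at h1
  have h5 : finrank k V ^ 2 ≤ 2 ^ s * (2 ^ m - 1) :=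
    (h1.trans h2).trans (h3.le.trans (Nat.mul_le_mul_left _ hT0r))
  have h6 : 2 ^ s * (2 ^ m - 1) < 2 ^ finrank k L := by
    rw [← h4, pow_add, mul_comm (2 ^ m)]
    have h7 : 0 < 2 ^ m := by positivity
    exact Nat.mul_lt_mul_of_pos_left (by omega) (by positivity)
  omega

end Pool.Agent.SkN
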