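import Pool.Agent.Lib.SkN.Defs
import Pool.Agent.Lib.SkS.Tor

/-!
# Module Nil: without toral elements `f` is nilpotent on an abelian restricted subalgebra (about 80 lines)

`N` abelian, stable under `f`, without nonzero toral elements.  Let `v ∈ N`.  If `f^[j] v ≠ 0` for all `j` then `SkS.exists_toral hf v` (Lib/SkS/Tor.lean) gives
`t ≠ 0`, `f t = t`, `t ∈ span (f^[i] v) ≤ N`, contradiction.  So `f^[j+1] v = 0` for some `j`, take the least one: `f^[j] v ≠ 0` (or `v = 0`, clear).  The vectors
`v, f v, …, f^[j] v` are linearly independent: `f` is additive on `N` and `f (a • x) = a^2 • f x`; if `∑_{i ≥ i0} c_i f^[i] v = 0` with `c_{i0} ≠ 0`, apply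
`f^[j - i0]`: `c_{i0}^(2^(j-i0)) • f^[j] v = 0`, contradiction.  So `j + 1 ≤ finrank k L` and `f^[finrank k L] v = 0` (`f 0 = 0`).
-/

set_option autoImplicit false
set_option linter.unusedSectionVars false

namespace Pool.Agent.SkN

open Module

open Pool.Agent.SkS (Rst Frz Nondeg Rep Irr UU)

variable {k L : Type} [Field k] [CharP k 2] [LieRing L] [LieAlgebra k L] [FiniteDimensional k L]

theorem nil_bound [IsAlgClosed k] {f : L → L} (hf : Rst k f) (N : Submodule k L)
    (hab : ∀ x ∈ N, ∀ y ∈ N, ⁅x, y⁆ = 0) (hfN : ∀ x ∈ N, f x ∈ N)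
    (hnt : ∀ t ∈ N, f t = t → t = 0) (v : L) (hv : v ∈ N) : f^[finrank k L] v = 0 := by
  classical
  by_contra hne
  obtain ⟨D, hD⟩ : ∃ D : ℕ → L, D = fun i => f^[i] v := ⟨_, rfl⟩
  have hDi : ∀ i, D i = f^[i] v := fun i => by rw [hD]
  have hDs : ∀ i, f (D i) = D (i + 1) := by
    intro i
    rw [hDi, hDi, Function.iterate_succ_apply']
  have hDN : ∀ i, D i ∈ N := by
    intro i
    induction i with
    | zero => rw [hDi]; exact hv
    | succ i ih => rw [← hDs]; exact hfN _ ih
  have hf0 : f 0 = 0 := by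
    have := hf.add 0 0
    rw [add_zero, lie_self, add_zero] at this
    simpa using this
  have hzero : ∀ i, D i = 0 → ∀ j, i ≤ j → D j = 0 := by
    intro i hi j hij
    induction j, hij using Nat.le_induction with
    | base => exact hi
    | succ j _ ih => rw [← hDs, ih, hf0]
  have hfs : ∀ (a : ℕ → k) (m n : ℕ), f (∑ i ∈ Finset.range n, a i • D (i + m)) =
      ∑ i ∈ Finset.range n, (a i) ^ 2 • D (i + (m + 1)) := by
    intro a m n
    induction n with
    | zero => simpa using hf0
    | succ n ih =>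
      have hmem : ∑ i ∈ Finset.range n, a i • D (i + m) ∈ N :=
        Submodule.sum_mem _ fun i _ => N.smul_mem _ (hDN _)
      rw [Finset.sum_range_succ, Finset.sum_range_succ, hf.add, ih, hf.smul, hDs,
        hab _ hmem _ (N.smul_mem _ (hDN _)), add_zero]
      rfl
  have hfm : ∀ (a : ℕ → k) (n m : ℕ), f^[m] (∑ i ∈ Finset.range n, a i • D i) =
      ∑ i ∈ Finset.range n, (a i) ^ (2 ^ m) • D (i + m) := by
    intro a n m
    induction m with
    | zero => simp
    | succ m ih =>
      rw [Function.iterate_succ_apply', ih, hfs]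
      refine Finset.sum_congr rfl fun i _ => ?_
      rw [← pow_mul, pow_succ]
  have hex : ∃ J, D J = 0 := by
    by_contra hc
    push Not at hc
    obtain ⟨t, ht, ht0, htf⟩ := Pool.Agent.SkS.exists_toral hf v (fun i => by
      rw [← hDi]; exact hc i)
    refine ht0 (hnt t ?_ htf)
    refine (Submodule.span_le (p := N)).2 ?_ ht
    rintro _ ⟨i, rfl⟩
    show f^[i] v ∈ N
    rw [← hDi]
    exact hDN i
  obtain ⟨J, hJ, hJmin⟩ : ∃ J, D J = 0 ∧ ∀ j < J, D j ≠ 0 :=
    ⟨Nat.find hex, Nat.find_spec hex, fun j hj => Nat.find_min hex hj⟩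
  have hJn : finrank k L < J := by
    by_contra hle
    exact hne (by rw [← hDi]; exact hzero J hJ _ (by omega))
  have hli : LinearIndependent k (fun i : Fin J => D i) := by
    rw [Fintype.linearIndependent_iff]
    intro g hg
    by_contra hc
    push Not at hc
    obtain ⟨i1, hi1⟩ := hc
    obtain ⟨a, ha⟩ : ∃ a : ℕ → k, ∀ i : Fin J, a i = g i :=
      ⟨fun i => if h : i < J then g ⟨i, h⟩ else 0, fun i => by simp⟩
    have hsum : ∑ i ∈ Finset.range J, a i • D i = 0 := by
      rw [Finset.sum_range, ← hg]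
      exact Finset.sum_congr rfl fun i _ => by rw [ha]
    have hex2 : ∃ i, i < J ∧ a i ≠ 0 := ⟨i1, i1.2, by rw [ha]; exact hi1⟩
    obtain ⟨i0, ⟨hi0J, hi0⟩, hmin⟩ : ∃ i0, (i0 < J ∧ a i0 ≠ 0) ∧ ∀ j < i0, ¬ (j < J ∧ a j ≠ 0) :=
      ⟨Nat.find hex2, Nat.find_spec hex2, fun j hj => Nat.find_min hex2 hj⟩
    have h1 := hfm a J (J - 1 - i0)
    rw [hsum] at h1
    have h0 : ∀ m, f^[m] 0 = 0 := by
      intro m
      induction m with
      | zero => rfl
      | succ m ih => rw [Function.iterate_succ_apply', ih, hf0]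
    rw [h0, Finset.sum_eq_single i0] at h1
    · have h2 : i0 + (J - 1 - i0) = J - 1 := by omega
      rw [h2] at h1
      rcases smul_eq_zero.1 h1.symm with h3 | h3
      · exact hi0 (pow_eq_zero_iff (by positivity) |>.1 h3)
      · exact hJmin (J - 1) (by omega) h3
    · intro i hi hii
      rw [Finset.mem_range] at hi
      rcases Nat.lt_or_ge i i0 with h2 | h2
      · have h3 : a i = 0 := by
          by_contra h4
          exact hmin i h2 ⟨hi, h4⟩
        rw [h3, zero_pow (by positivity), zero_smul]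
      · rw [hzero J hJ (i + (J - 1 - i0)) (by omega), smul_zero]
    · intro h2
      exact absurd (Finset.mem_range.2 hi0J) h2
  have := hli.fintype_card_le_finrank
  simp at this
  omega

end Pool.Agent.SkN
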