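import Pool.Agent.Lib.SkN.Delta
import Pool.Agent.Lib.SkN.ArtR
import Pool.Agent.Lib.SkN.FamU

/-!
# Module NoTor: no toral element in the stabilizer (about 80 lines)

`b = finBasis k L`, `ι = {a : k // a ≠ 0}`, `i0 = ⟨1, one_ne_zero⟩`.  `famD_UU`, `cen_UU`, `art` give `c`; choose `j` with `c + 1 ≤ 2^j + 1` (`j = c`, `Nat.lt_two_pow_self`), `approx` gives `a'` (called `c` there):
`z i = Y i t - s i • a' i` is `InP 0` and its commutators are `InP (2^j + 1)`, so `z i = q(s i) + s i ^ (2^j+1-c) • z' i` and `Y i t = q(s i) + s i • (a' i + s i^(2^j - c) • z' i)`.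
Coordinates: `Y i t = mkP (τ) i` with `τ (Pi.single l 1) = C (b.repr t l)`, `0` otherwise (`wd (Pi.single l 1) = [l]`: the private lemma `wd_single` of Lib/SkF/ZZ.lean, copy it).  By `mkP_inj`
`τ = q • e0 + X • h` for some `h`, so `C (b.repr t l) = X * h (Pi.single l 1)` (`Pi.single l 1 ≠ 0`), evaluate at `0`: `b.repr t l = 0` for all `l`, `t = 0`.
-/

set_option autoImplicit false
set_option linter.unusedSectionVars false

namespace Pool.Agent.SkN

open Module Polynomial

open Pool.Agent.SkS (Rst Frz Nondeg Rep Irr UU)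

open Pool.Agent.SkF (Sys wp wd)

section aux

variable {k L : Type} [Field k] [CharP k 2] [LieRing L] [LieAlgebra k L]
  {n : ℕ} (b : Basis (Fin n) k L) {ι : Type} (s : ι → k) {A : ι → Type} [∀ i, Ring (A i)]
  [∀ i, Algebra k (A i)] (Y : ∀ i, L →ₗ[k] A i)

private lemma nt_add (g h : (Fin n → Fin 2) → k[X]) (i : ι) :
    mkP b s Y (g + h) i = mkP b s Y g i + mkP b s Y h i := by
  unfold mkP
  rw [← Finset.sum_add_distrib]
  refine Finset.sum_congr rfl fun ε _ => ?_
  rw [Pi.add_apply, eval_add, add_smul]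

private lemma nt_smul (q : k[X]) (g : (Fin n → Fin 2) → k[X]) (i : ι) :
    mkP b s Y (q • g) i = q.eval (s i) • mkP b s Y g i := by
  unfold mkP
  rw [Finset.smul_sum]
  refine Finset.sum_congr rfl fun ε _ => ?_
  rw [Pi.smul_apply, smul_eq_mul, eval_mul, mul_smul]

private lemma nt_zero (i : ι) : mkP b s Y (0 : (Fin n → Fin 2) → k[X]) i = 0 := by
  unfold mkP
  refine Finset.sum_eq_zero fun ε _ => ?_
  rw [Pi.zero_apply, eval_zero, zero_smul]

private lemma nt_sum {β : Type} (T : Finset β) (g : β → (Fin n → Fin 2) → k[X]) (i : ι) :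
    mkP b s Y (∑ t ∈ T, g t) i = ∑ t ∈ T, mkP b s Y (g t) i := by
  classical
  induction T using Finset.induction_on with
  | empty => rw [Finset.sum_empty, Finset.sum_empty, nt_zero]
  | insert a T ha ih => rw [Finset.sum_insert ha, Finset.sum_insert ha, nt_add, ih]

private lemma nt_wd_zero : wd (0 : Fin n → Fin 2) = [] := by
  unfold wd
  rw [List.filter_eq_nil_iff]
  intro a _
  simp

private lemma nt_wd_single (i : Fin n) : wd (Pi.single i (1 : Fin 2)) = [i] := by
  unfold wd
  have h1 : (List.finRange n).filter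
      (fun j => decide ((Pi.single i (1 : Fin 2) : Fin n → Fin 2) j = 1)) =
      (List.finRange n).filter (fun j => j == i) := by
    refine List.filter_congr fun j _ => ?_
    by_cases h : j = i
    · subst h; simp
    · simp [h]
  rw [h1, List.filter_beq, List.count_eq_one_of_mem (List.nodup_finRange n) (List.mem_finRange i)]
  rfl

private lemma nt_single (ε : Fin n → Fin 2) (q : k[X]) (i : ι) :
    mkP b s Y (Pi.single ε q) i = q.eval (s i) • wp b (Y i) (wd ε) := by
  unfold mkP
  rw [Finset.sum_eq_single ε]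
  · rw [Pi.single_eq_same]
  · intro δ _ hδ
    rw [Pi.single_eq_of_ne hδ, eval_zero, zero_smul]
  · intro h
    exact absurd (Finset.mem_univ _) h

private lemma nt_scalar (q : k[X]) (i : ι) :
    mkP b s Y (Pi.single (0 : Fin n → Fin 2) q) i = algebraMap k (A i) (q.eval (s i)) := by
  rw [nt_single, nt_wd_zero, Pool.Agent.SkF.wp_nil, Algebra.algebraMap_eq_smul_one]

private lemma nt_Y (x : L) (i : ι) :
    mkP b s Y (∑ l, Pi.single (Pi.single l (1 : Fin 2) : Fin n → Fin 2) (C (b.repr x l))) i =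
      Y i x := by
  rw [nt_sum]
  have h1 : Y i x = ∑ l, (b.repr x l) • Y i (b l) := by
    conv_lhs => rw [← b.sum_repr x]
    rw [map_sum]
    exact Finset.sum_congr rfl fun l _ => by rw [map_smul]
  rw [h1]
  refine Finset.sum_congr rfl fun l _ => ?_
  rw [nt_single, eval_C, nt_wd_single]
  congr 1
  simp [wp]

end aux

variable {k L : Type} [Field k] [CharP k 2] [IsAlgClosed k] [LieRing L] [LieAlgebra k L]
  [FiniteDimensional k L]

theorem no_toral {f : L → L} (hf : Frz k f) {χ : Dual k L} (hG : Good f χ) (t : L) (ht : f t = t)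
    (h1 : t ∈ rad χ) (h2 : ∀ z ∈ rad χ, ⁅t, z⁆ = 0) : t = 0 := by
  classical
  have hR : Rst k f := Pool.Agent.SkS.rst_of_frz hf
  have hD := famD_UU hf χ (finBasis k L)
  obtain ⟨c, hc⟩ := art hD ⟨1, one_ne_zero⟩ rfl (cen_UU hf hG)
  obtain ⟨a, ha0, ha1⟩ := approx hR hD t ht (mem_rad.1 h1) h2 c
  have hz : InP (finBasis k L) (fun a : {a : k // a ≠ 0} => (a : k))
      (fun a : {a : k // a ≠ 0} => YU f χ (a : k)) 0
      (fun i => YU f χ (i : k) t - (i : k) • a i) := by
    have h3 := inP_add (inP_Y hD t) (inP_smul (-X) ha0)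
    obtain ⟨g, hg⟩ := h3
    refine ⟨g, fun i => ?_⟩
    rw [← hg i]
    show _ - _ = _ + eval (i : k) (-X) • a i
    rw [eval_neg, eval_X, neg_smul, sub_eq_add_neg]
  have hcm : c ≤ 2 ^ c + 1 := (Nat.lt_two_pow_self (n := c)).le.trans (Nat.le_succ _)
  obtain ⟨q, z', hz', heq⟩ := hc (2 ^ c + 1) hcm _ hz ha1
  obtain ⟨g1, hg1⟩ := ha0
  obtain ⟨g2, hg2⟩ := hz'
  have hcl : c < 2 ^ c := Nat.lt_two_pow_self
  have hexp : 2 ^ c + 1 - c = (2 ^ c - c) + 1 := by omega
  have hcoord := mkP_inj hD
    (g := ∑ l, Pi.single (Pi.single l (1 : Fin 2) : Fin (finrank k L) → Fin 2)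
      (C ((finBasis k L).repr t l)))
    (h := Pi.single (0 : Fin (finrank k L) → Fin 2) q +
      (X : k[X]) • (g1 + (X ^ (2 ^ c - c) : k[X]) • g2)) (by
    intro i
    rw [nt_Y, nt_add, nt_scalar, nt_smul, nt_add, nt_smul, eval_X, eval_pow, eval_X]
    have h4 := heq i
    have h5 := hg1 i
    have h6 := hg2 i
    simp only [pow_zero, one_smul] at h5 h6
    rw [← h5, ← h6]
    rw [sub_eq_iff_eq_add] at h4
    rw [h4, hexp, pow_succ' (i : k) (2 ^ c - c), mul_smul, smul_add, add_assoc,
      add_comm ((i : k) • a i)])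
  have hzero : ∀ l, (finBasis k L).repr t l = 0 := by
    intro l
    have h7 := congrFun hcoord (Pi.single l (1 : Fin 2))
    have h8 : (∑ l', (Pi.single (Pi.single l' (1 : Fin 2) : Fin (finrank k L) → Fin 2)
        (C ((finBasis k L).repr t l')) : (Fin (finrank k L) → Fin 2) → k[X]))
        (Pi.single l (1 : Fin 2)) = C ((finBasis k L).repr t l) := by
      rw [Finset.sum_apply, Finset.sum_eq_single l]
      · rw [Pi.single_eq_same]
      · intro l' _ hl'
        rw [Pi.single_eq_of_ne]
        intro h9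
        apply hl'
        have h10 := congrFun h9 l
        rw [Pi.single_eq_same] at h10
        by_contra hne
        rw [Pi.single_eq_of_ne (Ne.symm hne)] at h10
        exact absurd h10 (by decide)
      · intro h
        exact absurd (Finset.mem_univ _) h
    rw [h8, Pi.add_apply, Pi.single_eq_of_ne, zero_add, Pi.smul_apply, smul_eq_mul] at h7
    · have h9 := congrArg (Polynomial.eval 0) h7
      rwa [eval_C, eval_mul, eval_X, zero_mul] at h9
    · intro h9
      have h10 := congrFun h9 l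
      rw [Pi.single_eq_same, Pi.zero_apply] at h10
      exact absurd h10 (by decide)
  have h9 : (finBasis k L).repr t = 0 := by
    ext l
    rw [hzero l]
    rfl
  exact (LinearEquiv.map_eq_zero_iff _).1 h9

end Pool.Agent.SkN
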