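import Pool.Agent.Lib.SkN.Defs

/-!
# Module RadC: semicontinuity of the dimension of the stabilizer on a line (about 80 lines)

`W` a complement of `rad χ` in `L`, `w : Fin m → L` a basis of `W`, `M i j = C (χ⁅w i, w j⁆) + X * C (ξ⁅w i, w j⁆)` over `k[X]`, `D = det M`.
`D(0) ≠ 0`: if `∑ x_i χ⁅w i, w j⁆ = 0` for all `j` then `x = ∑ x_i w_i ∈ W` satisfies `χ⁅x, W⁆ = 0` and `χ⁅x, rad χ⁆ = 0` (`lie_skew`), so `x ∈ rad χ ∩ W = 0`
(`Matrix.exists_vecMul_eq_zero_iff`).  So `D(c) ≠ 0` for all but finitely many `c` (`Polynomial.finite_setOf_isRoot`); for these `W ∩ rad (χ + c ξ) = 0` (if `x = ∑ x_i w_i` is in it then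
`x ᵥ* M(c) = 0`, `x = 0`), so `finrank (rad (χ + c ξ)) + finrank W ≤ finrank L = finrank (rad χ) + finrank W`.
(Similar: `good_infinite` in Lib/SkF/Poly.lean.)
-/

set_option autoImplicit false
set_option linter.unusedSectionVars false

namespace Pool.Agent.SkN

open Module

open Pool.Agent.SkS (Rst Frz Nondeg Rep Irr UU)

variable {k L : Type} [Field k] [LieRing L] [LieAlgebra k L] [FiniteDimensional k L]

private lemma rc_sum {W : Submodule k L} {n : ℕ} (b : Basis (Fin n) k W) (ψ : Dual k L)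
    (v : Fin n → k) (y : L) :
    ψ ⁅((∑ i, v i • b i : W) : L), y⁆ = ∑ i, v i * ψ ⁅(b i : L), y⁆ := by
  rw [Submodule.coe_sum, sum_lie, map_sum]
  refine Finset.sum_congr rfl fun i _ => ?_
  rw [Submodule.coe_smul, smul_lie, map_smul, smul_eq_mul]

private lemma rc_all {W : Submodule k L} {n : ℕ} (b : Basis (Fin n) k W) (ψ : Dual k L) (x : L)
    (h : ∀ j, ψ ⁅x, (b j : L)⁆ = 0) (y : W) : ψ ⁅x, (y : L)⁆ = 0 := by
  have hy : (y : L) = ∑ i, (b.repr y i) • (b i : L) := by
    conv_lhs => rw [← b.sum_repr y]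
    rw [Submodule.coe_sum]
    refine Finset.sum_congr rfl fun i _ => ?_
    rw [Submodule.coe_smul]
  rw [hy, lie_sum, map_sum]
  refine Finset.sum_eq_zero fun i _ => ?_
  rw [lie_smul, map_smul, h i, smul_zero]

private lemma rc_det {W : Submodule k L} {n : ℕ} (b : Basis (Fin n) k W) (χ : Dual k L)
    (hW : IsCompl (rad χ) W) : (Matrix.of fun i j => χ ⁅(b i : L), (b j : L)⁆).det ≠ 0 := by
  intro hd
  obtain ⟨v, hv0, hv⟩ := Matrix.exists_vecMul_eq_zero_iff.2 hd
  have hx : ∀ j, χ ⁅((∑ i, v i • b i : W) : L), (b j : L)⁆ = 0 := by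
    intro j
    have h1 := congrFun hv j
    rw [rc_sum]
    simpa [Matrix.vecMul, dotProduct] using h1
  have hr : ((∑ i, v i • b i : W) : L) ∈ rad χ := by
    intro y
    have hy : y ∈ rad χ ⊔ W := by
      rw [hW.sup_eq_top]
      exact Submodule.mem_top
    obtain ⟨y1, hy1, y2, hy2, rfl⟩ := Submodule.mem_sup.1 hy
    rw [lie_add, map_add, rc_all b χ _ hx ⟨y2, hy2⟩, add_zero, ← lie_skew, map_neg, hy1, neg_zero]
  have h0 : ((∑ i, v i • b i : W) : L) = 0 :=
    Submodule.disjoint_def.1 hW.disjoint _ hr (∑ i, v i • b i : W).2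
  have h1 : (∑ i, v i • b i : W) = 0 := Subtype.ext h0
  apply hv0
  funext i
  exact Fintype.linearIndependent_iff.1 b.linearIndependent v h1 i

private lemma rc_disj {W : Submodule k L} {n : ℕ} (b : Basis (Fin n) k W) (ψ : Dual k L)
    (hd : (Matrix.of fun i j => ψ ⁅(b i : L), (b j : L)⁆).det ≠ 0) : Disjoint (rad ψ) W := by
  rw [Submodule.disjoint_def]
  intro x hx hxW
  by_contra hx0
  apply hd
  refine Matrix.exists_vecMul_eq_zero_iff.1 ⟨fun i => b.repr ⟨x, hxW⟩ i, ?_, ?_⟩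
  · intro h
    apply hx0
    have h1 : (⟨x, hxW⟩ : W) = 0 := by
      rw [← b.sum_repr ⟨x, hxW⟩]
      refine Finset.sum_eq_zero fun i _ => ?_
      have h2 : b.repr ⟨x, hxW⟩ i = 0 := congrFun h i
      rw [h2, zero_smul]
    exact congrArg Subtype.val h1
  · funext j
    have h1 := hx (b j : L)
    have h2 : (x : L) = ((∑ i, b.repr ⟨x, hxW⟩ i • b i : W) : L) := by
      rw [b.sum_repr]
    rw [h2, rc_sum] at h1
    simpa [Matrix.vecMul, dotProduct] using h1

theorem rad_cof (χ ξ : Dual k L) :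
    {c : k | ¬ finrank k (rad (χ + c • ξ)) ≤ finrank k (rad χ)}.Finite := by
  obtain ⟨W, hW⟩ := (rad χ).exists_isCompl
  let b := Module.finBasis k W
  let D : Polynomial k := (Matrix.of fun i j => Polynomial.C (χ ⁅(b i : L), (b j : L)⁆) +
    Polynomial.X * Polynomial.C (ξ ⁅(b i : L), (b j : L)⁆)).det
  have hD : ∀ σ : k, D.eval σ =
      (Matrix.of fun i j => (χ + σ • ξ) ⁅(b i : L), (b j : L)⁆).det := by
    intro σ
    change Polynomial.evalRingHom σ D = _
    rw [RingHom.map_det]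
    congr 1
    ext i j
    simp only [RingHom.mapMatrix_apply, Matrix.map_apply, Matrix.of_apply,
      Polynomial.coe_evalRingHom, LinearMap.add_apply, LinearMap.smul_apply, smul_eq_mul]
    rw [Polynomial.eval_add, Polynomial.eval_mul, Polynomial.eval_C, Polynomial.eval_C,
      Polynomial.eval_X]
  have hD0 : D ≠ 0 := by
    intro h0
    apply rc_det b χ hW
    have h2 := hD 0
    rw [h0, Polynomial.eval_zero, zero_smul, add_zero] at h2
    exact h2.symm
  have hroots : {σ : k | D.IsRoot σ}.Finite := Polynomial.finite_setOfPred_isRoot hD0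
  refine hroots.subset ?_
  intro c hc
  by_contra hr
  apply hc
  have h1 : (Matrix.of fun i j => (χ + c • ξ) ⁅(b i : L), (b j : L)⁆).det ≠ 0 := by
    rw [← hD]
    exact hr
  have h2 := Submodule.finrank_add_finrank_le_of_disjoint (rc_disj b (χ + c • ξ) h1)
  have h3 := Submodule.finrank_add_eq_of_isCompl hW
  omega

end Pool.Agent.SkN
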