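import Pool.Agent.Lib.SkN.Contra
import Pool.Agent.Lib.SkN.AB
import Pool.Agent.Lib.SkN.NoTor
import Pool.Agent.Lib.SkN.Nil
import Pool.Agent.Lib.SkN.ExF
import Pool.Agent.Lib.SkN.Cof
import Pool.Agent.Lib.SkN.FrobG
import Pool.Agent.Lib.SkN.RadC

/-!
# Main theorem: `u(L, χ)` is simple iff `Z_L(χ) = 0`, characteristic two, all restricted Lie algebras

`nondeg_of_good`: strong induction on `finrank k L`.  Let `χ₀` be good, `r` the least `finrank (rad χ)`, `χ` good.  If `r = 0`, `L` is Frobenius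
(`nondeg_frob`).  Suppose `r ≥ 1`.  The stabilizers of dimension `r` of good forms are abelian (families), without toral elements (`no_toral`), so `f` is nilpotent
on them.  Let `K` be the largest number such that `f^[K] ν ≠ 0` for some `ν` in such a stabilizer; `ab` and `contra` for `x = f^[K] ν` give a contradiction.
-/

set_option autoImplicit false
set_option linter.unusedSectionVars false

namespace Pool.Agent.SkN

open Module

open Pool.Agent.SkS (Rst Frz Nondeg Rep Irr UU)

variable {k : Type} [Field k] [CharP k 2] [IsAlgClosed k]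

section aux

variable {L : Type} [LieRing L] [LieAlgebra k L] [FiniteDimensional k L]

private lemma rad_f {f : L → L} (hf : Rst k f) (χ : Dual k L) (x : L) (hx : x ∈ rad χ) :
    f x ∈ rad χ := by
  intro y
  rw [hf.lie]
  exact hx _

private lemma rad_iter {f : L → L} (hf : Rst k f) (χ : Dual k L) (x : L) (hx : x ∈ rad χ) (j : ℕ) :
    f^[j] x ∈ rad χ := by
  induction j with
  | zero => exact hx
  | succ j ih =>
    rw [Function.iterate_succ_apply']
    exact rad_f hf χ _ ih

private lemma f_zero {f : L → L} (hf : Rst k f) : f 0 = 0 := by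
  have h := hf.smul 0 0
  rw [zero_smul] at h
  rw [h, zero_pow two_ne_zero, zero_smul]

private lemma iter_zero {f : L → L} (hf : Rst k f) (j : ℕ) : f^[j] 0 = 0 := by
  induction j with
  | zero => rfl
  | succ j ih =>
    rw [Function.iterate_succ_apply', ih, f_zero hf]

/-- the hypothesis of `exists_fam` -/
private lemma cof_r {f : L → L} (hf : Frz k f) {r : ℕ}
    (hr : ∀ χ : Dual k L, Good f χ → r ≤ finrank k (rad χ)) {χ : Dual k L} (hG : Good f χ)
    (hχ : finrank k (rad χ) = r) (ξ : Dual k L) :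
    {c : k | ¬ finrank k (rad χ) ≤ finrank k (rad (χ + c • ξ))}.Finite := by
  refine (good_cof hf hG ξ).subset fun c hc hc' => hc ?_
  rw [hχ]
  exact hr _ hc'

/-- the stabilizers of dimension `r` are abelian -/
private lemma rad_ab {f : L → L} (hf : Frz k f) {r : ℕ}
    (hr : ∀ χ : Dual k L, Good f χ → r ≤ finrank k (rad χ)) {χ : Dual k L} (hG : Good f χ)
    (hχ : finrank k (rad χ) = r) (v : L) (hv : v ∈ rad χ) (y : L) (hy : y ∈ rad χ) :
    ⁅v, y⁆ = 0 := by
  rw [← Module.forall_dual_apply_eq_zero_iff k]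
  intro ξ
  obtain ⟨F, x1, x2, hF, hfin⟩ := exists_fam χ ξ (cof_r hf hr hG hχ ξ) v hv
  have hinf : {c : k | ¬ F c ∈ rad (χ + c • ξ)}ᶜ.Infinite := hfin.infinite_compl
  have h := (fam_pair hF χ ξ _ hinf (fun c hc => by
    have hc' : ¬ ¬ F c ∈ rad (χ + c • ξ) := hc
    exact not_not.1 hc') y).2
  have h1 : χ ⁅x1, y⁆ = 0 := by
    rw [← lie_skew, map_neg, hy x1, neg_zero]
  rwa [h1, zero_add] at h

/-- `f` is nilpotent on the stabilizers of dimension `r` -/
private lemma rad_nil {f : L → L} (hf : Frz k f) {r : ℕ}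
    (hr : ∀ χ : Dual k L, Good f χ → r ≤ finrank k (rad χ)) {χ : Dual k L} (hG : Good f χ)
    (hχ : finrank k (rad χ) = r) (v : L) (hv : v ∈ rad χ) : f^[finrank k L] v = 0 := by
  have hf' := Pool.Agent.SkS.rst_of_frz hf
  refine nil_bound hf' (rad χ) (fun x hx y hy => rad_ab hf hr hG hχ x hx y hy)
    (fun x hx => rad_f hf' χ x hx) (fun t ht htt => ?_) v hv
  exact no_toral hf hG t htt ht (fun z hz => rad_ab hf hr hG hχ t ht z hz)

end aux

theorem nondeg_of_good : ∀ (n : ℕ) (L : Type) [LieRing L] [LieAlgebra k L] [FiniteDimensional k L]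
    (f : L → L) (χ : Dual k L), finrank k L = n → Rst k f → Good f χ → Nondeg χ := by
  intro n
  induction n using Nat.strong_induction_on with
  | _ n ih =>
  intro L _ _ _ f χ₀ hn hf hG₀
  have hF : Frz k f := frz_of_rst hf
  classical
  have hex : ∃ r : ℕ, ∃ χ : Dual k L, Good f χ ∧ finrank k (rad χ) = r := ⟨_, χ₀, hG₀, rfl⟩
  obtain ⟨χ₁, hG₁, hr₁⟩ := Nat.find_spec hex
  set r := Nat.find hex with hrdef
  have hr : ∀ χ : Dual k L, Good f χ → r ≤ finrank k (rad χ) := by
    intro χ hG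
    exact Nat.find_min' hex ⟨χ, hG, rfl⟩
  rcases Nat.eq_zero_or_pos r with hr0 | hrpos
  · refine nondeg_frob hF χ₁ ?_ χ₀ hG₀
    intro x hx
    have h1 : rad χ₁ = ⊥ := Submodule.finrank_eq_zero.1 (hr₁.trans hr0)
    have h2 : x ∈ rad χ₁ := hx
    rw [h1] at h2
    exact (Submodule.mem_bot k).1 h2
  exfalso
  -- the largest `K`
  let P : ℕ → Prop := fun K => ∃ χ : Dual k L, Good f χ ∧ finrank k (rad χ) = r ∧
    ∃ ν ∈ rad χ, f^[K] ν ≠ 0
  have hP0 : P 0 := by
    obtain ⟨ν, hν, hν0⟩ := (Submodule.ne_bot_iff (rad χ₁)).1 (by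
      intro h
      rw [h, finrank_bot] at hr₁
      omega)
    exact ⟨χ₁, hG₁, hr₁, ν, hν, hν0⟩
  have hPb : ∀ K, P K → K < n := by
    intro K hK
    by_contra hlt
    obtain ⟨χ, hG, hχ, ν, hν, h0⟩ := hK
    apply h0
    have h1 := rad_nil hF hr hG hχ ν hν
    rw [hn] at h1
    obtain ⟨j, hj⟩ := Nat.exists_eq_add_of_le (not_lt.1 hlt)
    rw [hj, Nat.add_comm, Function.iterate_add_apply, h1, iter_zero hf]
  obtain ⟨K, hK, hKmax⟩ : ∃ K, P K ∧ ∀ K', P K' → K' ≤ K := by
    refine ⟨Nat.findGreatest P n, Nat.findGreatest_spec (Nat.zero_le n) hP0, fun K' hK' => ?_⟩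
    exact Nat.le_findGreatest (hPb K' hK').le hK'
  obtain ⟨χ, hG, hχ, ν, hν, hx0⟩ := hK
  have hvan : ∀ χ' : Dual k L, Good f χ' → finrank k (rad χ') = r → ∀ a ∈ rad χ',
      f^[K + 1] a = 0 := by
    intro χ' hG' hχ' a ha
    by_contra h
    have := hKmax (K + 1) ⟨χ', hG', hχ', a, ha, h⟩
    omega
  have hAB := ab hf K ν hν (fun a ha b hb => rad_ab hF hr hG hχ a ha b hb)
    (fun hK0 a ha => by
      have h := hvan χ hG hχ a ha
      rw [hK0] at h
      exact h)
    (fun ξ => by
      obtain ⟨F, x1, x2, hFam, hfin⟩ := exists_fam χ ξ (cof_r hF hr hG hχ ξ) ν hν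
      refine ⟨F, x1, x2, hFam, ?_⟩
      refine ((hfin.union (good_cof hF hG ξ)).union (rad_cof χ ξ)).subset ?_
      intro c hc
      by_contra hcon
      apply hc
      rw [Set.mem_union, Set.mem_union, not_or, not_or] at hcon
      obtain ⟨⟨h1, h2⟩, h3⟩ := hcon
      have h1' : F c ∈ rad (χ + c • ξ) := by
        by_contra h
        exact h1 h
      have h2' : Good f (χ + c • ξ) := by
        by_contra h
        exact h2 h
      have h3' : finrank k (rad (χ + c • ξ)) ≤ finrank k (rad χ) := by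
        by_contra h
        exact h3 h
      refine ⟨h1', hvan _ h2' (le_antisymm (h3'.trans hχ.le) (hr _ h2')) _ h1'⟩)
  refine contra hf hG (f^[K] ν) hx0 (rad_iter hf χ ν hν K) ?_ hAB.1 hAB.2 ?_
  · have h := hvan χ hG hχ ν hν
    rwa [Function.iterate_succ_apply'] at h
  · intro L' _ _ _ f' χ' hlt hf' hG'
    exact ih (finrank k L') (hn ▸ hlt) L' f' χ' rfl hf' hG'

theorem main_theorem {L : Type} [LieRing L] [LieAlgebra k L] [FiniteDimensional k L] {f : L → L}
    (hf : Frz k f) (χ : Dual k L) : IsSimpleRing (UU f χ) ↔ Nondeg χ := by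
  constructor
  · intro hs
    exact nondeg_of_good _ L f χ rfl (Pool.Agent.SkS.rst_of_frz hf)
      (Pool.Agent.SkS.good_of_simple hf χ hs)
  · exact Pool.Agent.SkM.main_theorem hf χ

end Pool.Agent.SkN
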