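import Pool.Agent.Lib.SkN.Defs

/-!
# Module PolF: polynomial maps `k → L` (about 150 lines)

First show that `PolMap` is closed under addition, constants, `c ↦ c^j • F c`, `c ↦ x c`..., brackets `c ↦ ⁅F c, G c⁆` and `f` (by induction on the number of terms:
`f (∑_{j<N+1} c^j v_j) = f (∑_{j<N}) + c^(2N) f v_N + ⁅∑_{j<N} c^j v_j, c^N v_N⁆`, `hf.add`, `hf.smul`).
`fam_f`: `F c = p + c^3 G c`, `p = x0 + c x1 + c^2 x2`; `f (F c) = f p + c^6 f (G c) + c^3 ⁅p, G c⁆`, and
`f p = f x0 + c^2 f x1 + c^4 f x2 + c ⁅x0,x1⁆ + c^2 ⁅x0,x2⁆ + c^3 ⁅x1,x2⁆`; collect the terms divisible by `c^3`.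
`fam_zero`: a polynomial map `c ↦ ∑ c^j v_j` vanishing at infinitely many `c` has all `v_j = 0`: for every linear form `ℓ` the polynomial `∑ ℓ(v_j) X^j` has infinitely many
roots, so `ℓ (v_j) = 0` for all `ℓ` (`Module.forall_dual_apply_eq_zero_iff`).  (`F` is `∑_{j<N+3} c^j w_j` with `w_0 = x0, w_1 = x1, w_2 = x2, w_{j+3} = v_j`.)
`fam_pair`: the polynomial `(χ + c ξ)⁅F c, y⁆ = χ⁅x0,y⁆ + c (χ⁅x1,y⁆ + ξ⁅x0,y⁆) + c^2 (…)` vanishes infinitely often.
-/

set_option autoImplicit false
set_option linter.unusedSectionVars false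

namespace Pool.Agent.SkN

open Module

open Pool.Agent.SkS (Rst Frz Nondeg Rep Irr UU)

variable {k L : Type} [Field k] [LieRing L] [LieAlgebra k L] [FiniteDimensional k L]

private theorem pad_sum (N K : ℕ) (h : N ≤ K) (v : ℕ → L) (c : k) :
    ∑ j ∈ Finset.range K, c ^ j • (if j < N then v j else 0) =
      ∑ j ∈ Finset.range N, c ^ j • v j := by
  rw [← Finset.sum_subset (Finset.range_subset_range.2 h)
    (fun j _ hj => by
      rw [if_neg (fun h' => hj (Finset.mem_range.2 h')), smul_zero])]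
  exact Finset.sum_congr rfl fun j hj => by rw [if_pos (Finset.mem_range.1 hj)]

private theorem pm_mono (j : ℕ) (v : L) : PolMap (fun c : k => c ^ j • v) := by
  refine ⟨j + 1, fun i => if i = j then v else 0, fun c => ?_⟩
  rw [Finset.sum_eq_single j]
  · show c ^ j • v = c ^ j • (if j = j then v else 0)
    rw [if_pos rfl]
  · intro i _ hi
    show c ^ i • (if i = j then v else 0) = 0
    rw [if_neg hi, smul_zero]
  · intro hj
    exact absurd (Finset.mem_range.2 (Nat.lt_succ_self j)) hj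

private theorem pm_add {F G : k → L} (hF : PolMap F) (hG : PolMap G) :
    PolMap (fun c => F c + G c) := by
  obtain ⟨N, v, hv⟩ := hF
  obtain ⟨M, w, hw⟩ := hG
  refine ⟨max N M, fun j => (if j < N then v j else 0) + (if j < M then w j else 0),
    fun c => ?_⟩
  simp only [smul_add, Finset.sum_add_distrib]
  rw [pad_sum N _ (le_max_left N M), pad_sum M _ (le_max_right N M), ← hv, ← hw]

private theorem pm_zero : PolMap (fun _ : k => (0 : L)) :=
  ⟨0, fun _ => 0, fun _ => by rw [Finset.sum_range_zero]⟩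

private theorem pm_const (v : L) : PolMap (fun _ : k => v) := by
  have h := pm_mono (k := k) 0 v
  simpa only [pow_zero, one_smul] using h

private theorem pm_sum (N : ℕ) (F : ℕ → k → L) (h : ∀ j, PolMap (F j)) :
    PolMap (fun c => ∑ j ∈ Finset.range N, F j c) := by
  induction N with
  | zero => simpa only [Finset.sum_range_zero] using (pm_zero (k := k) (L := L))
  | succ N ih =>
    simp only [Finset.sum_range_succ]
    exact pm_add ih (h N)

private theorem pm_pow (m : ℕ) {F : k → L} (hF : PolMap F) : PolMap (fun c => c ^ m • F c) := by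
  obtain ⟨N, v, hv⟩ := hF
  have h := pm_sum N (fun j (c : k) => c ^ (m + j) • v j) (fun j => pm_mono (m + j) (v j))
  have e : (fun c : k => c ^ m • F c) =
      fun c => ∑ j ∈ Finset.range N, c ^ (m + j) • v j := by
    funext c
    rw [hv, Finset.smul_sum]
    exact Finset.sum_congr rfl fun j _ => by rw [smul_smul, pow_add]
  rw [e]
  exact h

private theorem lie_range_sum (N : ℕ) (x : L) (v : ℕ → L) :
    ⁅x, ∑ j ∈ Finset.range N, v j⁆ = ∑ j ∈ Finset.range N, ⁅x, v j⁆ := by
  induction N with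
  | zero => rw [Finset.sum_range_zero, Finset.sum_range_zero, lie_zero]
  | succ N ih => rw [Finset.sum_range_succ, Finset.sum_range_succ, lie_add, ih]

private theorem range_sum_lie (N : ℕ) (x : L) (v : ℕ → L) :
    ⁅∑ j ∈ Finset.range N, v j, x⁆ = ∑ j ∈ Finset.range N, ⁅v j, x⁆ := by
  induction N with
  | zero => rw [Finset.sum_range_zero, Finset.sum_range_zero, zero_lie]
  | succ N ih => rw [Finset.sum_range_succ, Finset.sum_range_succ, add_lie, ih]

private theorem pm_lie {F G : k → L} (hF : PolMap F) (hG : PolMap G) :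
    PolMap (fun c => ⁅F c, G c⁆) := by
  obtain ⟨N, v, hv⟩ := hF
  obtain ⟨M, w, hw⟩ := hG
  have h := pm_sum N (fun i (c : k) => ∑ j ∈ Finset.range M, c ^ (i + j) • ⁅v i, w j⁆)
    (fun i => pm_sum M (fun j (c : k) => c ^ (i + j) • ⁅v i, w j⁆)
      (fun j => pm_mono (i + j) ⁅v i, w j⁆))
  have e : (fun c : k => ⁅F c, G c⁆) =
      fun c => ∑ i ∈ Finset.range N, ∑ j ∈ Finset.range M, c ^ (i + j) • ⁅v i, w j⁆ := by
    funext c
    rw [hv, hw, range_sum_lie]
    refine Finset.sum_congr rfl fun i _ => ?_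
    rw [lie_range_sum]
    refine Finset.sum_congr rfl fun j _ => ?_
    rw [smul_lie, lie_smul, smul_smul, pow_add]
  rw [e]
  exact h

private theorem f_zero {f : L → L} (hf : Rst k f) : f 0 = 0 := by
  have h := hf.smul 0 0
  rw [smul_zero] at h
  rw [h]
  simp

private theorem pm_f {f : L → L} (hf : Rst k f) {F : k → L} (hF : PolMap F) :
    PolMap (fun c => f (F c)) := by
  obtain ⟨N, v, hv⟩ := hF
  have h : ∀ N : ℕ, PolMap (fun c : k => f (∑ j ∈ Finset.range N, c ^ j • v j)) := by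
    intro N
    induction N with
    | zero =>
      simp only [Finset.sum_range_zero, f_zero hf]
      exact pm_zero
    | succ N ih =>
      have e : (fun c : k => f (∑ j ∈ Finset.range (N + 1), c ^ j • v j)) =
          fun c => (f (∑ j ∈ Finset.range N, c ^ j • v j) + c ^ (N * 2) • f (v N)) +
            ⁅∑ j ∈ Finset.range N, c ^ j • v j, c ^ N • v N⁆ := by
        funext c
        rw [Finset.sum_range_succ, hf.add, hf.smul, pow_mul]
      rw [e]
      exact pm_add (pm_add ih (pm_mono (N * 2) (f (v N))))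
        (pm_lie ⟨N, v, fun c => rfl⟩ (pm_mono N (v N)))
  have e : (fun c : k => f (F c)) = fun c : k => f (∑ j ∈ Finset.range N, c ^ j • v j) := by
    funext c
    rw [hv]
  rw [e]
  exact h N

private theorem pm_dual {G : k → L} (hG : PolMap G) (l : Dual k L) :
    ∃ Q : Polynomial k, ∀ c, l (G c) = Q.eval c := by
  obtain ⟨N, v, hv⟩ := hG
  refine ⟨∑ j ∈ Finset.range N, Polynomial.C (l (v j)) * Polynomial.X ^ j, fun c => ?_⟩
  rw [hv, map_sum, Polynomial.eval_finsetSum]
  refine Finset.sum_congr rfl fun j _ => ?_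
  rw [map_smul, smul_eq_mul, Polynomial.eval_mul, Polynomial.eval_C, Polynomial.eval_pow,
    Polynomial.eval_X, mul_comm]

private theorem coeff_zero_of {a0 a1 a2 : k} (Q : Polynomial k) {S : Set k} (hS : S.Infinite)
    (h : ∀ c ∈ S, a0 + c * a1 + c ^ 2 * a2 + c ^ 3 * Q.eval c = 0) :
    a0 = 0 ∧ a1 = 0 ∧ a2 = 0 := by
  have hP : Polynomial.C a0 + Polynomial.X * Polynomial.C a1 +
      Polynomial.X ^ 2 * Polynomial.C a2 + Polynomial.X ^ 3 * Q = 0 := by
    refine Polynomial.eq_zero_of_infinite_isRoot _ (hS.mono fun c hc => ?_)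
    show Polynomial.IsRoot _ c
    rw [Polynomial.IsRoot.def]
    simp only [Polynomial.eval_add, Polynomial.eval_mul, Polynomial.eval_C, Polynomial.eval_pow,
      Polynomial.eval_X]
    exact h c hc
  refine ⟨?_, ?_, ?_⟩
  · have h0 := congrArg (fun P => Polynomial.coeff P 0) hP
    simpa [Polynomial.coeff_X_pow_mul', Polynomial.coeff_C] using h0
  · have h0 := congrArg (fun P => Polynomial.coeff P 1) hP
    simpa [Polynomial.coeff_X_pow_mul', Polynomial.coeff_C] using h0
  · have h0 := congrArg (fun P => Polynomial.coeff P 2) hP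
    simpa [Polynomial.coeff_X_pow_mul', Polynomial.coeff_C, Polynomial.coeff_X_mul] using h0

/-- the linear form `z ↦ χ ⁅z, y⁆` -/
private def lform (χ : Dual k L) (y : L) : Dual k L where
  toFun z := χ ⁅z, y⁆
  map_add' a b := by rw [add_lie, map_add]
  map_smul' a b := by rw [smul_lie, map_smul]; rfl

private theorem lform_apply (χ : Dual k L) (y z : L) : lform χ y z = χ ⁅z, y⁆ := rfl

theorem fam_f {f : L → L} (hf : Rst k f) {F : k → L} {x0 x1 x2 : L} (h : Fam F x0 x1 x2) :
    Fam (fun c => f (F c)) (f x0) ⁅x0, x1⁆ (f x1 + ⁅x0, x2⁆) := by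
  obtain ⟨G, hG, hF⟩ := h
  have hp : PolMap (fun c : k => x0 + c • x1 + c ^ 2 • x2) := by
    have h1 : PolMap (fun c : k => c • x1) := by
      have := pm_mono (k := k) 1 x1
      simpa only [pow_one] using this
    exact pm_add (pm_add (pm_const x0) h1) (pm_mono 2 x2)
  have h1 : PolMap (fun c : k => c • f x2) := by
    have := pm_mono (k := k) 1 (f x2)
    simpa only [pow_one] using this
  refine ⟨fun c => ((⁅x1, x2⁆ + c • f x2) + ⁅x0 + c • x1 + c ^ 2 • x2, G c⁆) +
    c ^ 3 • f (G c), pm_add (pm_add (pm_add (pm_const _) h1) (pm_lie hp hG))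
      (pm_pow 3 (pm_f hf hG)), fun c => ?_⟩
  show f (F c) = _
  rw [hF, hf.add, hf.add, hf.add, hf.smul, hf.smul, hf.smul]
  simp only [smul_lie, lie_smul, add_lie, smul_add, smul_smul]
  module

theorem fam_zero {F : k → L} {x0 x1 x2 : L} (h : Fam F x0 x1 x2) (S : Set k) (hS : S.Infinite)
    (h0 : ∀ c ∈ S, F c = 0) : x0 = 0 ∧ x1 = 0 ∧ x2 = 0 := by
  obtain ⟨G, hG, hF⟩ := h
  have key : ∀ l : Dual k L, l x0 = 0 ∧ l x1 = 0 ∧ l x2 = 0 := by
    intro l
    obtain ⟨Q, hQ⟩ := pm_dual hG l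
    refine coeff_zero_of Q hS fun c hc => ?_
    rw [← hQ]
    have h1 := congrArg l (h0 c hc)
    rw [hF, map_zero] at h1
    simp only [map_add, map_smul, smul_eq_mul] at h1
    exact h1
  exact ⟨(Module.forall_dual_apply_eq_zero_iff k x0).1 fun l => (key l).1,
    (Module.forall_dual_apply_eq_zero_iff k x1).1 fun l => (key l).2.1,
    (Module.forall_dual_apply_eq_zero_iff k x2).1 fun l => (key l).2.2⟩

theorem fam_pair {F : k → L} {x0 x1 x2 : L} (h : Fam F x0 x1 x2) (χ ξ : Dual k L) (S : Set k)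
    (hS : S.Infinite) (h0 : ∀ c ∈ S, F c ∈ rad (χ + c • ξ)) (y : L) :
    χ ⁅x0, y⁆ = 0 ∧ χ ⁅x1, y⁆ + ξ ⁅x0, y⁆ = 0 := by
  obtain ⟨G, hG, hF⟩ := h
  obtain ⟨Q1, hQ1⟩ := pm_dual hG (lform χ y)
  obtain ⟨Q2, hQ2⟩ := pm_dual hG (lform ξ y)
  have key := coeff_zero_of (a0 := χ ⁅x0, y⁆) (a1 := χ ⁅x1, y⁆ + ξ ⁅x0, y⁆)
    (a2 := χ ⁅x2, y⁆ + ξ ⁅x1, y⁆)
    (Q1 + Polynomial.C (ξ ⁅x2, y⁆) + Polynomial.X * Q2) hS (fun c hc => by
      have h1 := h0 c hc y
      rw [hF] at h1
      simp only [add_lie, smul_lie, map_add, map_smul, LinearMap.add_apply,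
        LinearMap.smul_apply, smul_eq_mul] at h1
      simp only [Polynomial.eval_add, Polynomial.eval_mul, Polynomial.eval_C,
        Polynomial.eval_X, ← hQ1, ← hQ2, lform_apply]
      linear_combination h1)
  exact ⟨key.1, key.2.1⟩

end Pool.Agent.SkN
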