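import Pool.Agent.Lib.SkN.Defs

/-!
# Module Quot: the restricted quotient `C ⧸ E` (about 120 lines)

`C` is a Lie subalgebra stable under `f`, `E ≤ C` a subspace with `⁅C, E⁆ ⊆ E`, `f E ⊆ E`, `χ(E) = 0`.
`I : LieIdeal k C` with carrier `{x | (x : L) ∈ E}` (as `redI` in Lib/SkS/Red.lean), `L' = C ⧸ I`, `π = LieSubmodule.Quotient.mk'`
(or `LieIdeal`-quotient map; see the proof of `red` in Lib/SkS/Red.lean, where the same is done for a special `C`: copy it).
`f'` is well defined: `f (c + e) = f c + f e + ⁅c, e⁆` (`hf.add`), `f e, ⁅c, e⁆ ∈ E` (use `⁅e, c⁆` with a sign).  Define `f' q = π (f (Quotient.out q))` or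
by `Quotient.lift`; `Rst k f'` follows from `Rst k f` since `π` is surjective.  `χ'` is the descended form (`Submodule.liftQ`).
`finrank (C ⧸ I) + finrank I = finrank C` (`Submodule.finrank_quotient_add_finrank`), `finrank I = finrank E` (`I ≃ E`).
-/

set_option autoImplicit false
set_option linter.unusedSectionVars false

namespace Pool.Agent.SkN

open Module

open Pool.Agent.SkS (Rst Frz Nondeg Rep Irr UU)

variable {k L : Type} [Field k] [LieRing L] [LieAlgebra k L] [FiniteDimensional k L]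

/-- the ideal `E` of `C` -/
private def quotI {C : LieSubalgebra k L} {E : Submodule k L}
    (h : ∀ c ∈ C, ∀ e ∈ E, ⁅c, e⁆ ∈ E) : LieIdeal k C where
  carrier := {x | (x : L) ∈ E}
  add_mem' := fun hx hy => E.add_mem hx hy
  zero_mem' := E.zero_mem
  smul_mem' := fun c _ hx => E.smul_mem c hx
  lie_mem := fun {x m} hm => h x x.2 m hm

theorem quot {f : L → L} (hf : Rst k f) (χ : Dual k L) (C : LieSubalgebra k L)
    (hC : ∀ c ∈ C, f c ∈ C) (E : Submodule k L) (hEC : ∀ e ∈ E, e ∈ C)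
    (hE : ∀ c ∈ C, ∀ e ∈ E, ⁅c, e⁆ ∈ E) (hfE : ∀ e ∈ E, f e ∈ E) (hχ : ∀ e ∈ E, χ e = 0) :
    ∃ (L' : Type) (_ : LieRing L') (_ : LieAlgebra k L') (f' : L' → L') (χ' : Dual k L')
      (π : C →ₗ⁅k⁆ L'), FiniteDimensional k L' ∧ Rst k f' ∧ Function.Surjective π ∧
        (∀ c : C, π c = 0 ↔ (c : L) ∈ E) ∧ (∀ c : C, f' (π c) = π ⟨f c, hC c c.2⟩) ∧
        (∀ c : C, χ' (π c) = χ c) ∧ finrank k L' + finrank k E = finrank k C := by
  let I : LieIdeal k C := quotI hE
  have hI : ∀ x : C, x ∈ I ↔ (x : L) ∈ E := fun x => Iff.rfl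
  let π : C →ₗ⁅k⁆ (C ⧸ I) :=
    { (LieSubmodule.Quotient.mk' I : C →ₗ[k] (C ⧸ I)) with
      map_lie' := fun {x y} => LieSubmodule.Quotient.mk_bracket I x y }
  have hπ : ∀ x : C, π x = LieSubmodule.Quotient.mk x := fun x => rfl
  have hsurj : Function.Surjective π := by
    intro q
    obtain ⟨x, hx⟩ := Submodule.Quotient.mk_surjective _ q
    exact ⟨x, hx⟩
  have hker : ∀ x : C, π x = 0 ↔ (x : L) ∈ E := by
    intro x
    rw [hπ, LieSubmodule.Quotient.mk_eq_zero', hI]
  have hkey : ∀ x y : C, π x = π y → π ⟨f x, hC x x.2⟩ = π ⟨f y, hC y y.2⟩ := by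
    intro x y hxy
    have h1 : (((y - x : C)) : L) ∈ E := by
      rw [← hker, map_sub, hxy, sub_self]
    set m : L := ((y - x : C) : L) with hm
    have hy : (y : L) = (x : L) + m := by
      rw [hm]
      simp
    have h2 : f (y : L) - f (x : L) = f m + ⁅(x : L), m⁆ := by
      rw [hy, hf.add]
      abel
    have h3 : ((⟨f y, hC y y.2⟩ - ⟨f x, hC x x.2⟩ : C) : L) ∈ E := by
      show f (y : L) - f (x : L) ∈ E
      rw [h2]
      exact E.add_mem (hfE m h1) (hE x x.2 m h1)
    rw [← hker, map_sub, sub_eq_zero] at h3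
    exact h3.symm
  let s : (C ⧸ I) → C := Function.surjInv hsurj
  have hs : ∀ q, π (s q) = q := Function.surjInv_eq hsurj
  let f' : (C ⧸ I) → (C ⧸ I) := fun q => π ⟨f (s q), hC (s q) (s q).2⟩
  have hf' : ∀ x : C, f' (π x) = π ⟨f x, hC x x.2⟩ := by
    intro x
    exact hkey _ _ (hs (π x))
  have hχK : I.toSubmodule ≤ LinearMap.ker (χ.comp C.toSubmodule.subtype) := by
    intro x hx
    rw [LinearMap.mem_ker]
    exact hχ _ hx
  let χ' : Dual k (C ⧸ I) := I.toSubmodule.liftQ (χ.comp C.toSubmodule.subtype) hχK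
  have hχ' : ∀ x : C, χ' (π x) = χ x := fun x => rfl
  have hR : Rst k f' := by
    refine ⟨?_, ?_, ?_⟩
    · intro p q
      obtain ⟨x, rfl⟩ := hsurj p
      obtain ⟨y, rfl⟩ := hsurj q
      rw [← map_add, hf', hf', hf', ← LieHom.map_lie, ← map_add, ← map_add]
      refine congrArg π (Subtype.ext ?_)
      exact hf.add x y
    · intro a p
      obtain ⟨x, rfl⟩ := hsurj p
      rw [← map_smul, hf', hf', ← map_smul]
      refine congrArg π (Subtype.ext ?_)
      exact hf.smul a x
    · intro p q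
      obtain ⟨x, rfl⟩ := hsurj p
      obtain ⟨y, rfl⟩ := hsurj q
      rw [hf', ← LieHom.map_lie, ← LieHom.map_lie, ← LieHom.map_lie]
      refine congrArg π (Subtype.ext ?_)
      exact hf.lie x y
  have hfin2 : finrank k (C ⧸ I) + finrank k E = finrank k C := by
    have h := LinearMap.finrank_range_add_finrank_ker (π : C →ₗ[k] (C ⧸ I))
    have h1 : LinearMap.range (π : C →ₗ[k] (C ⧸ I)) = ⊤ := LinearMap.range_eq_top.mpr hsurj
    have h2 : finrank k (LinearMap.ker (π : C →ₗ[k] (C ⧸ I))) = finrank k E := by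
      have hle : E ≤ C.toSubmodule := hEC
      have e : LinearMap.ker (π : C →ₗ[k] (C ⧸ I)) = E.comap C.toSubmodule.subtype := by
        ext x
        rw [LinearMap.mem_ker, Submodule.mem_comap]
        exact hker x
      rw [e]
      exact LinearEquiv.finrank_eq (Submodule.comapSubtypeEquivOfLe hle)
    rw [h1, h2, finrank_top] at h
    exact h
  exact ⟨C ⧸ I, inferInstance, inferInstance, f', χ', π,
    Module.Finite.of_surjective (π : C →ₗ[k] (C ⧸ I)) hsurj, hR, hsurj, hker, hf', hχ', hfin2⟩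

end Pool.Agent.SkN
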